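import Pool.Agent.W263.BSD.Lap

/-! Landau's lemma for Laplace transforms: the half-plane of convergence. -/

set_option autoImplicit false

namespace Pool.Agent.TH988.RB

open MeasureTheory ProbabilityTheory Filter Topology Set
open Pool.Agent.W263.BSD

/-- If the Laplace transform of a nonnegative function converges for large arguments and coincides
there with a function which is real-analytic on `(a, ∞)`, then it converges on `(a, ∞)`. -/
theorem landau_lap {f : ℝ → ℝ} (hf : Measurable f) (h0 : ∀ u, 0 < u → 0 ≤ f u)
    {a w1 : ℝ} (h1 : ∀ w > w1, LInt f w) {g : ℝ → ℝ} (hg : ∀ w > a, AnalyticAt ℝ g w)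
    (heq : ∀ w > w1, a < w → lap f w = g w) :
    (∀ w > a, LInt f w) ∧ ∀ w > a, lap f w = g w := by
  -- equality on the half line of convergence
  have key : ∀ s : ℝ, a ≤ s → (∀ w > s, LInt f w) → ∀ w > s, lap f w = g w := by
    intro s hs hL
    have hA1 : AnalyticOnNhd ℝ (fun w => lap f w) (Ioi s) := by
      intro w hw
      have h2 : (fun w => lap f w) = fun w => mgf id (dens f) (-w) := by
        funext w
        rw [mgf_dens hf h0, neg_neg]
      rw [h2]
      have h3 : AnalyticAt ℝ (mgf id (dens f)) (-w) := by
        apply analyticAt_mgf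
        rw [mem_interior]
        refine ⟨Iio (-s), fun t ht => ?_, isOpen_Iio, by simpa using hw⟩
        rw [mem_integrableExpSet_dens hf h0]
        exact hL _ (by have : t < -s := ht; show s < -t; linarith)
      exact h3.comp_of_eq (analyticAt_id.neg) rfl
    have hA2 : AnalyticOnNhd ℝ g (Ioi s) := fun w hw => hg w (lt_of_le_of_lt hs hw)
    have hw0 : (max s w1 + 1) ∈ Ioi s := by
      have := le_max_left s w1
      show s < _
      linarith
    have hev : (fun w => lap f w) =ᶠ[𝓝 (max s w1 + 1)] g := by
      have : Ioi (max s w1) ∈ 𝓝 (max s w1 + 1) := Ioi_mem_nhds (by linarith)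
      filter_upwards [this] with w hw
      have hw' : max s w1 < w := hw
      exact heq w (lt_of_le_of_lt (le_max_right _ _) hw')
        (lt_of_le_of_lt hs (lt_of_le_of_lt (le_max_left _ _) hw'))
    have := hA1.eqOn_of_preconnected_of_eventuallyEq hA2 isPreconnected_Ioi hw0 hev
    exact fun w hw => this hw
  have hconv : ∀ w > a, LInt f w := by
    by_contra hcon
    push Not at hcon
    obtain ⟨w0, hw0a, hw0⟩ := hcon
    set S : Set ℝ := {w | LInt f w} with hS
    have hlow : ∀ w ∈ S, w0 < w := by
      intro w hw
      by_contra h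
      exact hw0 (LInt.mono hf hw (not_lt.1 h))
    have hne : S.Nonempty := ⟨w1 + 1, h1 _ (by linarith)⟩
    have hbdd : BddBelow S := ⟨w0, fun w hw => (hlow w hw).le⟩
    set s : ℝ := sInf S with hs
    have hs0 : w0 ≤ s := le_csInf hne fun w hw => (hlow w hw).le
    have hgt : ∀ w > s, LInt f w := by
      intro w hw
      obtain ⟨v, hv, hvw⟩ := exists_lt_of_csInf_lt hne hw
      exact LInt.mono hf hv hvw.le
    have hequ := key s (by linarith) hgt
    have hga : AnalyticAt ℝ (fun t => g (-t)) (-s) := by
      have h2 : AnalyticAt ℝ g (- -s) := by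
        rw [neg_neg]
        exact hg s (by linarith)
      exact h2.comp_of_eq (analyticAt_id.neg) rfl
    obtain ⟨t, ht, ht2⟩ := landau (μ := dens f) (X := id) (s := -s) (dens_pos f hf) hga
      (fun t ht => by
        rw [mem_integrableExpSet_dens hf h0]
        exact hgt _ (by show s < -t; linarith))
      (by
        filter_upwards [self_mem_nhdsWithin] with t ht
        have ht' : t < -s := ht
        rw [mgf_dens hf h0]
        exact hequ _ (by show s < -t; linarith))
    rw [mem_integrableExpSet_dens hf h0] at ht2
    have h3 : s ≤ -t := csInf_le hbdd ht2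
    linarith
  exact ⟨hconv, key a le_rfl hconv⟩

end Pool.Agent.TH988.RB
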