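import Pool.Agent.TH988.RB.Wg

/-! One-sided large values in windows. -/

set_option autoImplicit false

namespace Pool.Agent.TH988.RB

open MeasureTheory Filter Topology Set
open Pool.Agent.W263.BSD

lemma exists_nearest {S : Set ℂ} (hS : IsClosed S) (hne : S.Nonempty) (x : ℂ) :
    ∃ y ∈ S, ∀ z ∈ S, dist x y ≤ dist x z := by
  obtain ⟨y, hy, h⟩ := hS.exists_infDist_eq_dist hne x
  exact ⟨y, hy, fun z hz => h ▸ Metric.infDist_le_dist_of_mem hz⟩

lemma dist_re_le (x y : ℂ) : |x.re - y.re| ≤ dist x y := by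
  rw [Complex.dist_eq, ← Complex.sub_re]
  exact Complex.abs_re_le_norm _

/-- the distance from a positive real number to a zero -/
lemma dist_zero_gt {σ r : ℝ} (_hσ : 0 < σ) {z : ℂ} (hz : z ∈ ZZ) (h1 : r < σ + 1)
    (h2 : r ≤ σ - z.re) : r < dist (σ : ℂ) z := by
  by_cases hi : z.im = 0
  · have h3 := ZZ_real hz hi
    have h4 := dist_re_le (σ : ℂ) z
    rw [Complex.ofReal_re] at h4
    have h5 := le_abs_self (σ - z.re)
    linarith
  · have h3 : |((σ : ℂ) - z).re| < ‖(σ : ℂ) - z‖ := by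
      rw [Complex.abs_re_lt_norm]
      simpa using hi
    rw [Complex.dist_eq]
    have h5 := le_abs_self ((σ : ℂ) - z).re
    simp only [Complex.sub_re, Complex.ofReal_re] at h3 h5
    linarith

/-- strict convexity -/
lemma mid_dist {s0 w y : ℂ} (hy : y ≠ w) (h : dist s0 w ≤ dist s0 y) :
    dist s0 w / 2 < dist ((s0 + w) / 2) y := by
  by_contra hcon
  push Not at hcon
  rw [Complex.dist_eq] at h hcon
  rw [Complex.dist_eq] at h hcon
  have h1 := parallelogram_law_with_norm ℝ (s0 - (s0 + w) / 2) ((s0 + w) / 2 - y)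
  have e1 : s0 - (s0 + w) / 2 + ((s0 + w) / 2 - y) = s0 - y := by ring
  have e2 : s0 - (s0 + w) / 2 - ((s0 + w) / 2 - y) = y - w := by ring
  have e3 : s0 - (s0 + w) / 2 = (1 / 2 : ℂ) * (s0 - w) := by ring
  have e4 : ‖s0 - (s0 + w) / 2‖ = ‖s0 - w‖ / 2 := by
    rw [e3, norm_mul]; norm_num; ring
  rw [e1, e2, e4] at h1
  have h2 : 0 < ‖y - w‖ := norm_pos_iff.2 (sub_ne_zero.2 hy)
  have h3 : 0 ≤ ‖(s0 + w) / 2 - y‖ := norm_nonneg _
  have h4 : 0 ≤ ‖s0 - w‖ := norm_nonneg _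
  nlinarith

/-- the choice of a large abscissa -/
lemma exists_sigma {η : ℝ} (h0 : 0 < η) (h1 : η < 1 / 2) : ∃ σ : ℝ, 2 ≤ σ ∧ qr η * (σ + 1) < σ - 1 := by
  have hq := qr_pos h0 h1
  have hq1 := qr_lt h0 h1
  have h2 : 0 < 1 - qr η := by linarith
  refine ⟨(1 + qr η) / (1 - qr η) + 1, ?_, ?_⟩
  · have : 1 ≤ (1 + qr η) / (1 - qr η) := by
      rw [le_div_iff₀ h2]; linarith
    linarith
  · have h3 : (1 + qr η) / (1 - qr η) * (1 - qr η) = 1 + qr η := div_mul_cancel₀ _ h2.ne'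
    nlinarith

/-- **large positive values of `jt` in every window** -/
theorem win1 {θ : ℝ} (hθ0 : 0 < θ) (hz : ∃ s : ℂ, riemannZeta s = 0 ∧ θ < s.re) {η : ℝ} (h0 : 0 < η)
    (h1 : η < 1 / 4) :
    ∀ᶠ v0 : ℝ in atTop, ∃ v, (1 - 4 * η) * v0 ≤ v ∧ v ≤ (1 + 4 * η) * v0 ∧
      Real.exp (-((1 - θ) * v)) < jt v := by
  obtain ⟨rho, hrho, hrhoθ⟩ := hz
  have hrho1 : rho.re < 1 := by
    by_contra h
    exact riemannZeta_ne_zero_of_one_le_re (not_lt.1 h) hrho
  have hne1 : rho ≠ 1 := by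
    intro h; rw [h] at hrho1; simp at hrho1
  have hwa := ZZ_of_zeta hrho hne1
  set wa : ℂ := rho - 1 with hwad
  have hware : θ - 1 < wa.re := by
    simp only [hwad, Complex.sub_re, Complex.one_re]; linarith
  obtain ⟨σ, hσ2, hσq⟩ := exists_sigma h0 (by linarith)
  have hq := qr_pos h0 (by linarith : η < 1 / 2)
  have hZne : ZZ.Nonempty := ⟨-3, ZZ_triv⟩
  obtain ⟨zs, hzs, hzs2⟩ := exists_nearest ZZ_closed hZne (σ : ℂ)
  obtain ⟨w0, hw0, hw01, hw02⟩ : ∃ w0 ∈ ZZ, wa.re ≤ w0.re ∧ zs.re ≤ w0.re := by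
    rcases le_total zs.re wa.re with h | h
    · exact ⟨wa, hwa, le_rfl, h⟩
    · exact ⟨zs, hzs, h, le_rfl⟩
  have hw0neg := ZZ_re hw0
  set r0 : ℝ := σ - w0.re with hr0
  have hr0pos : 0 < r0 := by rw [hr0]; linarith
  have hr0θ : r0 < σ + (1 - θ) := by rw [hr0]; linarith
  have hr0lt : ∀ z ∈ ZZ, r0 < dist (σ : ℂ) z := by
    intro z hz
    refine lt_of_lt_of_le ?_ (hzs2 z hz)
    exact dist_zero_gt (by linarith) hzs (by linarith) (by rw [hr0]; linarith)
  set s0 : ℂ := ⟨σ, w0.im⟩ with hs0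
  have hd0 : dist s0 w0 = r0 := by
    rw [Complex.dist_eq]
    have e : s0 - w0 = ((r0 : ℝ) : ℂ) := by
      apply Complex.ext <;> simp [hs0, hr0]
    rw [e, Complex.norm_real, Real.norm_of_nonneg hr0pos.le]
  obtain ⟨w1, hw1, hw12⟩ := exists_nearest ZZ_closed hZne s0
  have hw1neg := ZZ_re hw1
  set R : ℝ := dist s0 w1 with hR
  have hRr0 : R ≤ r0 := by rw [← hd0]; exact hw12 w0 hw0
  have hre1 : σ - R ≤ w1.re := by
    have h2 := dist_re_le s0 w1
    have h3 := le_abs_self (s0.re - w1.re)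
    have h4 : s0.re = σ := rfl
    rw [h4] at h2 h3
    linarith
  have hre2 : -1 < w1.re := by linarith
  have hRpos : 0 < R := by linarith
  set s1 : ℂ := (s0 + w1) / 2 with hs1
  set σ' : ℝ := (σ + w1.re) / 2 with hσ'
  have hs1re : s1.re = σ' := by
    rw [hs1, hσ']
    have : (s0 + w1) / 2 = (s0 + w1) / ((2:ℝ) : ℂ) := by push_cast; ring
    rw [this, Complex.div_ofReal_re, Complex.add_re]
  have hσ'pos : 0 < σ' := by rw [hσ']; linarith
  have hnorm : ‖s1 - w1‖ = R / 2 := by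
    have e3 : s1 - w1 = (1 / 2 : ℂ) * (s0 - w1) := by rw [hs1]; ring
    rw [e3, norm_mul, ← Complex.dist_eq]
    norm_num
    ring
  -- the real side
  set M : ℝ := max (R / 2) σ' with hM
  obtain ⟨zn, hzn, hzn2⟩ := exists_nearest ZZ_closed hZne (σ' : ℂ)
  have hMzn : M < dist (σ' : ℂ) zn := by
    refine max_lt ?_ ?_
    · have h2 := hr0lt zn hzn
      have h3 := dist_triangle (σ : ℂ) (σ' : ℂ) zn
      have h4 : dist (σ : ℂ) (σ' : ℂ) ≤ R / 2 := by
        rw [Complex.dist_eq, ← Complex.ofReal_sub, Complex.norm_real, Real.norm_eq_abs, abs_le]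
        constructor <;> rw [hσ'] <;> linarith
      linarith
    · have h2 := ZZ_re hzn
      have h3 := dist_re_le (σ' : ℂ) zn
      rw [Complex.ofReal_re] at h3
      have h4 := le_abs_self (σ' - zn.re)
      linarith
  have hM1 : M < σ' + 1 := by
    refine max_lt ?_ (by linarith)
    rw [hσ']; linarith
  have hMpos : 0 < M := hσ'pos.trans_le (le_max_right _ _)
  set m1 : ℝ := min (dist (σ' : ℂ) zn) (σ' + 1) with hm1
  have hMm1 : M < m1 := lt_min hMzn hM1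
  set R0 : ℝ := (M + m1) / 2 with hR0
  have hMR0 : M < R0 := by rw [hR0]; linarith
  have hR0m1 : R0 < m1 := by rw [hR0]; linarith
  have hR0pos : 0 < R0 := hMpos.trans hMR0
  obtain ⟨C, hC, hCk⟩ := dm_real hσ'pos hR0pos (hR0m1.trans_le (min_le_right _ _))
    (fun z hz => (hR0m1.trans_le (min_le_left _ _)).trans_le (hzn2 z hz))
  obtain ⟨C', hC', hup⟩ := Am_real hσ'pos ((le_max_right _ _).trans_lt hMR0) hC hCk
  -- the complex side
  have hne3 : (-3 : ℂ) ∈ ZZ \ {w1} := by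
    refine ⟨ZZ_triv, fun h => ?_⟩
    have h2 : (-3 : ℂ) = w1 := h
    rw [← h2] at hre2
    norm_num at hre2
  obtain ⟨y, hy, hy2⟩ := exists_nearest (ZZ_diff_closed hw1) ⟨-3, hne3⟩ s1
  have hyd : R / 2 < dist s1 y := mid_dist hy.2 (hw12 y hy.1)
  have hRσ : R / 2 < σ' + 1 := (le_max_left _ _).trans_lt hM1
  set m2 : ℝ := min (dist s1 y) (σ' + 1) with hm2
  have hRm2 : R / 2 < m2 := lt_min hyd hRσ
  set R2 : ℝ := (R / 2 + m2) / 2 with hR2
  have hRR2 : R / 2 < R2 := by rw [hR2]; linarith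
  have hR2m2 : R2 < m2 := by rw [hR2]; linarith
  have hs1pos : 0 < s1.re := by rw [hs1re]; exact hσ'pos
  obtain ⟨c, hc, C2, hC2, hck⟩ := dm_cplx hs1pos hw1 hre2 (by linarith : 0 < R2)
    (by rw [hs1re]; exact hR2m2.trans_le (min_le_right _ _))
    (fun z hz hzw => (hR2m2.trans_le (min_le_left _ _)).trans_le (hy2 z ⟨hz, hzw⟩))
  have hsw : s1 - w1 ≠ 0 := by
    intro h
    rw [h, norm_zero] at hnorm
    linarith
  obtain ⟨c', hc', hlow⟩ := Am_cplx hs1pos hc hsw (by rw [hnorm]; exact hRR2) hC2 hck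
  rw [hnorm] at hlow
  refine window_exists h0 h1 hσ'pos (by linarith : 0 < 1 - θ) (by linarith : 0 < R / 2)
    ((le_max_left _ _).trans_lt hMR0) ?_ ?_ hC' hc' hup hs1re hlow
  · rw [hσ']; linarith
  · have h2 : R * qr η ≤ (σ + 1) * qr η := by
      apply mul_le_mul_of_nonneg_right _ hq.le
      linarith
    rw [hσ']
    linarith

/-- **`jt` is not too small in every window**, if there are no zeros to the right of `1/2` -/
theorem win2 (hfree : ∀ s : ℂ, 1 / 2 < s.re → riemannZeta s ≠ 0) {η : ℝ} (h0 : 0 < η)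
    (h1 : η < 1 / 4) : ∃ κ : ℝ, 1 / 2 < κ ∧ κ < 1 ∧
    ∀ᶠ v0 : ℝ in atTop, ∃ v, (1 - 4 * η) * v0 ≤ v ∧ v ≤ (1 + 4 * η) * v0 ∧
      -Real.exp (-(κ * v)) < jt v := by
  obtain ⟨σ, hσ2, hσq⟩ := exists_sigma h0 (by linarith)
  have hq := qr_pos h0 (by linarith : η < 1 / 2)
  have hZne : ZZ.Nonempty := ⟨-3, ZZ_triv⟩
  obtain ⟨zn, hzn, hzn2⟩ := exists_nearest ZZ_closed hZne (σ : ℂ)
  have hre : zn.re ≤ -1 / 2 := by
    by_contra h
    have h2 := (ZZ_zeta hzn).2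
    refine hfree (1 + zn) ?_ h2
    simp only [Complex.add_re, Complex.one_re]
    linarith [not_le.1 h]
  have hd : σ + 1 / 2 < dist (σ : ℂ) zn := dist_zero_gt (by linarith) hzn (by linarith) (by linarith)
  set M : ℝ := min (dist (σ : ℂ) zn) (σ + 1) with hM
  have hM1 : σ + 1 / 2 < M := lt_min hd (by linarith)
  have hM2 : M ≤ σ + 1 := min_le_right _ _
  set δ : ℝ := M - (σ + 1 / 2) with hδ
  have hδ0 : 0 < δ := by rw [hδ]; linarith
  have hδ1 : δ ≤ 1 / 2 := by rw [hδ]; linarith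
  set R0 : ℝ := σ + 1 / 2 + 2 * δ / 3 with hR0
  have hR0M : R0 < M := by rw [hR0, hδ]; linarith
  have hR0pos : 0 < R0 := by rw [hR0]; positivity
  obtain ⟨C, hC, hCk⟩ := dm_real (by linarith : 0 < σ) hR0pos (by linarith)
    (fun z hz => (hR0M.trans_le (min_le_left _ _)).trans_le (hzn2 z hz))
  obtain ⟨C', hC', hup⟩ := Am_real (by linarith : 0 < σ) (by rw [hR0]; linarith : σ < R0) hC hCk
  refine ⟨1 / 2 + δ / 3, by linarith, by linarith, ?_⟩
  refine window_exists' h0 h1 (by linarith : 0 < σ) (by linarith) (by rw [hR0]; linarith) ?_ hup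
  have h2 : (σ + (1 / 2 + δ / 3)) * qr η ≤ (σ + 1) * qr η := by
    apply mul_le_mul_of_nonneg_right _ hq.le
    linarith
  linarith

end Pool.Agent.TH988.RB
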