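import Pool.Agent.TH988.RB.Jt
import Pool.Agent.H305R2.MertensE

/-! Sums over primes and prime powers. -/

set_option autoImplicit false

namespace Pool.Agent.TH988.RB

open MeasureTheory ProbabilityTheory Filter Topology Finset
open ArithmeticFunction (vonMangoldt)

/-- the primes up to `N` -/
def prs (N : ℕ) : Finset ℕ := (Finset.Icc 1 N).filter Nat.Prime

lemma mem_prs {N p : ℕ} : p ∈ prs N ↔ p.Prime ∧ p ≤ N := by
  unfold prs
  rw [Finset.mem_filter, Finset.mem_Icc]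
  constructor
  · rintro ⟨⟨_, h⟩, h2⟩; exact ⟨h2, h⟩
  · rintro ⟨h, h2⟩; exact ⟨⟨h.one_lt.le, h2⟩, h⟩

/-- sum over prime powers, arranged by primes -/
lemma sum_vm (N : ℕ) (F : ℕ → ℝ) : ∑ n ∈ Finset.Ioc 0 N, vonMangoldt n * F n =
    ∑ p ∈ prs N, ∑ k ∈ Finset.Icc 1 (Nat.log p N), Real.log p * F (p ^ k) := by
  rw [Finset.sum_sigma']
  symm
  refine Finset.sum_bij_ne_zero (fun x _ _ => x.1 ^ x.2) ?_ ?_ ?_ ?_
  · rintro ⟨p, k⟩ hx _
    simp only [Finset.mem_sigma, Finset.mem_Icc, mem_prs] at hx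
    obtain ⟨⟨hp, hpN⟩, hk1, hk2⟩ := hx
    rw [Finset.mem_Ioc]
    refine ⟨pow_pos hp.pos _, ?_⟩
    exact Nat.pow_le_of_le_log (by have := hp.pos; omega) hk2
  · rintro ⟨p, k⟩ hx _ ⟨q, l⟩ hy _ h
    simp only [Finset.mem_sigma, Finset.mem_Icc, mem_prs] at hx hy
    simp only [] at h
    have h1 := hx.1.1.pow_inj' hy.1.1 (by omega) (by omega) h
    rw [Sigma.mk.inj_iff]
    exact ⟨h1.1, heq_of_eq h1.2⟩
  · intro n hn hne
    have hn' := Finset.mem_Ioc.1 hn
    have hpp : IsPrimePow n := by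
      by_contra h
      rw [ArithmeticFunction.vonMangoldt_apply, if_neg h, zero_mul] at hne
      exact hne rfl
    rw [isPrimePow_nat_iff] at hpp
    obtain ⟨p, k, hp, hk, rfl⟩ := hpp
    refine ⟨⟨p, k⟩, ?_, ?_, rfl⟩
    · simp only [Finset.mem_sigma, Finset.mem_Icc, mem_prs]
      refine ⟨⟨hp, ?_⟩, hk, ?_⟩
      · exact (Nat.le_self_pow hk.ne' p).trans hn'.2
      · exact Nat.le_log_of_pow_le hp.one_lt hn'.2
    · simp only []
      rw [ArithmeticFunction.vonMangoldt_apply_pow hk.ne',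
        ArithmeticFunction.vonMangoldt_apply_prime hp] at hne
      exact hne
  · rintro ⟨p, k⟩ hx _
    simp only [Finset.mem_sigma, Finset.mem_Icc, mem_prs] at hx
    simp only []
    rw [ArithmeticFunction.vonMangoldt_apply_pow (by omega),
      ArithmeticFunction.vonMangoldt_apply_prime hx.1.1]

/-- `∑ Λ(n) / (n log n)` over `n ≤ N` -/
noncomputable def AA (N : ℕ) : ℝ := ∑ n ∈ Finset.Ioc 0 N, vonMangoldt n * (1 / (n * Real.log n))

/-- `∑ -log (1 - 1/p)` over `p ≤ N` -/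
noncomputable def PP (N : ℕ) : ℝ := ∑ p ∈ prs N, -Real.log (1 - (p : ℝ)⁻¹)

/-- `∑ p ^ (-(a + 1))` over `p ≤ N`, where `p ^ a ≤ N < p ^ (a + 1)` -/
noncomputable def TT (N : ℕ) : ℝ := ∑ p ∈ prs N, ((p : ℝ)⁻¹) ^ (Nat.log p N + 1)

lemma AA_eq (N : ℕ) : AA N = ∑ p ∈ prs N, ∑ k ∈ Finset.Icc 1 (Nat.log p N), ((p : ℝ)⁻¹) ^ k / k := by
  unfold AA
  rw [sum_vm N (fun n => 1 / (n * Real.log n))]
  refine Finset.sum_congr rfl fun p hp => Finset.sum_congr rfl fun k hk => ?_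
  have hp' := (mem_prs.1 hp).1
  have hk' := (Finset.mem_Icc.1 hk).1
  have h2 : (1:ℝ) < p := by exact_mod_cast hp'.one_lt
  have hlog : 0 < Real.log p := Real.log_pos h2
  have hk0 : (0:ℝ) < k := by exact_mod_cast hk'
  push_cast
  rw [Real.log_pow, inv_pow]
  field_simp

lemma inv_prime {p : ℕ} (hp : p.Prime) : 0 < (p : ℝ)⁻¹ ∧ (p : ℝ)⁻¹ ≤ 1 / 2 := by
  have h2 : (2:ℝ) ≤ p := by exact_mod_cast hp.two_le
  refine ⟨by positivity, ?_⟩
  rw [one_div]
  exact inv_anti₀ (by norm_num) h2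

/-- the tail of the logarithmic series -/
lemma log_tail {x : ℝ} (h0 : 0 < x) (h1 : x ≤ 1 / 2) (a : ℕ) :
    0 ≤ -Real.log (1 - x) - ∑ k ∈ Finset.Icc 1 a, x ^ k / k ∧
    -Real.log (1 - x) - ∑ k ∈ Finset.Icc 1 a, x ^ k / k ≤ 2 * x ^ (a + 1) := by
  have hs := Real.hasSum_pow_div_log_of_abs_lt_one (x := x) (by rw [abs_of_pos h0]; linarith)
  have e1 : ∑ k ∈ Finset.Icc 1 a, x ^ k / k = ∑ i ∈ Finset.range a, x ^ (i + 1) / ((i:ℝ) + 1) := by
    induction a with
    | zero => simp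
    | succ a ih =>
      rw [Finset.sum_Icc_succ_top (by omega), Finset.sum_range_succ, ih]
      push_cast
      ring
  have h2 := hs.summable.sum_add_tsum_nat_add a
  rw [hs.tsum_eq] at h2
  rw [e1, ← h2, add_sub_cancel_left]
  have hsum : Summable fun i : ℕ => x ^ (a + 1) * x ^ i :=
    (summable_geometric_of_lt_one h0.le (by linarith)).mul_left _
  constructor
  · exact tsum_nonneg fun i => by positivity
  · calc ∑' i : ℕ, x ^ (i + a + 1) / (((i + a : ℕ) : ℝ) + 1) ≤ ∑' i : ℕ, x ^ (a + 1) * x ^ i := by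
          refine Summable.tsum_le_tsum (fun i => ?_) ((summable_nat_add_iff a).2 hs.summable) hsum
          rw [← pow_add]
          have h3 : (1:ℝ) ≤ ((i + a : ℕ) : ℝ) + 1 := by
            have : (0:ℝ) ≤ ((i + a : ℕ) : ℝ) := Nat.cast_nonneg _
            linarith
          rw [show i + a + 1 = a + 1 + i by ring]
          exact div_le_self (by positivity) h3
      _ = x ^ (a + 1) * (1 - x)⁻¹ := by
          rw [tsum_mul_left, tsum_geometric_of_lt_one h0.le (by linarith)]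
      _ ≤ x ^ (a + 1) * 2 := by
          gcongr
          rw [inv_le_comm₀ (by linarith) (by norm_num)]
          linarith
      _ = 2 * x ^ (a + 1) := by ring

lemma PP_sub_AA (N : ℕ) : 0 ≤ PP N - AA N ∧ PP N - AA N ≤ 2 * TT N := by
  have e : PP N - AA N = ∑ p ∈ prs N, (-Real.log (1 - (p : ℝ)⁻¹) -
      ∑ k ∈ Finset.Icc 1 (Nat.log p N), ((p : ℝ)⁻¹) ^ k / k) := by
    rw [AA_eq]
    unfold PP
    rw [← Finset.sum_sub_distrib]
  rw [e]
  constructor
  · refine Finset.sum_nonneg fun p hp => ?_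
    obtain ⟨h1, h2⟩ := inv_prime (mem_prs.1 hp).1
    exact (log_tail h1 h2 _).1
  · unfold TT
    rw [Finset.mul_sum]
    refine Finset.sum_le_sum fun p hp => ?_
    obtain ⟨h1, h2⟩ := inv_prime (mem_prs.1 hp).1
    exact (log_tail h1 h2 _).2

lemma TT_nonneg (N : ℕ) : 0 ≤ TT N := Finset.sum_nonneg fun p _ => by positivity

/-! ### Mertens -/

lemma PP_tendsto : Tendsto (fun N : ℕ => PP N - Real.log (Real.log N)) atTop
    (𝓝 Real.eulerMascheroniConstant) := by
  have h := Pool.Agent.H305R2.mertens_three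
  have h1 := (Real.continuousAt_log (Real.exp_pos Real.eulerMascheroniConstant).ne').tendsto.comp h
  rw [Real.log_exp] at h1
  refine h1.congr' ?_
  filter_upwards [eventually_ge_atTop 3] with N hN
  have hN3 : (3 : ℝ) ≤ N := by exact_mod_cast hN
  have hlog : 0 < Real.log N := Real.log_pos (by linarith)
  simp only [Function.comp]
  have hpos : ∀ p ∈ (Finset.Icc 1 N).filter Nat.Prime, (1 - (p : ℝ)⁻¹)⁻¹ ≠ 0 := by
    intro p hp
    obtain ⟨h1, h2⟩ := inv_prime (Finset.mem_filter.1 hp).2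
    have : 0 < 1 - (p : ℝ)⁻¹ := by linarith
    positivity
  rw [Real.log_div (Finset.prod_ne_zero_iff.2 hpos) hlog.ne', Real.log_prod hpos]
  congr 1
  unfold PP prs
  exact Finset.sum_congr rfl fun p _ => by rw [Real.log_inv]

end Pool.Agent.TH988.RB
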