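import Pool.Agent.TH988.RB.Ar

/-! The weighted integral of the error term as a sum over prime powers. -/

set_option autoImplicit false

namespace Pool.Agent.TH988.RB

open MeasureTheory ProbabilityTheory Filter Topology Set
open ArithmeticFunction (vonMangoldt)

lemma exp_image {u T : ℝ} : Real.exp '' Set.Ioc u T = Set.Ioc (Real.exp u) (Real.exp T) := by
  ext t
  constructor
  · rintro ⟨v, hv, rfl⟩
    exact ⟨Real.exp_lt_exp.2 hv.1, Real.exp_le_exp.2 hv.2⟩
  · intro ht
    have ht0 : 0 < t := (Real.exp_pos u).trans ht.1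
    refine ⟨Real.log t, ⟨?_, ?_⟩, Real.exp_log ht0⟩
    · rw [Real.lt_log_iff_exp_lt ht0]; exact ht.1
    · rw [Real.log_le_iff_le_exp ht0]; exact ht.2

lemma hasDerivAt_ff {t : ℝ} (ht : 1 < t) :
    HasDerivAt (fun t : ℝ => 1 / (t * Real.log t)) (-(Real.log t + 1) / (t * Real.log t) ^ 2) t := by
  have ht0 : 0 < t := by linarith
  have hl : 0 < Real.log t := Real.log_pos ht
  have h1 : HasDerivAt (fun t : ℝ => t * Real.log t) (Real.log t + 1) t := by
    have := (hasDerivAt_id t).mul (Real.hasDerivAt_log ht0.ne')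
    refine this.congr_deriv ?_
    simp only [id]
    field_simp
  have h2 := h1.inv (mul_pos ht0 hl).ne'
  refine (h2.congr_deriv rfl).congr_of_eventuallyEq (Eventually.of_forall fun t => ?_)
  simp only [one_div, Pi.inv_apply]

lemma finite_jt {u T : ℝ} (hu : 0 < u) (huT : u ≤ T) :
    AA ⌊Real.exp T⌋₊ - AA ⌊Real.exp u⌋₊ = dl T / T - dl u / u + (∫ v in u..T, qq v) +
      (Real.log T - Real.log u) := by
  have hT : 0 < T := by linarith
  have ha : 0 ≤ Real.exp u := (Real.exp_pos u).le
  have hab : Real.exp u ≤ Real.exp T := Real.exp_le_exp.2 huT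
  have h1u : 1 < Real.exp u := Real.one_lt_exp_iff.2 hu
  have hder : ∀ t ∈ Set.Icc (Real.exp u) (Real.exp T),
      HasDerivAt (fun t : ℝ => 1 / (t * Real.log t)) (-(Real.log t + 1) / (t * Real.log t) ^ 2) t :=
    fun t ht => hasDerivAt_ff (lt_of_lt_of_le h1u ht.1)
  have hcont : ContinuousOn (fun t : ℝ => -(Real.log t + 1) / (t * Real.log t) ^ 2)
      (Set.Icc (Real.exp u) (Real.exp T)) := by
    have hlc : ContinuousOn Real.log (Set.Icc (Real.exp u) (Real.exp T)) :=
      Real.continuousOn_log.mono fun t ht => by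
        have : 0 < t := (Real.exp_pos u).trans_le ht.1
        exact this.ne'
    refine ContinuousOn.div ((hlc.add continuousOn_const).neg) ((continuousOn_id.mul hlc).pow 2)
      fun t ht => ?_
    have h0 : 0 < t := (Real.exp_pos u).trans_le ht.1
    have h2 : 0 < Real.log t := Real.log_pos (lt_of_lt_of_le h1u ht.1)
    have : 0 < t * Real.log t := mul_pos h0 h2
    positivity
  have hint : IntegrableOn (deriv (fun t : ℝ => 1 / (t * Real.log t)))
      (Set.Icc (Real.exp u) (Real.exp T)) := by
    refine (hcont.integrableOn_compact isCompact_Icc).congr_fun (fun t ht => ?_) measurableSet_Icc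
    exact ((hder t ht).deriv).symm
  have h := sum_mul_eq_sub_sub_integral_mul (fun n => vonMangoldt n)
    (f := fun t : ℝ => 1 / (t * Real.log t)) ha hab (fun t ht => (hder t ht).differentiableAt) hint
  have e1 : ∑ k ∈ Finset.Ioc ⌊Real.exp u⌋₊ ⌊Real.exp T⌋₊,
      1 / ((k:ℝ) * Real.log k) * vonMangoldt k = AA ⌊Real.exp T⌋₊ - AA ⌊Real.exp u⌋₊ := by
    unfold AA
    rw [← Finset.sum_Ioc_consecutive _ (Nat.zero_le _) (Nat.floor_mono hab), add_sub_cancel_left]
    exact Finset.sum_congr rfl fun k _ => mul_comm _ _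
  rw [e1] at h
  rw [h, ← Chebyshev.psi_eq_sum_Icc, ← Chebyshev.psi_eq_sum_Icc, Real.log_exp, Real.log_exp]
  have e2 : ∫ t in Set.Ioc (Real.exp u) (Real.exp T),
      deriv (fun t : ℝ => 1 / (t * Real.log t)) t * ∑ k ∈ Finset.Icc 0 ⌊t⌋₊, vonMangoldt k =
      ∫ v in Set.Ioc u T, -(qq v) - (1 + v) / v ^ 2 := by
    rw [← exp_image, integral_image_eq_integral_abs_deriv_smul (f' := Real.exp) measurableSet_Ioc
      (fun x _ => (Real.hasDerivAt_exp x).hasDerivWithinAt) Real.exp_injective.injOn]
    refine setIntegral_congr_fun measurableSet_Ioc fun v hv => ?_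
    have hv0 : 0 < v := hu.trans hv.1
    simp only [smul_eq_mul]
    rw [(hasDerivAt_ff (Real.one_lt_exp_iff.2 hv0)).deriv, abs_of_pos (Real.exp_pos v),
      Real.log_exp, ← Chebyshev.psi_eq_sum_Icc]
    unfold qq dl
    rw [Real.exp_neg]
    have := Real.exp_pos v
    field_simp
    ring
  rw [e2]
  have hqi : IntegrableOn qq (Set.Ioc u T) := (qq_integrable hu).mono_set Set.Ioc_subset_Ioi_self
  have hci : ContinuousOn (fun v : ℝ => (1 + v) / v ^ 2) (Set.Icc u T) := by
    refine ContinuousOn.div (by fun_prop) (by fun_prop) fun v hv => ?_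
    have : 0 < v := hu.trans_le hv.1
    positivity
  have hi2 : IntegrableOn (fun v : ℝ => (1 + v) / v ^ 2) (Set.Ioc u T) :=
    (hci.integrableOn_compact isCompact_Icc).mono_set Set.Ioc_subset_Icc_self
  have hq' : Integrable (fun v => -(qq v)) (volume.restrict (Set.Ioc u T)) := hqi.neg
  rw [integral_sub hq' hi2, integral_neg, ← intervalIntegral.integral_of_le huT,
    ← intervalIntegral.integral_of_le huT]
  have e3 : ∫ v in u..T, (1 + v) / v ^ 2 = (Real.log T - 1 / T) - (Real.log u - 1 / u) := by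
    refine intervalIntegral.integral_eq_sub_of_hasDerivAt (f := fun v : ℝ => Real.log v - 1 / v)
      (fun v hv => ?_) ?_
    · rw [Set.uIcc_of_le huT] at hv
      have hv0 : 0 < v := hu.trans_le hv.1
      have h1 := Real.hasDerivAt_log hv0.ne'
      have h2 : HasDerivAt (fun v : ℝ => 1 / v) (-(1 / v ^ 2)) v := by
        have := hasDerivAt_inv hv0.ne'
        simpa [one_div] using this
      refine (h1.sub h2).congr_deriv ?_
      field_simp
      ring
    · apply ContinuousOn.intervalIntegrable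
      rw [Set.uIcc_of_le huT]
      exact hci
  rw [e3]
  have e4 : ∀ v : ℝ, 0 < v → 1 / (Real.exp v * v) * Chebyshev.psi (Real.exp v) = dl v / v + 1 / v := by
    intro v hv
    unfold dl
    rw [Real.exp_neg]
    have := Real.exp_pos v
    field_simp
    ring
  rw [e4 T hT, e4 u hu]
  ring

end Pool.Agent.TH988.RB
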