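import Pool.Agent.TH988.RB.Ar

/-! The contribution of the prime powers. -/

set_option autoImplicit false

namespace Pool.Agent.TH988.RB

open MeasureTheory ProbabilityTheory Filter Topology Set
open ArithmeticFunction (vonMangoldt)

lemma sum_vm_sq {z N : ℕ} (hz : 1 ≤ z) (hzN : z ≤ N) :
    ∑ k ∈ Finset.Ioc z N, vonMangoldt k / (k:ℝ) ^ 2 ≤ 3 * (Real.log 4 + 4) / z := by
  set c : ℝ := Real.log 4 + 4 with hc
  have hc0 : 0 < c := by
    have : 0 < Real.log 4 := Real.log_pos (by norm_num)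
    linarith
  have hz0 : (0:ℝ) < z := by exact_mod_cast hz
  have hN0 : (0:ℝ) < N := by exact_mod_cast (lt_of_lt_of_le hz hzN)
  have hzN' : (z:ℝ) ≤ N := by exact_mod_cast hzN
  have hder : ∀ t : ℝ, 0 < t → HasDerivAt (fun t : ℝ => 1 / t ^ 2) (-2 / t ^ 3) t := by
    intro t ht
    have h1 : HasDerivAt (fun t : ℝ => t ^ 2) (2 * t) t := by simpa using hasDerivAt_pow 2 t
    have h2 := h1.inv (by positivity)
    refine (h2.congr_deriv ?_).congr_of_eventuallyEq (Eventually.of_forall fun t => ?_)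
    · field_simp
    · simp only [one_div, Pi.inv_apply]
  have hcont : ContinuousOn (fun t : ℝ => -2 / t ^ 3) (Set.Icc (z:ℝ) N) := by
    refine ContinuousOn.div (by fun_prop) (by fun_prop) fun t ht => ?_
    have : 0 < t := hz0.trans_le ht.1
    positivity
  have hint : IntegrableOn (deriv (fun t : ℝ => 1 / t ^ 2)) (Set.Icc (z:ℝ) N) := by
    refine (hcont.integrableOn_compact isCompact_Icc).congr_fun (fun t ht => ?_) measurableSet_Icc
    exact ((hder t (hz0.trans_le ht.1)).deriv).symm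
  have h := sum_mul_eq_sub_sub_integral_mul' (fun n => vonMangoldt n)
    (f := fun t : ℝ => 1 / t ^ 2) hzN (fun t ht => (hder t (hz0.trans_le ht.1)).differentiableAt) hint
  have e1 : ∑ k ∈ Finset.Ioc z N, vonMangoldt k / (k:ℝ) ^ 2 =
      ∑ k ∈ Finset.Ioc z N, 1 / (k:ℝ) ^ 2 * vonMangoldt k :=
    Finset.sum_congr rfl fun k _ => by ring
  rw [e1, h]
  have hψ : ∀ t : ℝ, 0 ≤ t → ∑ k ∈ Finset.Icc 0 ⌊t⌋₊, vonMangoldt k ≤ c * t := by
    intro t ht
    rw [← Chebyshev.psi_eq_sum_Icc]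
    exact Chebyshev.psi_le_const_mul_self ht
  have hψ0 : ∀ t : ℝ, 0 ≤ ∑ k ∈ Finset.Icc 0 ⌊t⌋₊, vonMangoldt k := fun t => by
    rw [← Chebyshev.psi_eq_sum_Icc]
    exact Chebyshev.psi_nonneg t
  have h1 : 1 / (N:ℝ) ^ 2 * ∑ k ∈ Finset.Icc 0 N, vonMangoldt k ≤ c / N := by
    have h2 := hψ N hN0.le
    rw [Nat.floor_natCast] at h2
    calc 1 / (N:ℝ) ^ 2 * ∑ k ∈ Finset.Icc 0 N, vonMangoldt k ≤ 1 / (N:ℝ) ^ 2 * (c * N) := by gcongr
      _ = c / N := by field_simp
  have h2 : 0 ≤ 1 / (z:ℝ) ^ 2 * ∑ k ∈ Finset.Icc 0 z, vonMangoldt k := by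
    have h2 := hψ0 z
    rw [Nat.floor_natCast] at h2
    positivity
  have h3 : -(∫ t in Set.Ioc (z:ℝ) N, deriv (fun t : ℝ => 1 / t ^ 2) t *
      ∑ k ∈ Finset.Icc 0 ⌊t⌋₊, vonMangoldt k) ≤ 2 * c * (1 / z - 1 / N) := by
    rw [← integral_neg]
    have hci : ContinuousOn (fun t : ℝ => 2 * c * (1 / t ^ 2)) (Set.Icc (z:ℝ) N) := by
      refine continuousOn_const.mul (ContinuousOn.div (by fun_prop) (by fun_prop) fun t ht => ?_)
      have : 0 < t := hz0.trans_le ht.1
      positivity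
    have e2' : ∫ t in (z:ℝ)..N, 2 * c * (1 / t ^ 2) = -(2 * c * (1 / (N:ℝ))) - -(2 * c * (1 / (z:ℝ))) := by
      refine intervalIntegral.integral_eq_sub_of_hasDerivAt
        (f := fun t : ℝ => -(2 * c * (1 / t))) (fun t ht => ?_) ?_
      · rw [Set.uIcc_of_le hzN'] at ht
        have ht0 : 0 < t := hz0.trans_le ht.1
        have h2 : HasDerivAt (fun v : ℝ => 1 / v) (-(1 / t ^ 2)) t := by
          have := hasDerivAt_inv ht0.ne'
          simpa [one_div] using this
        refine ((h2.const_mul (2 * c)).neg).congr_deriv ?_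
        ring
      · apply ContinuousOn.intervalIntegrable
        rw [Set.uIcc_of_le hzN']
        exact hci
    have e2 : ∫ t in Set.Ioc (z:ℝ) N, 2 * c * (1 / t ^ 2) = 2 * c * (1 / z - 1 / N) := by
      rw [← intervalIntegral.integral_of_le hzN', e2']
      ring
    rw [← e2]
    have hint2 : IntegrableOn (fun t : ℝ => deriv (fun t : ℝ => 1 / t ^ 2) t *
      ∑ k ∈ Finset.Icc 0 ⌊t⌋₊, vonMangoldt k) (Set.Icc (z:ℝ) N) :=
      integrableOn_mul_sum_Icc _ hz0.le hint
    refine setIntegral_mono_on (hint2.mono_set Set.Ioc_subset_Icc_self).neg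
      ((hci.integrableOn_compact isCompact_Icc).mono_set Set.Ioc_subset_Icc_self)
      measurableSet_Ioc fun t ht => ?_
    have ht0 : 0 < t := hz0.trans ht.1
    rw [(hder t ht0).deriv]
    have h5 := hψ t ht0.le
    calc -(-2 / t ^ 3 * ∑ k ∈ Finset.Icc 0 ⌊t⌋₊, vonMangoldt k) =
          2 / t ^ 3 * ∑ k ∈ Finset.Icc 0 ⌊t⌋₊, vonMangoldt k := by ring
      _ ≤ 2 / t ^ 3 * (c * t) := by gcongr
      _ = 2 * c * (1 / t ^ 2) := by field_simp
  have h4 : c / (N:ℝ) ≤ c / z := by gcongr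
  have h5 : 0 ≤ 2 * c * (1 / (N:ℝ)) := by positivity
  have e5 : 3 * c / (z:ℝ) = c / z + 2 * c * (1 / z) := by ring
  rw [e5]
  nlinarith

lemma sqrt_nat_bound {N : ℕ} (hN : 4 ≤ N) : Real.sqrt N / 2 ≤ (Nat.sqrt N : ℝ) ∧
    Real.sqrt N < (Nat.sqrt N : ℝ) + 1 := by
  have h1 : Real.sqrt N < (Nat.sqrt N : ℝ) + 1 := by
    rw [Real.sqrt_lt' (by positivity)]
    have := Nat.lt_succ_sqrt N
    rw [← sq] at this
    exact_mod_cast this
  have h2 : 2 ≤ Nat.sqrt N := by
    rw [Nat.le_sqrt]; omega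
  have h3 : (2:ℝ) ≤ Nat.sqrt N := by exact_mod_cast h2
  constructor <;> linarith

/-- the contribution of the prime powers is `O (1 / (√N log N))` -/
lemma TT_le : ∃ C : ℝ, 0 < C ∧ ∀ N : ℕ, 4 ≤ N → TT N ≤ C / (Real.sqrt N * Real.log N) := by
  have hl4 : 0 < Real.log 4 := Real.log_pos (by norm_num)
  refine ⟨(4 * Real.log 4 + 4) + 12 * (Real.log 4 + 4), by positivity, fun N hN => ?_⟩
  have hN4 : (4:ℝ) ≤ N := by exact_mod_cast hN
  have hN0 : (0:ℝ) < N := by linarith
  have hlN : 0 < Real.log N := Real.log_pos (by linarith)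
  have hsN : 0 < Real.sqrt N := Real.sqrt_pos.2 hN0
  have hsq : Real.sqrt N * Real.sqrt N = N := Real.mul_self_sqrt hN0.le
  set z : ℕ := Nat.sqrt N with hz
  obtain ⟨hz1, hz2⟩ := sqrt_nat_bound hN
  have hz3 : 2 ≤ z := by rw [hz, Nat.le_sqrt]; omega
  have hzN : z ≤ N := Nat.sqrt_le_self N
  -- splitting
  have hsplit : prs N = prs z ∪ (prs N).filter (fun p => z < p) := by
    ext p
    rw [Finset.mem_union, Finset.mem_filter, mem_prs, mem_prs]
    constructor
    · rintro ⟨h1, h2⟩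
      by_cases h : p ≤ z
      · exact Or.inl ⟨h1, h⟩
      · exact Or.inr ⟨⟨h1, h2⟩, not_le.1 h⟩
    · rintro (⟨h1, h2⟩ | ⟨h1, _⟩)
      · exact ⟨h1, h2.trans hzN⟩
      · exact h1
  have hdis : Disjoint (prs z) ((prs N).filter (fun p => z < p)) := by
    rw [Finset.disjoint_left]
    intro p h1 h2
    rw [Finset.mem_filter] at h2
    have := (mem_prs.1 h1).2
    omega
  unfold TT
  rw [hsplit, Finset.sum_union hdis]
  -- small primes
  have hcard : ((prs z).card : ℝ) ≤ (4 * Real.log 4 + 4) * (Real.sqrt N / Real.log N) := by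
    have h1 : 1 < Real.sqrt N := by
      rw [Real.lt_sqrt zero_le_one]; linarith
    have h2 := Chebyshev.pi_le_log4_mul_div h1
    rw [Real.nat_floor_real_sqrt_eq_nat_sqrt, ← hz] at h2
    have h3 : Nat.primeCounting z = (prs z).card := by
      rw [Nat.primeCounting, Nat.primeCounting', Nat.count_eq_card_filter_range]
      congr 1
      ext p
      rw [Finset.mem_filter, Finset.mem_range, mem_prs]
      constructor
      · rintro ⟨h1, h2⟩; exact ⟨h2, by omega⟩
      · rintro ⟨h1, h2⟩; exact ⟨by omega, h1⟩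
    rw [h3] at h2
    refine h2.trans ?_
    have h4 : Real.log (Real.sqrt (Real.sqrt N)) = Real.log N / 4 := by
      rw [Real.log_sqrt (Real.sqrt_nonneg _), Real.log_sqrt hN0.le]
      ring
    have hss : 0 < Real.sqrt (Real.sqrt N) := Real.sqrt_pos.2 hsN
    have h5 : Real.log N ≤ 4 * Real.sqrt (Real.sqrt N) := by
      have h6 := Real.log_le_sub_one_of_pos hss
      rw [h4] at h6
      linarith
    have h6 : Real.sqrt (Real.sqrt N) ≤ 4 * (Real.sqrt N / Real.log N) := by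
      rw [← mul_div_assoc, le_div_iff₀ hlN]
      have h7 : Real.sqrt (Real.sqrt N) * Real.sqrt (Real.sqrt N) = Real.sqrt N :=
        Real.mul_self_sqrt hsN.le
      nlinarith
    rw [h4]
    have e : Real.log 4 * Real.sqrt N / (Real.log N / 4) =
        4 * Real.log 4 * (Real.sqrt N / Real.log N) := by
      field_simp
    rw [e]
    nlinarith
  have hA : ∑ p ∈ prs z, ((p : ℝ)⁻¹) ^ (Nat.log p N + 1) ≤
      (4 * Real.log 4 + 4) / (Real.sqrt N * Real.log N) := by
    have h1 : ∀ p ∈ prs z, ((p : ℝ)⁻¹) ^ (Nat.log p N + 1) ≤ (N:ℝ)⁻¹ := by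
      intro p hp
      have hp' := (mem_prs.1 hp).1
      have h2 := Nat.lt_pow_succ_log_self hp'.one_lt N
      rw [inv_pow]
      apply inv_anti₀ hN0
      exact_mod_cast h2.le
    have h2 := Finset.sum_le_card_nsmul _ _ _ h1
    rw [nsmul_eq_mul] at h2
    refine h2.trans ?_
    calc ((prs z).card : ℝ) * (N:ℝ)⁻¹ ≤ (4 * Real.log 4 + 4) * (Real.sqrt N / Real.log N) * (N:ℝ)⁻¹ := by
          gcongr
      _ = (4 * Real.log 4 + 4) / (Real.sqrt N * Real.log N) := by
          have h3 : Real.sqrt N / Real.log N * (N:ℝ)⁻¹ = 1 / (Real.sqrt N * Real.log N) := by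
            field_simp
            exact Real.sq_sqrt hN0.le
          rw [mul_assoc, h3]
          ring
  -- large primes
  have hB : ∑ p ∈ (prs N).filter (fun p => z < p), ((p : ℝ)⁻¹) ^ (Nat.log p N + 1) ≤
      12 * (Real.log 4 + 4) / (Real.sqrt N * Real.log N) := by
    have h1 : ∀ p ∈ (prs N).filter (fun p => z < p), ((p : ℝ)⁻¹) ^ (Nat.log p N + 1) ≤
        2 / Real.log N * (vonMangoldt p / (p:ℝ) ^ 2) := by
      intro p hp
      rw [Finset.mem_filter, mem_prs] at hp
      obtain ⟨⟨hp1, hp2⟩, hp3⟩ := hp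
      have hp0 : (0:ℝ) < p := by exact_mod_cast hp1.pos
      have h2 : Nat.log p N = 1 := by
        rw [Nat.log_eq_one_iff]
        refine ⟨?_, hp1.one_lt, hp2⟩
        have : N < (z + 1) * (z + 1) := Nat.lt_succ_sqrt N
        have h3 : (z + 1) * (z + 1) ≤ p * p := Nat.mul_le_mul hp3 hp3
        omega
      rw [h2, ArithmeticFunction.vonMangoldt_apply_prime hp1]
      have h3 : Real.log N / 2 ≤ Real.log p := by
        rw [← Real.log_sqrt hN0.le]
        apply Real.log_le_log hsN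
        have : (z:ℝ) + 1 ≤ p := by exact_mod_cast hp3
        linarith
      have h4 : 1 ≤ 2 / Real.log N * Real.log p := by
        rw [div_mul_eq_mul_div, le_div_iff₀ hlN]
        linarith
      calc ((p:ℝ)⁻¹) ^ (1 + 1) = 1 * (1 / (p:ℝ) ^ 2) := by
            rw [inv_pow, one_mul, one_div]
        _ ≤ (2 / Real.log N * Real.log p) * (1 / (p:ℝ) ^ 2) := by gcongr
        _ = _ := by ring
    refine (Finset.sum_le_sum h1).trans ?_
    rw [← Finset.mul_sum]
    have h2 : ∑ p ∈ (prs N).filter (fun p => z < p), vonMangoldt p / (p:ℝ) ^ 2 ≤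
        ∑ k ∈ Finset.Ioc z N, vonMangoldt k / (k:ℝ) ^ 2 := by
      apply Finset.sum_le_sum_of_subset_of_nonneg
      · intro p hp
        rw [Finset.mem_filter, mem_prs] at hp
        rw [Finset.mem_Ioc]
        exact ⟨hp.2, hp.1.2⟩
      · intro k _ _
        have := ArithmeticFunction.vonMangoldt_nonneg (n := k)
        positivity
    have h3 := sum_vm_sq (z := z) (N := N) (by omega) hzN
    have hz0 : (0:ℝ) < z := by linarith
    have h4 : 3 * (Real.log 4 + 4) / (z:ℝ) ≤ 6 * (Real.log 4 + 4) / Real.sqrt N := by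
      rw [div_le_div_iff₀ hz0 hsN]
      nlinarith
    calc 2 / Real.log N * ∑ p ∈ (prs N).filter (fun p => z < p), vonMangoldt p / (p:ℝ) ^ 2
        ≤ 2 / Real.log N * (6 * (Real.log 4 + 4) / Real.sqrt N) := by
          gcongr
          linarith
      _ = 12 * (Real.log 4 + 4) / (Real.sqrt N * Real.log N) := by
          field_simp
          ring
  rw [add_div]
  exact add_le_add hA hB

end Pool.Agent.TH988.RB
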