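import Pool.Agent.TH988.RB.Ar2
import Pool.Agent.TH988.RB.TT

/-! The weighted integral of the error term as a sum over prime powers, part 2. -/

set_option autoImplicit false

namespace Pool.Agent.TH988.RB

open MeasureTheory ProbabilityTheory Filter Topology Set
open ArithmeticFunction (vonMangoldt)

lemma TT_tendsto : Tendsto (fun N : ℕ => TT N) atTop (𝓝 0) := by
  obtain ⟨C, hC, h⟩ := TT_le
  have h1 : Tendsto (fun N : ℕ => C / (Real.sqrt N * Real.log N)) atTop (𝓝 0) := by
    apply Tendsto.const_div_atTop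
    have h2 : Tendsto (fun N : ℕ => Real.sqrt (N:ℝ)) atTop atTop :=
      Real.tendsto_sqrt_atTop.comp tendsto_natCast_atTop_atTop
    have h3 : Tendsto (fun N : ℕ => Real.log (N:ℝ)) atTop atTop :=
      Real.tendsto_log_atTop.comp tendsto_natCast_atTop_atTop
    exact h2.atTop_mul_atTop₀ h3
  refine squeeze_zero' (Eventually.of_forall TT_nonneg) ?_ h1
  filter_upwards [eventually_ge_atTop 4] with N hN
  exact h N hN

lemma AA_tendsto : Tendsto (fun N : ℕ => AA N - Real.log (Real.log N)) atTop
    (𝓝 Real.eulerMascheroniConstant) := by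
  have h1 : Tendsto (fun N : ℕ => PP N - AA N) atTop (𝓝 0) := by
    have h2 : Tendsto (fun N : ℕ => 2 * TT N) atTop (𝓝 0) := by
      simpa using TT_tendsto.const_mul 2
    exact squeeze_zero (fun N => (PP_sub_AA N).1) (fun N => (PP_sub_AA N).2) h2
  have h2 := PP_tendsto.sub h1
  rw [sub_zero] at h2
  refine h2.congr fun N => ?_
  ring

/-- **the weighted integral of the error term as a sum over prime powers** -/
theorem jt_eq {u : ℝ} (hu : 0 < u) : jt u = AA ⌊Real.exp u⌋₊ - Real.log u -
    Real.eulerMascheroniConstant - dl u / u := by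
  have hlogN : Tendsto (fun N : ℕ => Real.log (N:ℝ)) atTop atTop :=
    Real.tendsto_log_atTop.comp tendsto_natCast_atTop_atTop
  have h1 : Tendsto (fun N : ℕ => ∫ v in u..Real.log N, qq v) atTop (𝓝 (-jt u)) := by
    unfold jt
    rw [neg_neg]
    exact intervalIntegral_tendsto_integral_Ioi u (qq_integrable hu) hlogN
  have h2 : Tendsto (fun N : ℕ => dl (Real.log N) / Real.log N) atTop (𝓝 0) := by
    have h3 : Tendsto (fun N : ℕ => (Real.log 4 + 5) / Real.log (N:ℝ)) atTop (𝓝 0) :=
      Tendsto.const_div_atTop hlogN _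
    refine squeeze_zero_norm' ?_ h3
    filter_upwards [hlogN.eventually_gt_atTop 0] with N hN
    rw [norm_div, Real.norm_eq_abs, Real.norm_of_nonneg hN.le]
    exact div_le_div_of_nonneg_right (dl_bound _) hN.le
  have h3 : Tendsto (fun N : ℕ => (AA N - Real.log (Real.log N)) - dl (Real.log N) / Real.log N -
      ∫ v in u..Real.log N, qq v) atTop (𝓝 (Real.eulerMascheroniConstant - 0 - -jt u)) :=
    (AA_tendsto.sub h2).sub h1
  have h4 : Tendsto (fun N : ℕ => (AA N - Real.log (Real.log N)) - dl (Real.log N) / Real.log N -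
      ∫ v in u..Real.log N, qq v) atTop (𝓝 (AA ⌊Real.exp u⌋₊ - Real.log u - dl u / u)) := by
    refine tendsto_const_nhds.congr' ?_
    filter_upwards [hlogN.eventually_ge_atTop u, eventually_ge_atTop 1] with N hN hN1
    have h5 := finite_jt hu hN
    rw [Real.exp_log (by exact_mod_cast hN1), Nat.floor_natCast] at h5
    linarith
  have h5 := tendsto_nhds_unique h3 h4
  linarith

lemma rpow_exp (t v : ℝ) : (Real.exp v) ^ t = Real.exp (t * v) := by
  rw [← Real.exp_mul]
  congr 1
  ring

/-- a power saving for the error term gives one for `jt` -/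
theorem jt_free {t C : ℝ} (ht : t < 1) (hC : 0 < C)
    (h : ∀ y : ℝ, 1 ≤ y → |Chebyshev.psi y - y| ≤ C * y ^ t) :
    ∃ C' : ℝ, 0 < C' ∧ ∀ u : ℝ, 1 ≤ u → |jt u| ≤ C' * Real.exp (-((1 - t) * u)) := by
  have ht' : 0 < 1 - t := by linarith
  refine ⟨2 * C / (1 - t), by positivity, fun u hu => ?_⟩
  have hu0 : 0 < u := by linarith
  have hb : ∀ v : ℝ, 1 ≤ v → |qq v| ≤ 2 * C * Real.exp (-((1 - t) * v)) := by
    intro v hv
    have hv0 : 0 < v := by linarith
    have h1 := h (Real.exp v) (Real.one_le_exp hv0.le)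
    have h2 : |dl v| ≤ C * Real.exp (-((1 - t) * v)) := by
      have h3 : dl v = (Chebyshev.psi (Real.exp v) - Real.exp v) * Real.exp (-v) := by
        unfold dl
        have h3 : Real.exp v * Real.exp (-v) = 1 := by rw [← Real.exp_add]; simp
        linear_combination h3
      rw [h3, abs_mul, abs_of_pos (Real.exp_pos _)]
      rw [rpow_exp] at h1
      calc |Chebyshev.psi (Real.exp v) - Real.exp v| * Real.exp (-v)
          ≤ (C * Real.exp (t * v)) * Real.exp (-v) := by gcongr
        _ = C * Real.exp (-((1 - t) * v)) := by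
          rw [mul_assoc, ← Real.exp_add]; congr 2; ring
    unfold qq
    rw [abs_mul, abs_of_pos (show 0 < (1 + v) / v ^ 2 by positivity)]
    have h4 : (1 + v) / v ^ 2 ≤ 2 := by
      rw [div_le_iff₀ (by positivity)]
      nlinarith
    calc |dl v| * ((1 + v) / v ^ 2) ≤ (C * Real.exp (-((1 - t) * v))) * 2 := by gcongr
      _ = 2 * C * Real.exp (-((1 - t) * v)) := by ring
  have hexp : IntegrableOn (fun z : ℝ => 2 * C * Real.exp (-((1 - t) * z))) (Ioi u) := by
    have := integrableOn_exp_mul_Ioi (a := -(1 - t)) (by linarith) u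
    refine (this.const_mul (2 * C)).congr (Eventually.of_forall fun u => ?_)
    simp only [neg_mul]
  unfold jt
  rw [abs_neg]
  calc |∫ v in Ioi u, qq v| ≤ ∫ v in Ioi u, |qq v| := abs_integral_le_integral_abs
    _ ≤ ∫ v in Ioi u, 2 * C * Real.exp (-((1 - t) * v)) := by
        refine setIntegral_mono_on (qq_integrable hu0).abs hexp measurableSet_Ioi fun v hv => ?_
        have hv' : u < v := hv
        exact hb v (by linarith)
    _ = 2 * C / (1 - t) * Real.exp (-((1 - t) * u)) := by
        rw [integral_const_mul]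
        have h3 := integral_exp_mul_Ioi (a := -(1 - t)) (by linarith) u
        have e : (fun z : ℝ => Real.exp (-((1 - t) * z))) = fun x : ℝ => Real.exp (-(1 - t) * x) := by
          funext z; rw [neg_mul]
        rw [e, h3, neg_div_neg_eq, neg_mul]
        ring

end Pool.Agent.TH988.RB
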