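import Pool.Agent.TH988.RB.Up5

/-! Many exceptions to Nicolas' inequality. -/

set_option autoImplicit false

namespace Pool.Agent.TH988.RB

open Filter Topology Finset

/-- the excess of the primorial -/
noncomputable def Bt (v : ℝ) : ℝ := PP ⌊Real.exp v⌋₊ - Real.eulerMascheroniConstant - Real.log v -
  (Chebyshev.theta (Real.exp v) - Real.exp v) / (Real.exp v * v)

lemma Bt_ge {v : ℝ} (hv : 0 < v) :
    jt v + (Chebyshev.psi (Real.exp v) - Chebyshev.theta (Real.exp v)) / (Real.exp v * v) ≤ Bt v := by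
  rw [jt_eq hv]
  have h1 := (PP_sub_AA ⌊Real.exp v⌋₊).1
  have h2 : dl v / v = (Chebyshev.psi (Real.exp v) - Real.exp v) / (Real.exp v * v) := by
    unfold dl
    rw [Real.exp_neg]
    have := Real.exp_pos v
    field_simp
  rw [h2]
  unfold Bt
  rw [sub_div, sub_div, sub_div]
  linarith

/-- concavity of `log log` -/
lemma loglog_le {L y : ℝ} (hL : 1 < L) (hy : 1 < y) :
    Real.log (Real.log L) ≤ Real.log (Real.log y) + (L - y) / (y * Real.log y) := by
  have hL0 : 0 < L := by linarith
  have hy0 : 0 < y := by linarith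
  have hlL : 0 < Real.log L := Real.log_pos hL
  have hly : 0 < Real.log y := Real.log_pos hy
  have h1 : Real.log L - Real.log y ≤ (L - y) / y := by
    rw [← Real.log_div hL0.ne' hy0.ne']
    have := Real.log_le_sub_one_of_pos (show 0 < L / y by positivity)
    have e : L / y - 1 = (L - y) / y := by field_simp
    linarith
  have h2 : Real.log (Real.log L) - Real.log (Real.log y) ≤ (Real.log L - Real.log y) / Real.log y := by
    rw [← Real.log_div hlL.ne' hly.ne']
    have := Real.log_le_sub_one_of_pos (show 0 < Real.log L / Real.log y by positivity)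
    have e : Real.log L / Real.log y - 1 = (Real.log L - Real.log y) / Real.log y := by field_simp
    linarith
  have h3 : (Real.log L - Real.log y) / Real.log y ≤ ((L - y) / y) / Real.log y := by gcongr
  rw [div_div] at h3
  linarith

/-- the loss of one prime -/
lemma loss_le {y U : ℝ} (hy : 8 ≤ y) (hU1 : 1 ≤ U) (hU2 : U ≤ y / 2) {p : ℕ} (hp : p.Prime)
    (h1 : y - U < p) (_h2 : (p:ℝ) ≤ y) :
    gp p - Real.log p / (y * Real.log y) ≤ 10 * U / y ^ 2 := by
  have hy0 : 0 < y := by linarith
  have hly : 1 ≤ Real.log y := by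
    rw [Real.le_log_iff_exp_le hy0]
    have := Real.exp_one_lt_d9
    linarith
  have hly0 : 0 < Real.log y := by linarith
  have hyU : 0 < y - U := by linarith
  have ha : gp p ≤ 1 / y + 8 * U / y ^ 2 := by
    refine (gp_hi hp).trans ?_
    have h3 : y / 4 ≤ y - U - 1 := by linarith
    have h4 : 1 / ((p:ℝ) - 1) ≤ 1 / (y - U - 1) := by
      apply one_div_le_one_div_of_le (by linarith)
      linarith
    refine h4.trans ?_
    have h5 : 0 < y - U - 1 := by linarith
    have e : 1 / y + 8 * U / y ^ 2 = (y + 8 * U) / y ^ 2 := by field_simp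
    rw [e, div_le_div_iff₀ h5 (by positivity)]
    nlinarith
  have hb : 1 / y - Real.log p / (y * Real.log y) ≤ 2 * U / y ^ 2 := by
    have h3 : Real.log (y - U) ≤ Real.log p := Real.log_le_log hyU h1.le
    have h4 : Real.log y - Real.log (y - U) ≤ U / (y - U) := by
      rw [← Real.log_div hy0.ne' hyU.ne']
      have := Real.log_le_sub_one_of_pos (show 0 < y / (y - U) by positivity)
      have e : y / (y - U) - 1 = U / (y - U) := by field_simp; ring
      linarith
    have h5 : U / (y - U) ≤ 2 * U / y := by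
      rw [div_le_div_iff₀ hyU hy0]
      nlinarith
    have e : 1 / y - Real.log p / (y * Real.log y) = (Real.log y - Real.log p) / (y * Real.log y) := by
      field_simp
    rw [e, div_le_div_iff₀ (by positivity) (by positivity)]
    have h6 : Real.log y - Real.log p ≤ 2 * U / y := by linarith
    calc (Real.log y - Real.log p) * y ^ 2 ≤ (2 * U / y) * y ^ 2 := by gcongr
      _ = 2 * U * (y * 1) := by field_simp
      _ ≤ 2 * U * (y * Real.log y) := by gcongr
  have e : 10 * U / y ^ 2 = 8 * U / y ^ 2 + 2 * U / y ^ 2 := by ring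
  rw [e]
  linarith

lemma cnt_set_finite (x : ℝ) : {n : ℕ | IsExc n ∧ (n : ℝ) ≤ x}.Finite := by
  refine (Set.finite_Iic ⌊x⌋₊).subset ?_
  rintro n ⟨_, hn⟩
  exact Nat.le_floor hn

lemma cnt_mono {x y : ℝ} (h : x ≤ y) : cnt x ≤ cnt y :=
  Set.ncard_le_ncard (fun _ hn => ⟨hn.1, hn.2.trans h⟩) (cnt_set_finite y)

/-- **the construction** -/
theorem down_gen {v U : ℝ} (hy : 8 ≤ Real.exp v) (hU1 : 1 ≤ U) (hU2 : U ≤ Real.exp v / 2)
    {Q : Finset ℕ} (hQ : ∀ p ∈ Q, p.Prime ∧ Real.exp v - U < p ∧ (p:ℝ) ≤ Real.exp v)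
    (hloss : (Q.card : ℝ) * (10 * U / Real.exp v ^ 2) ≤ Bt v) :
    2 ^ Q.card ≤ cnt (Real.exp (2 * Real.exp v)) := by
  classical
  set y : ℝ := Real.exp v with hyd
  have hy0 : 0 < y := by linarith
  have hv : v = Real.log y := by rw [hyd, Real.log_exp]
  have hv0 : 0 < v := by
    rw [hv]; exact Real.log_pos (by linarith)
  set N : ℕ := ⌊y⌋₊ with hN
  have hQN : Q ⊆ prs N := by
    intro p hp
    obtain ⟨h1, _, h3⟩ := hQ p hp
    exact mem_prs.2 ⟨h1, Nat.le_floor h3⟩
  set nS : Finset ℕ → ℕ := fun S => ∏ p ∈ prs N \ S, p with hnS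
  have hpr : ∀ S : Finset ℕ, ∀ p ∈ prs N \ S, p.Prime := fun S p hp =>
    (mem_prs.1 (mem_sdiff.1 hp).1).1
  have hpf : ∀ S : Finset ℕ, (nS S).primeFactors = prs N \ S := fun S =>
    Nat.primeFactors_prod (hpr S)
  have hpos : ∀ S : Finset ℕ, 0 < nS S := fun S => prod_pos fun p hp => (hpr S p hp).pos
  have hθ : Chebyshev.theta y = ∑ p ∈ prs N, Real.log p := by
    rw [Chebyshev.theta_eq_theta_coe_floor, theta_prs]
  -- the logarithm
  have hlog : ∀ S ⊆ Q, Real.log (nS S) = Chebyshev.theta y - ∑ p ∈ S, Real.log p := by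
    intro S hS
    rw [hθ, ← sum_sdiff (hS.trans hQN), add_sub_cancel_right]
    simp only [hnS]
    rw [Nat.cast_prod, Real.log_prod]
    intro p hp
    exact_mod_cast (hpr S p hp).ne_zero
  have hphi : ∀ S ⊆ Q, Real.log ((nS S : ℝ) / Nat.totient (nS S)) = PP N - ∑ p ∈ S, gp p := by
    intro S hS
    rw [log_div_totient (hpos S), hpf S]
    unfold PP
    rw [← sum_sdiff (hS.trans hQN)]
    unfold gp
    ring
  have h3 : ∀ S ⊆ Q, 3 ≤ nS S := by
    intro S hS
    apply Nat.le_of_dvd (hpos S)
    apply dvd_prod_of_mem (fun p => p)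
    rw [Finset.mem_sdiff, mem_prs]
    refine ⟨⟨Nat.prime_three, Nat.le_floor (by norm_num; linarith)⟩, fun h => ?_⟩
    have := (hQ 3 (hS h)).2.1
    norm_num at this
    linarith
  have hexc : ∀ S ⊆ Q, IsExc (nS S) := by
    intro S hS
    refine ⟨h3 S hS, ?_⟩
    have hn3 : (3:ℝ) ≤ nS S := by exact_mod_cast h3 S hS
    have hn0 : (0:ℝ) < nS S := by linarith
    have hφ : (0:ℝ) < Nat.totient (nS S) := by exact_mod_cast Nat.totient_pos.2 (hpos S)
    have hL1 : 1 < Real.log (nS S) := by
      rw [Real.lt_log_iff_exp_lt hn0]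
      have := Real.exp_one_lt_d9
      linarith
    have hLL : 0 < Real.log (Real.log (nS S)) := Real.log_pos hL1
    have h4 := loglog_le hL1 (show 1 < y by linarith)
    rw [← hv] at h4
    have h5 : ∑ p ∈ S, (gp p - Real.log p / (y * v)) ≤ Bt v := by
      calc ∑ p ∈ S, (gp p - Real.log p / (y * v)) ≤ ∑ p ∈ S, 10 * U / y ^ 2 := by
            refine sum_le_sum fun p hp => ?_
            obtain ⟨q1, q2, q3⟩ := hQ p (hS hp)
            rw [hv]
            exact loss_le hy hU1 hU2 q1 q2 q3
        _ = S.card * (10 * U / y ^ 2) := by rw [sum_const, nsmul_eq_mul]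
        _ ≤ Q.card * (10 * U / y ^ 2) := by
            gcongr
        _ ≤ Bt v := hloss
    rw [sum_sub_distrib, ← sum_div] at h5
    have h6 : Real.eulerMascheroniConstant + Real.log (Real.log (Real.log (nS S))) ≤
        Real.log ((nS S : ℝ) / Nat.totient (nS S)) := by
      rw [hphi S hS]
      rw [hlog S hS] at h4 ⊢
      unfold Bt at h5
      have e : (Chebyshev.theta y - ∑ p ∈ S, Real.log p - y) / (y * v) =
          (Chebyshev.theta y - y) / (y * v) - (∑ p ∈ S, Real.log p) / (y * v) := by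
        rw [← sub_div]; congr 1; ring
      rw [e] at h4
      have e2 : Real.log (Real.log (Chebyshev.theta y - ∑ p ∈ S, Real.log p)) =
        Real.log (Real.log (Chebyshev.theta y - ∑ p ∈ S, Real.log p)) := rfl
      linarith
    rw [← Real.log_exp Real.eulerMascheroniConstant, ← Real.log_mul (Real.exp_pos _).ne' hLL.ne'] at h6
    have h7 := (Real.log_le_log_iff (by positivity) (by positivity)).1 h6
    rwa [le_div_iff₀ hφ] at h7
  have hle : ∀ S ⊆ Q, ((nS S : ℕ) : ℝ) ≤ Real.exp (2 * y) := by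
    intro S hS
    have hn0 : (0:ℝ) < nS S := by exact_mod_cast hpos S
    rw [← Real.log_le_iff_le_exp hn0, hlog S hS]
    have h4 := Chebyshev.theta_le_log4_mul_x hy0.le
    have h5 : 0 ≤ ∑ p ∈ S, Real.log (p:ℝ) := sum_nonneg fun p hp =>
      Real.log_natCast_nonneg p
    have h6 : Real.log 4 ≤ 2 := by
      have : Real.log 4 = 2 * Real.log 2 := by
        rw [show (4:ℝ) = 2 ^ 2 by norm_num, Real.log_pow]; push_cast; ring
      rw [this]
      have := Real.log_two_lt_d9
      linarith
    nlinarith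
  -- counting
  have hinj : Set.InjOn nS (Q.powerset : Set (Finset ℕ)) := by
    intro S hS S' hS' h
    rw [mem_coe, mem_powerset] at hS hS'
    have h4 := congrArg Nat.primeFactors h
    rw [hpf, hpf] at h4
    have h5 : prs N \ (prs N \ S) = prs N \ (prs N \ S') := by rw [h4]
    rwa [Finset.sdiff_sdiff_eq_self (hS.trans hQN), Finset.sdiff_sdiff_eq_self (hS'.trans hQN)] at h5
  have hcard : (Q.powerset.image nS).card = 2 ^ Q.card := by
    rw [card_image_of_injOn hinj, card_powerset]
  rw [← hcard, ← Set.ncard_coe_finset]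
  refine Set.ncard_le_ncard ?_ (cnt_set_finite _)
  intro n hn
  rw [mem_coe, mem_image] at hn
  obtain ⟨S, hS, rfl⟩ := hn
  exact ⟨hexc S (mem_powerset.1 hS), hle S (mem_powerset.1 hS)⟩

end Pool.Agent.TH988.RB
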