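import Pool.Agent.TH988.RB.Dn1

/-! Many exceptions to Nicolas' inequality, part 2. -/

set_option autoImplicit false

namespace Pool.Agent.TH988.RB

open Filter Topology Finset

/-- the primes in `(y - U, y]` -/
noncomputable def QQ (y U : ℝ) : Finset ℕ := by
  classical
  exact (prs ⌊y⌋₊).filter (fun p => y - U < (p:ℝ))

lemma mem_QQ {y U : ℝ} (hy : 0 ≤ y) {p : ℕ} : p ∈ QQ y U ↔ p.Prime ∧ y - U < p ∧ (p:ℝ) ≤ y := by
  classical
  unfold QQ
  rw [mem_filter, mem_prs, Nat.le_floor_iff hy]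
  tauto

lemma card_QQ {y U : ℝ} (hy : 1 ≤ y) (hU0 : 0 ≤ U) (hU : U ≤ y) :
    Chebyshev.theta y - Chebyshev.theta (y - U) ≤ (QQ y U).card * Real.log y := by
  classical
  have h1 : Chebyshev.theta y = ∑ p ∈ prs ⌊y⌋₊, Real.log p := by
    rw [Chebyshev.theta_eq_theta_coe_floor, theta_prs]
  have h2 : Chebyshev.theta (y - U) = ∑ p ∈ prs ⌊y - U⌋₊, Real.log p := by
    rw [Chebyshev.theta_eq_theta_coe_floor, theta_prs]
  have h3 : (prs ⌊y⌋₊).filter (fun p : ℕ => ¬ y - U < (p:ℝ)) = prs ⌊y - U⌋₊ := by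
    ext p
    rw [mem_filter, mem_prs, mem_prs, Nat.le_floor_iff (by linarith), Nat.le_floor_iff (by linarith),
      not_lt]
    constructor
    · rintro ⟨⟨h, _⟩, h'⟩; exact ⟨h, h'⟩
    · rintro ⟨h, h'⟩; exact ⟨⟨h, by linarith⟩, h'⟩
  rw [h1, h2, ← sum_filter_add_sum_filter_not (prs ⌊y⌋₊) (fun p : ℕ => y - U < (p:ℝ)), h3,
    add_sub_cancel_right, ← nsmul_eq_mul]
  refine sum_le_card_nsmul _ _ _ fun p hp => ?_
  have h4 := mem_prs.1 (mem_filter.1 hp).1
  have h5 : (p:ℝ) ≤ y := (Nat.le_floor_iff (by linarith)).1 h4.2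
  have h6 : (0:ℝ) < p := by exact_mod_cast h4.1.pos
  exact Real.log_le_log h6 h5

/-- the construction for large `y` -/
theorem down_ev {b κ' κ'' : ℝ} (hκ : κ' < κ'') (hκ'' : 0 < κ'') {U : ℝ → ℝ}
    (hU : ∀ᶠ y : ℝ in atTop, 1 ≤ U y ∧ U y ≤ y / 2 ∧
      U y / 4 ≤ Chebyshev.theta y - Chebyshev.theta (y - U y) ∧
      y ^ κ'' * (4 * Real.log y) ≤ U y ∧ y ^ κ'' * (10 * U y / y ^ 2) ≤ y ^ (-b)) :
    ∀ᶠ v : ℝ in atTop, Real.exp (-(b * v)) < Bt v →
      Real.exp (Real.exp (κ' * v)) ≤ cnt (Real.exp (2 * Real.exp v)) := by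
  have hev : ∀ᶠ y : ℝ in atTop, 2 * y ^ κ' + 1 ≤ y ^ κ'' := by
    have h1 : Tendsto (fun y : ℝ => y ^ (κ'' - κ')) atTop atTop := tendsto_rpow_atTop (by linarith)
    have h2 : Tendsto (fun y : ℝ => y ^ κ'') atTop atTop := tendsto_rpow_atTop hκ''
    filter_upwards [h1.eventually_ge_atTop 4, h2.eventually_ge_atTop 2, eventually_gt_atTop (0:ℝ)]
      with y hy1 hy2 hy0
    have h3 : y ^ κ'' = y ^ κ' * y ^ (κ'' - κ') := by
      rw [← Real.rpow_add hy0]; congr 1; ring
    have h4 : 0 < y ^ κ' := by positivity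
    have h5 : y ^ κ' * 4 ≤ y ^ κ'' := by rw [h3]; gcongr
    linarith
  filter_upwards [Real.tendsto_exp_atTop.eventually hU, Real.tendsto_exp_atTop.eventually hev,
    Real.tendsto_exp_atTop.eventually_ge_atTop 8] with v hv hv2 hy8 hB
  set y : ℝ := Real.exp v with hyd
  obtain ⟨u1, u2, u3, u4, u5⟩ := hv
  have hy0 : 0 < y := by linarith
  have hly : 0 < Real.log y := Real.log_pos (by linarith)
  set k : ℕ := ⌊y ^ κ''⌋₊ with hk
  have hk1 : (k:ℝ) ≤ y ^ κ'' := Nat.floor_le (by positivity)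
  have hk2 : y ^ κ'' < k + 1 := Nat.lt_floor_add_one _
  have hc := card_QQ (y := y) (U := U y) (by linarith) (by linarith) (by linarith)
  have hcard : k ≤ (QQ y (U y)).card := by
    have h1 : (k:ℝ) * Real.log y ≤ (QQ y (U y)).card * Real.log y := by
      have h2 : y ^ κ'' * Real.log y ≤ U y / 4 := by linarith
      have h3 : (k:ℝ) * Real.log y ≤ y ^ κ'' * Real.log y := by gcongr
      linarith
    have h2 := le_of_mul_le_mul_right h1 hly
    exact_mod_cast h2
  obtain ⟨Q, hQ, hQk⟩ := exists_subset_card_eq hcard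
  have h1 := down_gen (v := v) (U := U y) hy8 u1 u2 (Q := Q)
    (fun p hp => (mem_QQ hy0.le).1 (hQ hp)) (by
      rw [hQk, ← hyd]
      refine le_trans ?_ hB.le
      have h2 : y ^ (-b) = Real.exp (-(b * v)) := by
        rw [hyd, ← Real.exp_mul]; congr 1; ring
      rw [← h2]
      refine le_trans ?_ u5
      have : 0 ≤ 10 * U y / y ^ 2 := by positivity
      gcongr)
  rw [hQk] at h1
  have h2 : (2:ℝ) ^ k ≤ cnt (Real.exp (2 * y)) := by exact_mod_cast h1
  refine le_trans ?_ h2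
  have h3 : (2:ℝ) ^ k = Real.exp (k * Real.log 2) := by
    rw [mul_comm, Real.exp_mul, Real.exp_log (by norm_num)]
    exact (Real.rpow_natCast 2 k).symm
  rw [h3]
  apply Real.exp_le_exp.2
  have h4 : Real.exp (κ' * v) = y ^ κ' := by
    rw [hyd, ← Real.exp_mul]; congr 1; ring
  rw [h4]
  have h5 : 1 / 2 ≤ Real.log 2 := by
    have := Real.log_two_gt_d9
    linarith
  have h6 : 2 * y ^ κ' ≤ k := by linarith
  have h7 : 0 ≤ (k:ℝ) := Nat.cast_nonneg k
  nlinarith

/-- case of a zero-free half-plane -/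
theorem down_A {b s C κ' : ℝ} (hb0 : 0 < b) (hs : 1 / 2 ≤ s) (hsb : s < 1 - b / 2)
    (hC : 0 < C) (h : ∀ y : ℝ, 1 ≤ y → |Chebyshev.psi y - y| ≤ C * y ^ s) (hκ : κ' < 1 - b / 2) :
    ∀ᶠ v : ℝ in atTop, Real.exp (-(b * v)) < Bt v →
      Real.exp (Real.exp (κ' * v)) ≤ cnt (Real.exp (2 * Real.exp v)) := by
  obtain ⟨C3, hC3⟩ := Chebyshev.psi_sub_theta_le_mul_sqrt
  set u : ℝ := 1 - b / 2 with hu
  set κ'' : ℝ := (max κ' s + u) / 2 with hκ''
  have hm1 : max κ' s < u := max_lt hκ hsb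
  have hκ''u : κ'' < u := by rw [hκ'']; linarith
  have hκκ'' : κ' < κ'' := by
    have := le_max_left κ' s
    rw [hκ'']; linarith
  have hκ''0 : 0 < κ'' := by
    have := le_max_right κ' s
    rw [hκ'']; linarith
  refine down_ev hκκ'' hκ''0 (U := fun y => y ^ u) ?_
  have hu0 : 0 < u := by linarith
  have e1 : Tendsto (fun y : ℝ => y ^ (1 - u)) atTop atTop := tendsto_rpow_atTop (by linarith)
  have e2 : Tendsto (fun y : ℝ => y ^ (u - s)) atTop atTop := tendsto_rpow_atTop (by linarith)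
  have e3 : Tendsto (fun y : ℝ => y ^ (u - κ'')) atTop atTop := tendsto_rpow_atTop (by linarith)
  have e4 := (isLittleO_log_rpow_atTop (show 0 < u - κ'' by linarith)).bound
      (c := 1 / 4) (by norm_num)
  filter_upwards [e1.eventually_ge_atTop 2, e2.eventually_ge_atTop (2 * (2 * C + |C3|)),
    e3.eventually_ge_atTop 10, e4, eventually_ge_atTop (2:ℝ)] with y h1 h2 h3 h4 hy
  have hy0 : 0 < y := by linarith
  have hy1 : 1 ≤ y := by linarith
  have hUy : y ^ u * y ^ (1 - u) = y := by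
    rw [← Real.rpow_add hy0, add_sub_cancel, Real.rpow_one]
  have hU0 : 0 < y ^ u := by positivity
  have hU2 : y ^ u ≤ y / 2 := by nlinarith
  refine ⟨Real.one_le_rpow hy1 hu0.le, hU2, ?_, ?_, ?_⟩
  · have a1 := abs_le.1 (h y hy1)
    have a2 := abs_le.1 (h (y - y ^ u) (by linarith))
    have a3 := hC3 y
    have a4 := Chebyshev.theta_le_psi (y - y ^ u)
    have a5 : (y - y ^ u) ^ s ≤ y ^ s := by
      apply Real.rpow_le_rpow (by linarith) (by linarith) (by linarith)
    have a6 : Real.sqrt y ≤ y ^ s := by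
      rw [Real.sqrt_eq_rpow]
      exact Real.rpow_le_rpow_of_exponent_le hy1 hs
    have a7 : (2 * C + |C3|) * y ^ s ≤ y ^ u / 2 := by
      have : y ^ u = y ^ s * y ^ (u - s) := by rw [← Real.rpow_add hy0]; congr 1; ring
      rw [this]
      have hys : 0 < y ^ s := by positivity
      nlinarith
    have a8 : C3 * Real.sqrt y ≤ |C3| * y ^ s := by
      have := le_abs_self C3
      have := abs_nonneg C3
      calc C3 * Real.sqrt y ≤ |C3| * Real.sqrt y := by gcongr
        _ ≤ |C3| * y ^ s := by gcongr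
    have a9 : C * (y - y ^ u) ^ s ≤ C * y ^ s := by gcongr
    linarith [a1.1, a2.2]
  · have a1 : 0 ≤ Real.log y := Real.log_nonneg hy1
    rw [Real.norm_of_nonneg a1, Real.norm_of_nonneg (by positivity)] at h4
    have : y ^ u = y ^ κ'' * y ^ (u - κ'') := by rw [← Real.rpow_add hy0]; congr 1; ring
    rw [this]
    gcongr
    linarith
  · have a1 : y ^ κ'' * (10 * y ^ u / y ^ 2) * y ^ (u - κ'') ≤ y ^ (-b) * y ^ (u - κ'') := by
      have b1 : y ^ 2 = y ^ (2:ℝ) := by exact_mod_cast (Real.rpow_natCast y 2).symm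
      have b2 : y ^ κ'' * (10 * y ^ u / y ^ 2) * y ^ (u - κ'') = 10 * y ^ (-b) := by
        rw [b1]
        calc y ^ κ'' * (10 * y ^ u / y ^ (2:ℝ)) * y ^ (u - κ'') =
              10 * ((y ^ κ'' * y ^ (u - κ'')) * (y ^ u / y ^ (2:ℝ))) := by ring
          _ = 10 * y ^ (-b) := by
              rw [← Real.rpow_add hy0, ← Real.rpow_sub hy0, ← Real.rpow_add hy0]
              congr 2
              rw [hu]; ring
      rw [b2, mul_comm (10:ℝ)]
      gcongr
    exact le_of_mul_le_mul_right a1 (by positivity)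

/-- the general case -/
theorem down_B {b κ' : ℝ} (hb1 : b < 1) (hκ : κ' < 1 - b) (hb0 : 0 ≤ b) :
    ∀ᶠ v : ℝ in atTop, Real.exp (-(b * v)) < Bt v →
      Real.exp (Real.exp (κ' * v)) ≤ cnt (Real.exp (2 * Real.exp v)) := by
  obtain ⟨C3, hC3⟩ := Chebyshev.psi_sub_theta_le_mul_sqrt
  obtain ⟨C, hC, X, hX2, hX⟩ := psi_pnt
  set κ'' : ℝ := (max κ' 0 + (1 - b)) / 2 with hκ''
  have hm1 : max κ' 0 < 1 - b := max_lt hκ (by linarith)
  have hκ''u : κ'' < 1 - b := by rw [hκ'']; linarith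
  have hκκ'' : κ' < κ'' := by
    have := le_max_left κ' 0
    rw [hκ'']; linarith
  have hκ''0 : 0 < κ'' := by
    have := le_max_right κ' 0
    rw [hκ'']; linarith
  refine down_ev hκκ'' hκ''0 (U := fun y => y / 2) ?_
  have e1 : Tendsto (fun y : ℝ => Real.sqrt y) atTop atTop := Real.tendsto_sqrt_atTop
  have e2 := Real.tendsto_log_atTop
  have e3 : Tendsto (fun y : ℝ => y ^ (1 - b - κ'')) atTop atTop := tendsto_rpow_atTop (by linarith)
  have e4 := (isLittleO_log_rpow_atTop (show 0 < 1 - κ'' by linarith)).bound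
      (c := 1 / 8) (by norm_num)
  filter_upwards [e1.eventually_ge_atTop (32 * |C3|), e2.eventually_ge_atTop (64 * C + 2),
    e3.eventually_ge_atTop 5, e4, eventually_ge_atTop (2 * X)] with y h1 h2 h3 h4 hy
  have hy4 : 4 ≤ y := by linarith
  have hy0 : 0 < y := by linarith
  have hy1 : 1 ≤ y := by linarith
  have hss : Real.sqrt y * Real.sqrt y = y := Real.mul_self_sqrt hy0.le
  have hs0 : 0 < Real.sqrt y := Real.sqrt_pos.2 hy0
  refine ⟨by linarith, le_rfl, ?_, ?_, ?_⟩
  · have a1 := abs_le.1 (hX y (by linarith))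
    have a2 := abs_le.1 (hX (y / 2) (by linarith))
    have a3 := hC3 y
    have a4 := Chebyshev.theta_le_psi (y / 2)
    have hly : 64 * C + 2 ≤ Real.log y := h2
    have hl2 : Real.log (y / 2) = Real.log y - Real.log 2 := Real.log_div hy0.ne' (by norm_num)
    have hl22 : Real.log 2 ≤ 1 := by
      have := Real.log_two_lt_d9
      linarith
    have a5 : C * (y / Real.log y ^ 3) ≤ y / 32 := by
      have b1 : 64 * C ≤ Real.log y ^ 3 := by
        have : 1 ≤ Real.log y := by linarith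
        nlinarith [mul_nonneg (show 0 ≤ Real.log y by linarith) (show 0 ≤ Real.log y - 1 by linarith),
          pow_nonneg (show 0 ≤ Real.log y by linarith) 3,
          mul_nonneg (mul_nonneg (show 0 ≤ Real.log y by linarith) (show 0 ≤ Real.log y by linarith))
            (show 0 ≤ Real.log y - 1 by linarith)]
      have b2 : 0 < Real.log y ^ 3 := pow_pos (by linarith) 3
      rw [← mul_div_assoc, div_le_div_iff₀ b2 (by norm_num)]
      nlinarith
    have a6 : C * ((y / 2) / Real.log (y / 2) ^ 3) ≤ y / 32 := by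
      have c0 : 1 ≤ Real.log (y / 2) := by rw [hl2]; linarith
      have b1 : 32 * C ≤ Real.log (y / 2) ^ 3 := by
        have c1 : 32 * C ≤ Real.log (y / 2) := by rw [hl2]; linarith
        nlinarith [mul_nonneg (show 0 ≤ Real.log (y / 2) by linarith)
            (show 0 ≤ Real.log (y / 2) - 1 by linarith),
          pow_nonneg (show 0 ≤ Real.log (y / 2) by linarith) 3,
          mul_nonneg (mul_nonneg (show 0 ≤ Real.log (y / 2) by linarith)
            (show 0 ≤ Real.log (y / 2) by linarith)) (show 0 ≤ Real.log (y / 2) - 1 by linarith)]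
      have b2 : 0 < Real.log (y / 2) ^ 3 := pow_pos (by linarith) 3
      rw [← mul_div_assoc, div_le_div_iff₀ b2 (by norm_num)]
      nlinarith
    have a8 : C3 * Real.sqrt y ≤ y / 32 := by
      have := le_abs_self C3
      nlinarith
    have e : y - y / 2 = y / 2 := by ring
    rw [e]
    linarith [a1.1, a2.2]
  · have a1 : 0 ≤ Real.log y := Real.log_nonneg hy1
    rw [Real.norm_of_nonneg a1, Real.norm_of_nonneg (by positivity)] at h4
    have : y = y ^ κ'' * y ^ (1 - κ'') := by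
      rw [← Real.rpow_add hy0, add_sub_cancel, Real.rpow_one]
    have hp : 0 < y ^ κ'' := by positivity
    nlinarith
  · have a1 : y ^ κ'' * (10 * (y / 2) / y ^ 2) * y ^ (1 - b - κ'') ≤ y ^ (-b) * y ^ (1 - b - κ'') := by
      have b2 : y ^ κ'' * (10 * (y / 2) / y ^ 2) * y ^ (1 - b - κ'') = 5 * y ^ (-b) := by
        have b3 : y ^ κ'' * y ^ (1 - b - κ'') = y ^ (1 - b) := by
          rw [← Real.rpow_add hy0]; congr 1; ring
        have b4 : y ^ (1 - b) = y * y ^ (-b) := by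
          rw [sub_eq_add_neg, Real.rpow_add hy0, Real.rpow_one]
        calc y ^ κ'' * (10 * (y / 2) / y ^ 2) * y ^ (1 - b - κ'') =
              (y ^ κ'' * y ^ (1 - b - κ'')) * (5 / y) := by field_simp; ring
          _ = 5 * y ^ (-b) := by rw [b3, b4]; field_simp
      rw [b2, mul_comm (5:ℝ)]
      gcongr
    exact le_of_mul_le_mul_right a1 (by positivity)

end Pool.Agent.TH988.RB
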