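import Pool.Agent.TH988.RB.Dn2
import Pool.Agent.TH988.RB.Wh
import Pool.Agent.W190.Q306.A2
import Pool.Agent.H332R2.FL.ZeroExists

/-! The number of exceptions to Nicolas' inequality. -/

set_option autoImplicit false

namespace Pool.Agent.TH988.RB

open Filter Topology

/-- the supremum of the real parts of the zeros of the zeta function -/
noncomputable def Theta : ℝ := sSup (Complex.re '' {s : ℂ | riemannZeta s = 0})

lemma zeros_bdd : BddAbove (Complex.re '' {s : ℂ | riemannZeta s = 0}) := by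
  refine ⟨1, ?_⟩
  rintro x ⟨s, hs, rfl⟩
  by_contra h
  exact riemannZeta_ne_zero_of_one_le_re (not_le.1 h).le hs

lemma Theta_ge_half : 1 / 2 ≤ Theta := by
  obtain ⟨ρ, h0, h1, _⟩ := H332.FL.exists_zero_re_ge_half 0
  exact h1.trans (le_csSup zeros_bdd ⟨ρ, h0, rfl⟩)

lemma zeros_ne : (Complex.re '' {s : ℂ | riemannZeta s = 0}).Nonempty := by
  obtain ⟨ρ, h0, _⟩ := H332.FL.exists_zero_re_ge_half 0
  exact ⟨ρ.re, ρ, h0, rfl⟩

lemma Theta_le_one : Theta ≤ 1 := by
  refine csSup_le zeros_ne ?_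
  rintro x ⟨s, hs, rfl⟩
  by_contra h
  exact riemannZeta_ne_zero_of_one_le_re (not_le.1 h).le hs

lemma exists_zero_gt {θ : ℝ} (h : θ < Theta) : ∃ s : ℂ, riemannZeta s = 0 ∧ θ < s.re := by
  obtain ⟨x, ⟨s, hs, rfl⟩, hx⟩ := exists_lt_of_lt_csSup zeros_ne h
  exact ⟨s, hs, hx⟩

lemma zero_free_gt {s : ℂ} (h : Theta < s.re) : riemannZeta s ≠ 0 := by
  intro h0
  exact absurd (le_csSup zeros_bdd ⟨s, h0, rfl⟩) (not_le.2 h)

lemma Theta_le_iff {θ : ℝ} : Theta ≤ θ ↔ ∀ s : ℂ, θ < s.re → riemannZeta s ≠ 0 := by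
  constructor
  · intro h s hs
    exact zero_free_gt (h.trans_lt hs)
  · intro h
    refine csSup_le zeros_ne ?_
    rintro x ⟨s, hs, rfl⟩
    by_contra hcon
    exact h s (not_le.1 hcon) hs

/-- the bound for `ψ` -/
lemma psi_free {t : ℝ} (h : Theta < t) (ht : t ≤ 1) :
    ∃ C : ℝ, 0 < C ∧ ∀ y : ℝ, 1 ≤ y → |Chebyshev.psi y - y| ≤ C * y ^ t := by
  refine Pool.Agent.W190.Q306.psi_bound (θ := Theta) (by linarith [Theta_ge_half]) (fun s hs hz => ?_) h ht
  have h1 : (s - 1) ∈ ZZ := by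
    show riemannZeta₁ (1 + (s - 1)) = 0
    rw [add_sub_cancel]
    exact hz
  have h2 := (ZZ_zeta h1).2
  rw [add_sub_cancel] at h2
  exact zero_free_gt hs h2

/-- **upper bound** -/
theorem cnt_le_exp {ρ : ℝ} (h : (1 + Theta) / 2 < ρ) :
    ∀ᶠ x : ℝ in atTop, (cnt x : ℝ) ≤ Real.exp (Real.log x ^ ρ) := by
  rcases lt_or_ge Theta 1 with hT | hT
  · -- a zero-free half-plane
    set t : ℝ := (Theta + min 1 (2 * ρ - 1)) / 2 with ht
    have h1 : Theta < min 1 (2 * ρ - 1) := lt_min hT (by linarith)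
    have h2 : Theta < t := by rw [ht]; linarith
    have h3 : t < 1 := by
      have := min_le_left 1 (2 * ρ - 1)
      rw [ht]; linarith
    have h4 : t < 2 * ρ - 1 := by
      have := min_le_right 1 (2 * ρ - 1)
      rw [ht]; linarith
    obtain ⟨C, hC, hψ⟩ := psi_free h2 h3.le
    have h5 := cnt_upper (by linarith [Theta_ge_half]) h3 hC hψ (η := ρ - (1 + t) / 2) (by linarith)
    rwa [add_sub_cancel] at h5
  · have hρ : 1 < ρ := by linarith
    have hlog := Real.tendsto_log_atTop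
    filter_upwards [eventually_ge_atTop (1:ℝ), hlog.eventually_ge_atTop 1] with x hx hx1
    have h1 : cnt x ≤ ⌊x⌋₊ := by
      unfold cnt
      have hsub : {n : ℕ | IsExc n ∧ (n : ℝ) ≤ x} ⊆ ((Finset.Icc 1 ⌊x⌋₊ : Finset ℕ) : Set ℕ) := by
        rintro n ⟨hn, hnx⟩
        rw [Finset.mem_coe, Finset.mem_Icc]
        exact ⟨by have := hn.1; omega, Nat.le_floor hnx⟩
      have h2 := Set.ncard_le_ncard hsub (Finset.finite_toSet _)
      rwa [Set.ncard_coe_finset, Nat.card_Icc, Nat.add_sub_cancel] at h2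
    calc (cnt x : ℝ) ≤ (⌊x⌋₊ : ℝ) := by exact_mod_cast h1
      _ ≤ x := Nat.floor_le (by linarith)
      _ = Real.exp (Real.log x) := (Real.exp_log (by linarith)).symm
      _ ≤ Real.exp (Real.log x ^ ρ) := by
          apply Real.exp_le_exp.2
          calc Real.log x = Real.log x ^ (1:ℝ) := (Real.rpow_one _).symm
            _ ≤ Real.log x ^ ρ := Real.rpow_le_rpow_of_exponent_le hx1 hρ.le

/-- windows give a lower bound for all `x` -/
theorem low_main {A : ℝ}
    (H : ∀ A' < A, ∀ η : ℝ, 0 < η → η < 1 / 4 → ∃ b : ℝ,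
      (∀ᶠ v0 : ℝ in atTop, ∃ v, (1 - 4 * η) * v0 ≤ v ∧ v ≤ (1 + 4 * η) * v0 ∧
        Real.exp (-(b * v)) < Bt v) ∧
      (∀ᶠ v : ℝ in atTop, Real.exp (-(b * v)) < Bt v →
        Real.exp (Real.exp (A' * v)) ≤ cnt (Real.exp (2 * Real.exp v))))
    {ρ : ℝ} (hρ0 : 0 < ρ) (hρ : ρ < A) :
    ∀ᶠ x : ℝ in atTop, Real.exp (Real.log x ^ ρ) ≤ cnt x := by
  -- parameters
  set A' : ℝ := (ρ + A) / 2 with hA'
  have hρA' : ρ < A' := by rw [hA']; linarith
  have hA'A : A' < A := by rw [hA']; linarith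
  have hA'0 : 0 < A' := by linarith
  set δ : ℝ := 1 - ρ / A' with hδ
  have hδ0 : 0 < δ := by
    rw [hδ, sub_pos, div_lt_one hA'0]; exact hρA'
  have hδ1 : δ < 1 := by
    have : 0 < ρ / A' := by positivity
    rw [hδ]; linarith
  set η : ℝ := δ / 16 with hη
  have hη0 : 0 < η := by positivity
  have hη1 : η < 1 / 4 := by rw [hη]; linarith
  obtain ⟨b, hwin, hdown⟩ := H A' hA'A η hη0 hη1
  have hp : 0 < 1 + 4 * η := by linarith
  have hm : 0 < 1 - 4 * η := by linarith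
  set r : ℝ := A' * ((1 - 4 * η) / (1 + 4 * η)) with hr
  have hrρ : ρ < r := by
    have h1 : 1 - 8 * η ≤ (1 - 4 * η) / (1 + 4 * η) := by
      rw [le_div_iff₀ hp]; nlinarith
    have h2 : ρ = A' * (1 - δ) := by rw [hδ]; field_simp; ring
    have h3 : A' * (1 - δ) < A' * (1 - 8 * η) := by
      apply mul_lt_mul_of_pos_left _ hA'0
      rw [hη]; linarith
    rw [h2]
    exact h3.trans_le (mul_le_mul_of_nonneg_left h1 hA'0.le)
  have hr0 : 0 < r := hρ0.trans hrρ
  -- the variable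
  have hlog := Real.tendsto_log_atTop
  have hl2 : Tendsto (fun x : ℝ => Real.log (Real.log x / 2)) atTop atTop :=
    hlog.comp (hlog.atTop_div_const (by norm_num))
  have hv0 : Tendsto (fun x : ℝ => Real.log (Real.log x / 2) / (1 + 4 * η)) atTop atTop :=
    hl2.atTop_div_const hp
  obtain ⟨V, hV⟩ := eventually_atTop.1 hdown
  have hbig : ∀ᶠ L : ℝ in atTop, L ^ ρ ≤ (L / 2) ^ r := by
    have h1 : Tendsto (fun L : ℝ => L ^ (r - ρ)) atTop atTop := tendsto_rpow_atTop (by linarith)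
    filter_upwards [h1.eventually_ge_atTop (2 ^ r), eventually_gt_atTop (0:ℝ)] with L hL hL0
    rw [Real.div_rpow hL0.le (by norm_num), le_div_iff₀ (by positivity)]
    have e : L ^ r = L ^ ρ * L ^ (r - ρ) := by rw [← Real.rpow_add hL0]; congr 1; ring
    rw [e]
    gcongr
  filter_upwards [hv0.eventually hwin, hv0.eventually_ge_atTop (max V 0 / (1 - 4 * η)),
    hlog.eventually hbig, hlog.eventually_gt_atTop 2, eventually_gt_atTop (0:ℝ)] with x hx1 hx2 hx3 hx4 hx0
  obtain ⟨v, hv1, hv2, hv3⟩ := hx1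
  set v0 : ℝ := Real.log (Real.log x / 2) / (1 + 4 * η) with hv0d
  have hLpos : 0 < Real.log x / 2 := by linarith
  have hvV : V ≤ v := by
    have h1 : max V 0 ≤ (1 - 4 * η) * v0 := by
      rw [div_le_iff₀ hm] at hx2
      linarith
    exact (le_max_left _ _).trans (h1.trans hv1)
  have hd := hV v hvV hv3
  have hvup : v ≤ Real.log (Real.log x / 2) := by
    have : (1 + 4 * η) * v0 = Real.log (Real.log x / 2) := by
      rw [hv0d]; field_simp
    linarith
  have h1 : Real.exp (2 * Real.exp v) ≤ x := by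
    have h2 : Real.exp v ≤ Real.log x / 2 := by
      calc Real.exp v ≤ Real.exp (Real.log (Real.log x / 2)) := Real.exp_le_exp.2 hvup
        _ = Real.log x / 2 := Real.exp_log hLpos
    calc Real.exp (2 * Real.exp v) ≤ Real.exp (Real.log x) := by
          apply Real.exp_le_exp.2; linarith
      _ = x := Real.exp_log hx0
  have h2 : Real.log x ^ ρ ≤ Real.exp (A' * v) := by
    refine hx3.trans ?_
    rw [Real.rpow_def_of_pos hLpos]
    apply Real.exp_le_exp.2
    have h3 : Real.log (Real.log x / 2) * r = A' * ((1 - 4 * η) * v0) := by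
      rw [hr, hv0d]; ring
    rw [h3]
    gcongr
  calc Real.exp (Real.log x ^ ρ) ≤ Real.exp (Real.exp (A' * v)) := Real.exp_le_exp.2 h2
    _ ≤ cnt (Real.exp (2 * Real.exp v)) := hd
    _ ≤ cnt x := by exact_mod_cast cnt_mono h1

end Pool.Agent.TH988.RB
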