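import Pool.Agent.TH988.RB.Fin1

/-! The number of exceptions to Nicolas' inequality, part 2. -/

set_option autoImplicit false

namespace Pool.Agent.TH988.RB

open Filter Topology

lemma Bt_ge_jt {v : ℝ} (hv : 0 < v) : jt v ≤ Bt v := by
  have h1 := Bt_ge hv
  have h2 := Chebyshev.theta_le_psi (Real.exp v)
  have h3 : 0 ≤ (Chebyshev.psi (Real.exp v) - Chebyshev.theta (Real.exp v)) / (Real.exp v * v) := by
    apply div_nonneg (by linarith)
    have := Real.exp_pos v
    positivity
  linarith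

/-- windows from a zero -/
lemma win_zero {θ : ℝ} (hθ0 : 0 < θ) (hθ : θ < Theta) {η : ℝ} (h0 : 0 < η) (h1 : η < 1 / 4) :
    ∀ᶠ v0 : ℝ in atTop, ∃ v, (1 - 4 * η) * v0 ≤ v ∧ v ≤ (1 + 4 * η) * v0 ∧
      Real.exp (-((1 - θ) * v)) < Bt v := by
  filter_upwards [win1 hθ0 (exists_zero_gt hθ) h0 h1, eventually_gt_atTop (0:ℝ)] with v0 hv hv0
  obtain ⟨v, h2, h3, h4⟩ := hv
  refine ⟨v, h2, h3, h4.trans_le (Bt_ge_jt ?_)⟩
  refine lt_of_lt_of_le ?_ h2
  have : 0 < 1 - 4 * η := by linarith
  positivity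

/-- windows without zeros to the right of `1/2` -/
lemma win_half (hfree : ∀ s : ℂ, 1 / 2 < s.re → riemannZeta s ≠ 0) {b : ℝ} (hb : 1 / 2 < b)
    {η : ℝ} (h0 : 0 < η) (h1 : η < 1 / 4) :
    ∀ᶠ v0 : ℝ in atTop, ∃ v, (1 - 4 * η) * v0 ≤ v ∧ v ≤ (1 + 4 * η) * v0 ∧
      Real.exp (-(b * v)) < Bt v := by
  obtain ⟨κ, hκ, _, hwin⟩ := win2 hfree h0 h1
  -- the comparison
  have hcmp : ∀ᶠ v : ℝ in atTop, Real.exp (-(b * v)) ≤ -Real.exp (-(κ * v)) +
      (Chebyshev.psi (Real.exp v) - Chebyshev.theta (Real.exp v)) / (Real.exp v * v) := by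
    have e1 : Tendsto (fun v : ℝ => v * Real.exp (-((b - 1 / 2) * v))) atTop (𝓝 0) := by
      have := Real.tendsto_pow_mul_exp_neg_atTop_nhds_zero 1
      have h2 : Tendsto (fun v : ℝ => (b - 1 / 2) * v) atTop atTop :=
        tendsto_id.const_mul_atTop (by linarith)
      have h3 := (this.comp h2).const_mul (b - 1 / 2)⁻¹
      rw [mul_zero] at h3
      refine h3.congr fun v => ?_
      simp only [Function.comp, pow_one]
      have : b - 1 / 2 ≠ 0 := by linarith
      rw [← mul_assoc, ← mul_assoc, inv_mul_cancel₀ this, one_mul]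
    have e2 : Tendsto (fun v : ℝ => v * Real.exp (-((κ - 1 / 2) * v))) atTop (𝓝 0) := by
      have := Real.tendsto_pow_mul_exp_neg_atTop_nhds_zero 1
      have h2 : Tendsto (fun v : ℝ => (κ - 1 / 2) * v) atTop atTop :=
        tendsto_id.const_mul_atTop (by linarith)
      have h3 := (this.comp h2).const_mul (κ - 1 / 2)⁻¹
      rw [mul_zero] at h3
      refine h3.congr fun v => ?_
      simp only [Function.comp, pow_one]
      have : κ - 1 / 2 ≠ 0 := by linarith
      rw [← mul_assoc, ← mul_assoc, inv_mul_cancel₀ this, one_mul]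
    -- `ψ(√y) ≥ √y / 2`
    obtain ⟨C, hC, X, hX2, hX⟩ := psi_pnt
    have e3 : ∀ᶠ v : ℝ in atTop, Real.exp (v / 2) / 2 ≤ Chebyshev.psi (Real.exp (v / 2)) := by
      have h2 : Tendsto (fun v : ℝ => Real.exp (v / 2)) atTop atTop :=
        Real.tendsto_exp_atTop.comp (tendsto_id.atTop_div_const (by norm_num))
      have h3 : Tendsto (fun v : ℝ => (v / 2) ^ 3) atTop atTop :=
        (tendsto_pow_atTop (by norm_num)).comp (tendsto_id.atTop_div_const (by norm_num))
      filter_upwards [h2.eventually_ge_atTop X, h3.eventually_ge_atTop (2 * C),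
        eventually_gt_atTop (0:ℝ)] with v ha hb' hc
      have h4 := (abs_le.1 (hX _ ha)).1
      rw [Real.log_exp] at h4
      have h5 : C * (Real.exp (v / 2) / (v / 2) ^ 3) ≤ Real.exp (v / 2) / 2 := by
        have := Real.exp_pos (v / 2)
        rw [← mul_div_assoc, div_le_div_iff₀ (by positivity) (by norm_num)]
        nlinarith
      linarith
    filter_upwards [e1.eventually (gt_mem_nhds (show (0:ℝ) < 1 / 4 by norm_num)),
      e2.eventually (gt_mem_nhds (show (0:ℝ) < 1 / 4 by norm_num)), e3, eventually_gt_atTop (0:ℝ)]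
      with v h2 h3 h4 hv
    have hE := Real.exp_pos v
    have h5 : Real.exp (v / 2) / 2 ≤
        Chebyshev.psi (Real.exp v) - Chebyshev.theta (Real.exp v) := by
      have h6 := Chebyshev.psi_sub_theta_ge_psi_add_psi_add_psi (x := Real.exp v) hE.le
      have h7 : Real.exp v ^ (2:ℝ)⁻¹ = Real.exp (v / 2) := by
        rw [← Real.exp_mul]; congr 1
      rw [h7] at h6
      have h8 := Chebyshev.psi_nonneg (Real.exp v ^ (3:ℝ)⁻¹)
      have h9 := Chebyshev.psi_nonneg (Real.exp v ^ (7:ℝ)⁻¹)
      linarith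
    have h6 : Real.exp (-(v / 2)) / (2 * v) ≤
        (Chebyshev.psi (Real.exp v) - Chebyshev.theta (Real.exp v)) / (Real.exp v * v) := by
      have h7 : Real.exp (-(v / 2)) / (2 * v) = (Real.exp (v / 2) / 2) / (Real.exp v * v) := by
        have h8 : Real.exp (-(v / 2)) * Real.exp v = Real.exp (v / 2) := by
          rw [← Real.exp_add]; congr 1; ring
        rw [← h8]
        field_simp
      rw [h7]
      gcongr
    have h7 : Real.exp (-(b * v)) = Real.exp (-(v / 2)) * Real.exp (-((b - 1 / 2) * v)) := by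
      rw [← Real.exp_add]; congr 1; ring
    have h8 : Real.exp (-(κ * v)) = Real.exp (-(v / 2)) * Real.exp (-((κ - 1 / 2) * v)) := by
      rw [← Real.exp_add]; congr 1; ring
    have h9 : Real.exp (-((b - 1 / 2) * v)) + Real.exp (-((κ - 1 / 2) * v)) ≤ 1 / (2 * v) := by
      rw [le_div_iff₀ (by positivity)]
      linarith
    have h10 : Real.exp (-(v / 2)) * (Real.exp (-((b - 1 / 2) * v)) + Real.exp (-((κ - 1 / 2) * v))) ≤
        Real.exp (-(v / 2)) * (1 / (2 * v)) := by
      have := Real.exp_pos (-(v / 2))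
      gcongr
    rw [mul_one_div] at h10
    rw [h7, h8]
    linarith
  obtain ⟨V, hV⟩ := eventually_atTop.1 hcmp
  have hm : 0 < 1 - 4 * η := by linarith
  filter_upwards [hwin, eventually_ge_atTop (max V 0 / (1 - 4 * η)), eventually_gt_atTop (0:ℝ)]
    with v0 hv hv2 hv0
  obtain ⟨v, h2, h3, h4⟩ := hv
  have h5 : max V 0 ≤ v := by
    rw [div_le_iff₀ hm] at hv2
    linarith
  have hvpos : 0 < v := by
    refine lt_of_lt_of_le ?_ h2
    positivity
  refine ⟨v, h2, h3, ?_⟩
  have h6 := hV v ((le_max_left _ _).trans h5)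
  have h7 := Bt_ge hvpos
  linarith

/-- **lower bound** -/
theorem exp_le_cnt {ρ : ℝ} (hρ0 : 0 < ρ) (h : ρ < (1 + Theta) / 2) :
    ∀ᶠ x : ℝ in atTop, Real.exp (Real.log x ^ ρ) ≤ cnt x := by
  have hΘ1 := Theta_ge_half
  have hΘ2 := Theta_le_one
  refine low_main (A := (1 + Theta) / 2) (fun A' hA' η h0 h1 => ?_) hρ0 h
  rcases lt_or_ge Theta 1 with hT | hT
  · rcases lt_or_ge (1 / 2) Theta with hT2 | hT2
    · -- `1/2 < Θ < 1`
      set θ : ℝ := (max (2 * Theta - 1) (max (2 * A' - 1) (1 / 2)) + Theta) / 2 with hθ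
      have hmx : max (2 * Theta - 1) (max (2 * A' - 1) (1 / 2)) < Theta :=
        max_lt (by linarith) (max_lt (by linarith) hT2)
      have h2 : θ < Theta := by rw [hθ]; linarith
      have hle1 := le_max_left (2 * Theta - 1) (max (2 * A' - 1) (1 / 2))
      have hle2 := (le_max_left (2 * A' - 1) (1 / 2 : ℝ)).trans
        (le_max_right (2 * Theta - 1) (max (2 * A' - 1) (1 / 2)))
      have hle3 := (le_max_right (2 * A' - 1) (1 / 2 : ℝ)).trans
        (le_max_right (2 * Theta - 1) (max (2 * A' - 1) (1 / 2)))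
      have h3 : 2 * Theta - 1 < θ := by rw [hθ]; linarith
      have h4 : 2 * A' - 1 < θ := by rw [hθ]; linarith
      have h5 : 1 / 2 < θ := by rw [hθ]; linarith
      set s : ℝ := (Theta + (1 + θ) / 2) / 2 with hs
      have hs1 : Theta < s := by rw [hs]; linarith
      have hs2 : s < (1 + θ) / 2 := by rw [hs]; linarith
      obtain ⟨C, hC, hψ⟩ := psi_free hs1 (by linarith)
      refine ⟨1 - θ, win_zero (by linarith) h2 h0 h1, ?_⟩
      exact down_A (by linarith) (by linarith) (by linarith) hC hψ (by linarith)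
    · -- `Θ = 1/2`
      have hfree : ∀ s : ℂ, 1 / 2 < s.re → riemannZeta s ≠ 0 := fun s hs =>
        zero_free_gt (lt_of_le_of_lt hT2 hs)
      set b : ℝ := (1 / 2 + min 1 (2 - 2 * A')) / 2 with hb
      have hmn : 1 / 2 < min 1 (2 - 2 * A') := lt_min (by norm_num) (by linarith)
      have hmn1 := min_le_left 1 (2 - 2 * A')
      have hmn2 := min_le_right 1 (2 - 2 * A')
      have hb1 : 1 / 2 < b := by rw [hb]; linarith
      have hb2 : b < 1 := by rw [hb]; linarith
      have hb3 : b < 2 - 2 * A' := by rw [hb]; linarith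
      set s : ℝ := (1 / 2 + min (1 - b / 2) 1) / 2 with hs
      have hms : 1 / 2 < min (1 - b / 2) 1 := lt_min (by linarith) (by norm_num)
      have hms1 := min_le_left (1 - b / 2) 1
      have hms2 := min_le_right (1 - b / 2) 1
      have hs1 : 1 / 2 < s := by rw [hs]; linarith
      have hs2 : s < 1 - b / 2 := by rw [hs]; linarith
      obtain ⟨C, hC, hψ⟩ := psi_free (t := s) (by linarith) (by linarith)
      refine ⟨b, win_half hfree hb1 h0 h1, ?_⟩
      exact down_A (by linarith) hs1.le hs2 hC hψ (by linarith)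
  · -- `Θ = 1`
    set b : ℝ := (min (1 - A') 1) / 2 with hb
    have hmn : 0 < min (1 - A') 1 := lt_min (by linarith) one_pos
    have hmn1 := min_le_left (1 - A') 1
    have hmn2 := min_le_right (1 - A') 1
    have hb0 : 0 < b := by rw [hb]; linarith
    have hb1 : b < 1 - A' := by rw [hb]; linarith
    have hb2 : b < 1 := by rw [hb]; linarith
    have hw := win_zero (θ := 1 - b) (by linarith) (by linarith) h0 h1
    rw [show 1 - (1 - b) = b by ring] at hw
    exact ⟨b, hw, down_B hb2 (by linarith) hb0.le⟩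

/-- **the law** -/
theorem law : Tendsto (fun x : ℝ => Real.log (Real.log (cnt x)) / Real.log (Real.log x)) atTop
    (𝓝 ((1 + Theta) / 2)) := by
  have hΘ1 := Theta_ge_half
  rw [Metric.tendsto_atTop']
  intro ε hε
  set ε' : ℝ := min ε (1 / 2) / 2 with hε'
  have h1 : 0 < min ε (1 / 2) := lt_min hε (by norm_num)
  have hε'0 : 0 < ε' := by rw [hε']; linarith
  have hε'1 : ε' < ε := by
    have := min_le_left ε (1 / 2)
    rw [hε']; linarith
  have hε'2 : ε' < 1 / 2 := by
    have := min_le_right ε (1 / 2)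
    rw [hε']; linarith
  have hup := cnt_le_exp (ρ := (1 + Theta) / 2 + ε') (by linarith)
  have hlo := exp_le_cnt (ρ := (1 + Theta) / 2 - ε') (by linarith) (by linarith)
  have hlog := Real.tendsto_log_atTop
  have hev : ∀ᶠ x : ℝ in atTop, dist (Real.log (Real.log (cnt x)) / Real.log (Real.log x))
      ((1 + Theta) / 2) < ε := by
    filter_upwards [hup, hlo, (hlog.comp hlog).eventually_gt_atTop 0, hlog.eventually_gt_atTop 1]
      with x h2 h3 h4 h5
    simp only [Function.comp] at h4
    set L : ℝ := Real.log x with hL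
    have hL0 : 0 < L := by linarith
    have hc0 : (0:ℝ) < cnt x := (Real.exp_pos _).trans_le h3
    have h6 : L ^ ((1 + Theta) / 2 - ε') ≤ Real.log (cnt x) := (Real.le_log_iff_exp_le hc0).2 h3
    have h7 : Real.log (cnt x) ≤ L ^ ((1 + Theta) / 2 + ε') := (Real.log_le_iff_le_exp hc0).2 h2
    have hlp : 0 < L ^ ((1 + Theta) / 2 - ε') := by positivity
    have h8 : ((1 + Theta) / 2 - ε') * Real.log L ≤ Real.log (Real.log (cnt x)) := by
      rw [← Real.log_rpow hL0]
      exact Real.log_le_log hlp h6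
    have h9 : Real.log (Real.log (cnt x)) ≤ ((1 + Theta) / 2 + ε') * Real.log L := by
      rw [← Real.log_rpow hL0]
      exact Real.log_le_log (hlp.trans_le h6) h7
    rw [Real.dist_eq, abs_lt]
    constructor
    · have : (1 + Theta) / 2 - ε' ≤ Real.log (Real.log (cnt x)) / Real.log L := by
        rw [le_div_iff₀ h4]; exact h8
      linarith
    · have : Real.log (Real.log (cnt x)) / Real.log L ≤ (1 + Theta) / 2 + ε' := by
        rw [div_le_iff₀ h4]; exact h9
      linarith
  obtain ⟨X, hX⟩ := eventually_atTop.1 hev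
  exact ⟨X, fun x hx => hX x hx.le⟩

end Pool.Agent.TH988.RB
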