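import Pool.Agent.TH988.RB.Om3

/-! The weighted integral of the error term. -/

set_option autoImplicit false

namespace Pool.Agent.TH988.RB

open MeasureTheory ProbabilityTheory Filter Topology Set
open Pool.Agent.W263.BSD

/-- the weighted error term -/
noncomputable def qq (v : ℝ) : ℝ := dl v * ((1 + v) / v ^ 2)

/-- minus the integral of the weighted error term from `u` to infinity -/
noncomputable def jt (u : ℝ) : ℝ := -∫ v in Ioi u, qq v

lemma qq_measurable : Measurable qq := dl_measurable.mul (by fun_prop)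

lemma qq_bound : ∃ C : ℝ, 0 < C ∧ ∀ v : ℝ, 0 < v → |qq v| ≤ C * (1 / v ^ 2 * (1 / (1 + v) ^ 2)) := by
  obtain ⟨C, hC, h⟩ := dl_pnt
  refine ⟨C, hC, fun v hv => ?_⟩
  unfold qq
  rw [abs_mul, abs_of_pos (show 0 < (1 + v) / v ^ 2 by positivity)]
  calc |dl v| * ((1 + v) / v ^ 2) ≤ C / (1 + v) ^ 3 * ((1 + v) / v ^ 2) := by
        gcongr
        exact h v hv
    _ = C * (1 / v ^ 2 * (1 / (1 + v) ^ 2)) := by
        field_simp

lemma integrableOn_inv_sq {u : ℝ} (hu : 0 < u) : IntegrableOn (fun v : ℝ => 1 / v ^ 2) (Ioi u) := by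
  have h := integrableOn_Ioi_rpow_of_lt (a := -2) (by norm_num) hu
  refine h.congr_fun (fun v hv => ?_) measurableSet_Ioi
  have hv' : (0:ℝ) < v := lt_trans hu hv
  simp only []
  rw [Real.rpow_neg hv'.le, one_div]
  congr 1
  exact_mod_cast Real.rpow_natCast v 2

lemma integrableOn_inv_sq' {u : ℝ} (hu : 0 < u) :
    IntegrableOn (fun v : ℝ => 1 / (1 + v) ^ 2) (Ioi u) := by
  refine Integrable.mono' (integrableOn_inv_sq hu) (Measurable.aestronglyMeasurable (by fun_prop)) ?_
  refine (ae_restrict_iff' measurableSet_Ioi).mpr (Eventually.of_forall fun v hv => ?_)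
  have hv' : (0:ℝ) < v := lt_trans hu hv
  rw [Real.norm_of_nonneg (by positivity)]
  apply one_div_le_one_div_of_le (by positivity)
  gcongr
  linarith

lemma qq_integrable {u : ℝ} (hu : 0 < u) : IntegrableOn qq (Ioi u) := by
  obtain ⟨C, hC, h⟩ := qq_bound
  refine Integrable.mono' ((integrableOn_inv_sq' hu).const_mul (C * (1 / u ^ 2)))
    qq_measurable.aestronglyMeasurable ?_
  refine (ae_restrict_iff' measurableSet_Ioi).mpr (Eventually.of_forall fun v hv => ?_)
  have huv : u < v := hv
  have hv' : (0:ℝ) < v := lt_trans hu hv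
  rw [Real.norm_eq_abs]
  refine (h v hv').trans ?_
  rw [← mul_assoc]
  gcongr

/-- `m(v) = v² / (1 + v)` -/
noncomputable def mm (v : ℝ) : ℝ := v ^ 2 / (1 + v)

/-- its derivative -/
noncomputable def mp (v : ℝ) : ℝ := 1 - 1 / (1 + v) ^ 2

lemma mm_deriv {v : ℝ} (hv : 0 < v) : HasDerivAt mm (mp v) v := by
  unfold mm mp
  have h1 : HasDerivAt (fun v : ℝ => v ^ 2) (2 * v) v := by
    simpa using hasDerivAt_pow 2 v
  have h2 : HasDerivAt (fun v : ℝ => 1 + v) 1 v := (hasDerivAt_id v).const_add 1
  have h3 := h1.div h2 (by positivity)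
  refine h3.congr_deriv ?_
  field_simp
  ring

lemma mm_integral {u v : ℝ} (hu : 0 < u) (huv : u ≤ v) : ∫ z in u..v, mp z = mm v - mm u := by
  refine intervalIntegral.integral_eq_sub_of_hasDerivAt (fun z hz => ?_) ?_
  · rw [uIcc_of_le huv] at hz
    exact mm_deriv (lt_of_lt_of_le hu hz.1)
  · apply ContinuousOn.intervalIntegrable
    rw [uIcc_of_le huv]
    unfold mp
    refine continuousOn_const.sub (continuousOn_const.div (by fun_prop) fun z hz => ?_)
    have : 0 < z := lt_of_lt_of_le hu hz.1
    positivity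

lemma mp_nonneg {v : ℝ} (hv : 0 < v) : 0 ≤ mp v := by
  unfold mp
  rw [sub_nonneg, div_le_one (by positivity)]
  nlinarith

lemma mp_le {v : ℝ} : mp v ≤ 1 := by
  unfold mp
  have : 0 ≤ 1 / (1 + v) ^ 2 := by positivity
  linarith

lemma jt_integrable_mp {u : ℝ} (hu : 0 < u) :
    IntegrableOn (fun z => mp z * jt z) (Ioi u) ∧
    i1 u = -(mm u * jt u) - ∫ z in Ioi u, mp z * jt z := by
  obtain ⟨C, hC, h⟩ := qq_bound
  set μ : Measure ℝ := volume.restrict (Ioi u) with hμ
  set F : ℝ → ℝ → ℝ := fun z v => if z < v then mp z * qq v else 0 with hF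
  have hmp : Measurable mp := by unfold mp; fun_prop
  have hint : Integrable (Function.uncurry F) (μ.prod μ) := by
    have h1 : Integrable (fun x : ℝ × ℝ => (1 / x.1 ^ 2) * (C * (1 / (1 + x.2) ^ 2))) (μ.prod μ) :=
      Integrable.mul_prod (integrableOn_inv_sq hu) ((integrableOn_inv_sq' hu).const_mul C)
    refine Integrable.mono' h1 ?_ ?_
    · refine Measurable.aestronglyMeasurable ?_
      refine Measurable.ite (measurableSet_lt measurable_fst measurable_snd) ?_ measurable_const
      exact (hmp.comp measurable_fst).mul (qq_measurable.comp measurable_snd)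
    · rw [hμ, Measure.prod_restrict]
      refine (ae_restrict_iff' (measurableSet_Ioi.prod measurableSet_Ioi)).mpr
        (Eventually.of_forall fun x hx => ?_)
      have hx1 : u < x.1 := hx.1
      have hx2 : u < x.2 := hx.2
      have h10 : 0 < x.1 := by linarith
      have h20 : 0 < x.2 := by linarith
      simp only [Function.uncurry, hF]
      split_ifs with hlt
      · rw [norm_mul, Real.norm_of_nonneg (mp_nonneg h10), Real.norm_eq_abs]
        have h2 := h x.2 h20
        have h3 : 1 / x.2 ^ 2 ≤ 1 / x.1 ^ 2 := by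
          apply one_div_le_one_div_of_le (by positivity)
          gcongr
        calc mp x.1 * |qq x.2| ≤ 1 * (C * (1 / x.2 ^ 2 * (1 / (1 + x.2) ^ 2))) := by
              apply mul_le_mul mp_le h2 (abs_nonneg _) zero_le_one
          _ = 1 / x.2 ^ 2 * (C * (1 / (1 + x.2) ^ 2)) := by ring
          _ ≤ 1 / x.1 ^ 2 * (C * (1 / (1 + x.2) ^ 2)) := by gcongr
      · rw [norm_zero]; positivity
  have hswap := integral_integral_swap hint
  have e1' : ∀ z ∈ Ioi u, ∫ v, F z v ∂μ = -(mp z * jt z) := by
    intro z hz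
    have hz' : u < z := hz
    have : (fun v => F z v) = (Ioi z).indicator (fun v => mp z * qq v) := by
      funext v
      simp only [hF, indicator, mem_Ioi]
    rw [this, hμ, setIntegral_indicator measurableSet_Ioi, Ioi_inter_Ioi, sup_eq_right.2 hz'.le,
      integral_const_mul]
    unfold jt
    ring
  have hi : IntegrableOn (fun z => mp z * jt z) (Ioi u) := by
    have h1 := hint.integral_prod_left
    have h2 : Integrable (fun z => -(mp z * jt z)) μ := by
      refine h1.congr ?_
      refine (ae_restrict_iff' measurableSet_Ioi).mpr (Eventually.of_forall fun z hz => ?_)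
      exact e1' z hz
    have h3 : Integrable (fun z => mp z * jt z) μ := by simpa using h2.neg
    exact h3
  refine ⟨hi, ?_⟩
  have e1 : (∫ z, ∫ v, F z v ∂μ ∂μ) = -∫ z in Ioi u, mp z * jt z := by
    rw [← integral_neg]
    exact setIntegral_congr_fun measurableSet_Ioi e1'
  have e2 : (∫ v, ∫ z, F z v ∂μ ∂μ) = i1 u + mm u * jt u := by
    have h3 : ∀ v ∈ Ioi u, ∫ z, F z v ∂μ = dl v - mm u * qq v := by
      intro v hv
      have huv : u < v := hv
      have hv' : (0:ℝ) < v := lt_trans hu huv
      have : (fun z => F z v) = (Iio v).indicator (fun z => mp z * qq v) := by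
        funext z
        simp only [hF, indicator, mem_Iio]
      rw [this, hμ, setIntegral_indicator measurableSet_Iio, Ioi_inter_Iio, integral_mul_const,
        ← integral_Ioc_eq_integral_Ioo, ← intervalIntegral.integral_of_le huv.le,
        mm_integral hu huv.le]
      have h4 : mm v * qq v = dl v := by
        unfold mm qq
        field_simp
      linear_combination h4
    rw [setIntegral_congr_fun measurableSet_Ioi h3, integral_sub
      (dl_integrable.mono_set (Ioi_subset_Ioi hu.le)) ((qq_integrable hu).const_mul _),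
      integral_const_mul, i1_eq hu.le]
    unfold jt
    ring
  have h5 := e1.symm.trans (hswap.trans e2)
  show i1 u = -(mm u * jt u) - ∫ z in Ioi u, mp z * jt z
  linarith

/-- an upper bound for `jt` gives a lower bound for `i1` -/
theorem i1_of_jt {κ κ' c U : ℝ} (hκ' : 0 < κ') (hκ : κ' < κ) (hc : 0 ≤ c)
    (h : ∀ u, U ≤ u → jt u ≤ c * Real.exp (-(κ * u))) :
    ∃ C U' : ℝ, ∀ u, U' ≤ u → -(C * Real.exp (-(κ' * u))) ≤ i1 u := by
  refine ⟨c * (1 / (κ - κ') + 1 / κ), max U 1, fun u hu => ?_⟩
  have hu1 : 1 ≤ u := (le_max_right _ _).trans hu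
  have hu2 : U ≤ u := (le_max_left _ _).trans hu
  have hu0 : 0 < u := by linarith
  have hκ0 : 0 < κ := by linarith
  obtain ⟨hi, he⟩ := jt_integrable_mp hu0
  have hexp : IntegrableOn (fun z : ℝ => c * Real.exp (-(κ * z))) (Ioi u) := by
    have := integrableOn_exp_mul_Ioi (a := -κ) (by linarith) u
    refine (this.const_mul c).congr (Eventually.of_forall fun u => ?_)
    simp only [neg_mul]
  have h1 : ∫ z in Ioi u, mp z * jt z ≤ ∫ z in Ioi u, c * Real.exp (-(κ * z)) := by
    refine setIntegral_mono_on hi hexp measurableSet_Ioi fun z hz => ?_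
    have hz' : u < z := hz
    have hz0 : 0 < z := by linarith
    calc mp z * jt z ≤ mp z * (c * Real.exp (-(κ * z))) :=
          mul_le_mul_of_nonneg_left (h z (by linarith)) (mp_nonneg hz0)
      _ ≤ 1 * (c * Real.exp (-(κ * z))) :=
          mul_le_mul_of_nonneg_right mp_le (by positivity)
      _ = _ := one_mul _
  have h2 : ∫ z in Ioi u, c * Real.exp (-(κ * z)) = c * (1 / κ) * Real.exp (-(κ * u)) := by
    rw [integral_const_mul]
    have h3 := integral_exp_mul_Ioi (a := -κ) (by linarith) u
    have e : (fun z : ℝ => Real.exp (-(κ * z))) = fun x : ℝ => Real.exp (-κ * x) := by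
      funext z; rw [neg_mul]
    rw [e, h3, neg_div_neg_eq, neg_mul]
    ring
  have hmm : 0 ≤ mm u := by unfold mm; positivity
  have hmm2 : mm u ≤ u := by
    unfold mm
    rw [div_le_iff₀ (by positivity)]
    nlinarith
  have h3 : mm u * jt u ≤ u * (c * Real.exp (-(κ * u))) := by
    calc mm u * jt u ≤ mm u * (c * Real.exp (-(κ * u))) :=
          mul_le_mul_of_nonneg_left (h u hu2) hmm
      _ ≤ u * (c * Real.exp (-(κ * u))) := mul_le_mul_of_nonneg_right hmm2 (by positivity)
  -- u e^{-κ u} ≤ e^{-κ' u} / (κ - κ')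
  have hk : 0 < κ - κ' := by linarith
  have h4 : u * Real.exp (-(κ * u)) ≤ 1 / (κ - κ') * Real.exp (-(κ' * u)) := by
    have h5 : Real.exp (-(κ * u)) = Real.exp (-(κ' * u)) * Real.exp (-((κ - κ') * u)) := by
      rw [← Real.exp_add]; congr 1; ring
    have h6 : u * Real.exp (-((κ - κ') * u)) ≤ 1 / (κ - κ') := by
      have h7 := Real.add_one_le_exp ((κ - κ') * u)
      have h8 : (κ - κ') * u * Real.exp (-((κ - κ') * u)) ≤ 1 := by
        calc (κ - κ') * u * Real.exp (-((κ - κ') * u))
            ≤ Real.exp ((κ - κ') * u) * Real.exp (-((κ - κ') * u)) := by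
              gcongr
              linarith
          _ = 1 := by rw [← Real.exp_add]; simp
      rw [le_div_iff₀ hk]
      linarith
    calc u * Real.exp (-(κ * u)) = (u * Real.exp (-((κ - κ') * u))) * Real.exp (-(κ' * u)) := by
          rw [h5]; ring
      _ ≤ 1 / (κ - κ') * Real.exp (-(κ' * u)) := by gcongr
  have h5 : Real.exp (-(κ * u)) ≤ Real.exp (-(κ' * u)) := by
    apply Real.exp_le_exp.2
    nlinarith
  have h6 : u * (c * Real.exp (-(κ * u))) ≤ c * (1 / (κ - κ') * Real.exp (-(κ' * u))) := by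
    calc u * (c * Real.exp (-(κ * u))) = c * (u * Real.exp (-(κ * u))) := by ring
      _ ≤ _ := mul_le_mul_of_nonneg_left h4 hc
  have h7 : c * (1 / κ) * Real.exp (-(κ * u)) ≤ c * (1 / κ) * Real.exp (-(κ' * u)) := by gcongr
  rw [he]
  nlinarith

/-- a negative upper bound for `jt` gives a positive lower bound for `i1` -/
theorem i1_of_jt_neg {κ c U : ℝ} (hc : 0 < c)
    (h : ∀ u, U ≤ u → jt u ≤ -(c * Real.exp (-(κ * u)))) :
    ∃ U' : ℝ, ∀ u, U' ≤ u → c / 2 * Real.exp (-(κ * u)) ≤ i1 u := by
  refine ⟨max U 1, fun u hu => ?_⟩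
  have hu1 : 1 ≤ u := (le_max_right _ _).trans hu
  have hu2 : U ≤ u := (le_max_left _ _).trans hu
  have hu0 : 0 < u := by linarith
  obtain ⟨hi, he⟩ := jt_integrable_mp hu0
  have h1 : ∫ z in Ioi u, mp z * jt z ≤ 0 := by
    refine setIntegral_nonpos measurableSet_Ioi fun z hz => ?_
    have hz' : u < z := hz
    have hz0 : 0 < z := by linarith
    have h2 := h z (by linarith)
    have h3 : 0 < c * Real.exp (-(κ * z)) := by positivity
    exact mul_nonpos_of_nonneg_of_nonpos (mp_nonneg hz0) (by linarith)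
  have hmm : 1 / 2 ≤ mm u := by
    unfold mm
    rw [div_le_div_iff₀ (by norm_num) (by positivity)]
    nlinarith
  have h2 := h u hu2
  have h3 : 0 < c * Real.exp (-(κ * u)) := by positivity
  have h4 : mm u * jt u ≤ -(c / 2 * Real.exp (-(κ * u))) := by
    nlinarith
  rw [he]
  linarith

end Pool.Agent.TH988.RB
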