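import Pool.Agent.W263.BSD.Lap

/-! The Laplace transform of the error term in the prime number theorem. -/

set_option autoImplicit false

namespace Pool.Agent.TH988.RB

open MeasureTheory ProbabilityTheory Filter Topology Set
open Pool.Agent.W263.BSD

/-- `(ψ(e^u) - e^u) / e^u` -/
noncomputable def dl (u : ℝ) : ℝ := Chebyshev.psi (Real.exp u) * Real.exp (-u) - 1

lemma dl_measurable : Measurable dl := by
  unfold dl
  exact ((Chebyshev.psi_mono.measurable.comp Real.measurable_exp).mul (by fun_prop)).sub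
    measurable_const

lemma dl_bound (u : ℝ) : |dl u| ≤ Real.log 4 + 5 := by
  unfold dl
  have h0 : 0 < Real.exp u := Real.exp_pos u
  have h1 := Chebyshev.psi_nonneg (Real.exp u)
  have h2 := Chebyshev.psi_le_const_mul_self h0.le
  have h3 : Real.exp u * Real.exp (-u) = 1 := by rw [← Real.exp_add]; simp
  have h4 : Chebyshev.psi (Real.exp u) * Real.exp (-u) ≤ Real.log 4 + 4 := by
    calc Chebyshev.psi (Real.exp u) * Real.exp (-u)
        ≤ ((Real.log 4 + 4) * Real.exp u) * Real.exp (-u) := by gcongr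
      _ = Real.log 4 + 4 := by rw [mul_assoc, h3, mul_one]
  have h5 : 0 ≤ Chebyshev.psi (Real.exp u) * Real.exp (-u) := by positivity
  have h6 : 0 < Real.log 4 := Real.log_pos (by norm_num)
  rw [abs_le]
  constructor <;> linarith

lemma int_exp (g : ℝ → ℂ) : ∫ t in Ioi (1 : ℝ), g t =
    ∫ u in Ioi (0 : ℝ), (Real.exp u : ℂ) * g (Real.exp u) := by
  have himg : Real.exp '' Ioi 0 = Ioi 1 := by
    ext t
    constructor
    · rintro ⟨u, hu, rfl⟩
      exact Real.one_lt_exp_iff.2 hu
    · intro ht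
      have ht' : (1:ℝ) < t := ht
      exact ⟨Real.log t, Real.log_pos ht', Real.exp_log (by linarith)⟩
  have := integral_image_eq_integral_abs_deriv_smul (s := Ioi (0:ℝ)) (f := Real.exp)
    (f' := Real.exp) measurableSet_Ioi (fun x _ => (Real.hasDerivAt_exp x).hasDerivWithinAt)
    Real.exp_injective.injOn g
  rw [himg] at this
  rw [this]
  refine setIntegral_congr_fun measurableSet_Ioi fun u _ => ?_
  rw [abs_of_pos (Real.exp_pos u), Complex.real_smul]

lemma dl_LInt {w : ℝ} (hw : 0 < w) : LInt dl w := by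
  unfold LInt
  have h1 : IntegrableOn (fun u : ℝ => (Real.log 4 + 5) * Real.exp (-(w * u))) (Ioi 0) := by
    have := integrableOn_exp_mul_Ioi (a := -w) (by linarith) 0
    refine (this.const_mul (Real.log 4 + 5)).congr (Eventually.of_forall fun u => ?_)
    simp only [neg_mul]
  refine Integrable.mono' h1 ((dl_measurable.mul (by fun_prop)).aestronglyMeasurable)
    (Eventually.of_forall fun u => ?_)
  rw [norm_mul, Real.norm_eq_abs, Real.norm_of_nonneg (Real.exp_pos _).le]
  exact mul_le_mul_of_nonneg_right (dl_bound u) (Real.exp_pos _).le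

lemma lapC_one {s : ℂ} (hs : 0 < s.re) : ∫ u in Ioi (0 : ℝ), Complex.exp (-(s * u)) = 1 / s := by
  have h := integral_exp_mul_complex_Ioi (a := -s) (by simpa using hs) 0
  have e : (fun x : ℝ => Complex.exp (-s * x)) = fun u : ℝ => Complex.exp (-(s * u)) := by
    funext u; rw [neg_mul]
  rw [e] at h
  rw [h]
  simp

/-- the Laplace transform of `ψ(e^u) e^{-u}` -/
lemma lapC_psi {s : ℂ} (hs : 0 < s.re) :
    ∫ u in Ioi (0 : ℝ), ((Chebyshev.psi (Real.exp u) * Real.exp (-u) : ℝ) : ℂ) * Complex.exp (-(s * u)) =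
      (-deriv riemannZeta (1 + s) / riemannZeta (1 + s)) / (1 + s) := by
  have h1 : (1:ℝ) < (1 + s).re := by simpa using hs
  have hO : (fun n : ℕ => ∑ k ∈ Finset.Icc 1 n, ArithmeticFunction.vonMangoldt k) =O[atTop]
      fun n => ((n : ℕ) : ℝ) ^ (1 : ℝ) := by
    refine Asymptotics.IsBigO.of_bound (Real.log 4 + 4) (Eventually.of_forall fun n => ?_)
    have h2 := Chebyshev.psi_le_const_mul_self (x := (n : ℝ)) (by positivity)
    have h3 : Chebyshev.psi (n : ℝ) = ∑ k ∈ Finset.Icc 1 n, ArithmeticFunction.vonMangoldt k := by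
      unfold Chebyshev.psi
      rw [Nat.floor_natCast]
      rfl
    rw [← h3, Real.rpow_one, Real.norm_of_nonneg (Chebyshev.psi_nonneg _),
      Real.norm_of_nonneg (by positivity)]
    exact h2
  have h2 := LSeries_eq_mul_integral_of_nonneg (fun n => ArithmeticFunction.vonMangoldt n)
    (r := 1) zero_le_one h1 hO (fun n => ArithmeticFunction.vonMangoldt_nonneg)
  have h3 := ArithmeticFunction.LSeries_vonMangoldt_eq_deriv_riemannZeta_div h1
  have hs1 : (1 + s) ≠ 0 := by
    intro h
    rw [h] at h1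
    simp at h1
    linarith
  rw [← h3, h2, mul_div_cancel_left₀ _ hs1, int_exp]
  refine setIntegral_congr_fun measurableSet_Ioi fun u _ => ?_
  have e1 : (∑ k ∈ Finset.Icc 1 ⌊Real.exp u⌋₊, ((ArithmeticFunction.vonMangoldt k : ℝ) : ℂ)) =
      ((Chebyshev.psi (Real.exp u) : ℝ) : ℂ) := by
    unfold Chebyshev.psi
    push_cast
    rfl
  rw [e1]
  have e2 : ((Real.exp u : ℝ) : ℂ) ^ (-(1 + s + 1)) = Complex.exp (-(2 + s) * u) := by
    rw [Complex.cpow_def_of_ne_zero (by exact_mod_cast (Real.exp_pos u).ne'),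
      ← Complex.ofReal_log (Real.exp_pos u).le, Real.log_exp]
    congr 1
    ring
  rw [e2]
  push_cast
  have e3 : Complex.exp (-(2 + s) * u) = Complex.exp (-(u:ℂ)) * Complex.exp (-(u:ℂ)) *
      Complex.exp (-(s * u)) := by
    rw [← Complex.exp_add, ← Complex.exp_add]
    congr 1
    ring
  have e4 : Complex.exp (u:ℂ) * Complex.exp (-(u:ℂ)) = 1 := by
    rw [← Complex.exp_add]; simp
  rw [e3]
  linear_combination (-(Chebyshev.psi (Real.exp u) : ℂ) * Complex.exp (-(u:ℂ)) *
    Complex.exp (-(s * u))) * e4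

/-- `(s ζ(1+s))' / (s ζ(1+s))` -/
noncomputable def Q (s : ℂ) : ℂ := deriv riemannZeta₁ (1 + s) / riemannZeta₁ (1 + s)

lemma zeta1_ne {s : ℂ} (hs : 0 < s.re) : riemannZeta₁ (1 + s) ≠ 0 := by
  have h1 : (1:ℝ) < (1 + s).re := by simpa using hs
  have hne : (1 + s) ≠ 1 := by
    intro h
    rw [h] at h1
    simp at h1
  have h2 := riemannZeta_ne_zero_of_one_lt_re h1
  rw [riemannZeta_eq_inv_sub_mul hne] at h2
  exact right_ne_zero_of_mul h2

/-- the Laplace transform of `dl` -/
theorem lapC_dl {s : ℂ} (hs : 0 < s.re) : lapC dl s = -(Q s + 1) / (1 + s) := by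
  have hs0 : s ≠ 0 := by
    intro h; rw [h] at hs; simp at hs
  have h1 : (1:ℝ) < (1 + s).re := by simpa using hs
  have hs1 : (1 + s) ≠ 0 := by
    intro h
    rw [h] at h1
    simp at h1
    linarith
  have hne : (1 + s) ≠ 1 := by simpa using hs0
  have hi1 : IntegrableOn (fun u : ℝ => ((Chebyshev.psi (Real.exp u) * Real.exp (-u) : ℝ) : ℂ) *
      Complex.exp (-(s * u))) (Ioi 0) := by
    have h3 : LInt (fun u => Chebyshev.psi (Real.exp u) * Real.exp (-u)) s.re := by
      have h4 : LInt (fun _ : ℝ => (1:ℝ)) s.re := by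
        unfold LInt
        have := integrableOn_exp_mul_Ioi (a := -s.re) (by linarith) 0
        refine this.congr (Eventually.of_forall fun u => ?_)
        simp only [neg_mul, one_mul]
      have h5 := (dl_LInt hs).add h4
      refine h5.congr (Eventually.of_forall fun u => ?_)
      simp [dl]
    exact LInt.complex ((Chebyshev.psi_mono.measurable.comp Real.measurable_exp).mul (by fun_prop)) h3
  have hi2 : IntegrableOn (fun u : ℝ => Complex.exp (-(s * u))) (Ioi 0) := by
    have := integrableOn_exp_mul_complex_Ioi (a := -s) (by simpa using hs) 0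
    refine this.congr (Eventually.of_forall fun u => ?_)
    simp only [neg_mul]
  have e1 : lapC dl s = (∫ u in Ioi (0 : ℝ), ((Chebyshev.psi (Real.exp u) * Real.exp (-u) : ℝ) : ℂ) *
      Complex.exp (-(s * u))) - ∫ u in Ioi (0 : ℝ), Complex.exp (-(s * u)) := by
    rw [← integral_sub hi1 hi2]
    unfold lapC dl
    congr 1
    funext u
    push_cast
    ring
  rw [e1, lapC_psi hs, lapC_one hs]
  have hz1 := zeta1_ne hs
  have h6 := deriv_riemannZeta_eq_neg_inv_sub_sq_mul_add hne
  have h7 := riemannZeta_eq_inv_sub_mul hne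
  rw [h6, h7]
  unfold Q
  rw [show (1 + s - 1) = s by ring]
  field_simp
  ring

end Pool.Agent.TH988.RB
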