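import Pool.Agent.TH988.RB.Lan
import Pool.Agent.TH988.RB.Tr
import Pool.Agent.W762.EC.PntA
import Pool.Agent.H307R2.Sg6

/-! One-sided bounds for the integrated error term and zeros of the zeta function. -/

set_option autoImplicit false

namespace Pool.Agent.TH988.RB

open MeasureTheory ProbabilityTheory Filter Topology Set
open Pool.Agent.W263.BSD

/-! ### the prime number theorem with a power of the logarithm -/

lemma psi_pnt : ∃ C : ℝ, 0 < C ∧ ∃ X : ℝ, 2 ≤ X ∧ ∀ x : ℝ, X ≤ x →
    |Chebyshev.psi x - x| ≤ C * (x / Real.log x ^ 3) := by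
  obtain ⟨N₁, hN⟩ := Pool.Agent.W762.EC.PntA.large 3 (by norm_num)
  -- `1 ≤ x / log x ^ 3` for large `x`
  have hlog : ∀ᶠ x : ℝ in atTop, Real.log x ^ 3 ≤ x := by
    have := (isLittleO_log_rpow_rpow_atTop (3 : ℝ) (s := 1) (by norm_num)).bound
      (c := 1) (by norm_num)
    filter_upwards [this, eventually_ge_atTop (1 : ℝ)] with x hx hx1
    have hl : 0 ≤ Real.log x := Real.log_nonneg hx1
    rw [Real.rpow_one, Real.norm_of_nonneg (by positivity), Real.norm_of_nonneg (by positivity),
      one_mul] at hx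
    exact_mod_cast hx
  obtain ⟨X1, hX1⟩ := eventually_atTop.1 hlog
  set B : ℝ := 35 + 16 * 8 ^ 3 with hB
  have hB0 : 0 < B := by positivity
  refine ⟨8 * B + 1, by positivity, max X1 (max (N₁ + 1) 16), by
    exact le_trans (by norm_num) ((le_max_right _ _).trans (le_max_right _ _)), fun x hx => ?_⟩
  have hx1 : X1 ≤ x := (le_max_left _ _).trans hx
  have hx2 : (N₁ : ℝ) + 1 ≤ x := ((le_max_left _ _).trans (le_max_right _ _)).trans hx
  have hx3 : (16 : ℝ) ≤ x := ((le_max_right _ _).trans (le_max_right _ _)).trans hx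
  have hx0 : 0 < x := by linarith
  set N : ℕ := ⌊x⌋₊ with hNd
  have hNx : (N : ℝ) ≤ x := Nat.floor_le hx0.le
  have hxN : x < N + 1 := Nat.lt_floor_add_one x
  have hN1 : N₁ ≤ N := by
    have : (N₁ : ℝ) ≤ N := by linarith
    exact_mod_cast this
  have hlx : 0 < Real.log x := Real.log_pos (by linarith)
  -- log N ≥ (log x) / 2
  have hlN : Real.log x / 2 ≤ Real.log N := by
    have h1 : Real.sqrt x ≤ N := by
      have h2 : Real.sqrt x ≤ x / 4 := by
        rw [Real.sqrt_le_left (by positivity)]
        nlinarith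
      linarith
    have h2 := Real.log_le_log (Real.sqrt_pos.2 hx0) h1
    rwa [Real.log_sqrt hx0.le] at h2
  have h1 := hN N hN1
  rw [Chebyshev.psi_eq_psi_coe_floor x, ← hNd]
  have h2 : (N : ℝ) / Real.log N ^ 3 ≤ 8 * (x / Real.log x ^ 3) := by
    have h3 : (Real.log x / 2) ^ 3 ≤ Real.log N ^ 3 := pow_le_pow_left₀ (by positivity) hlN 3
    calc (N : ℝ) / Real.log N ^ 3 ≤ x / (Real.log x / 2) ^ 3 := by
          apply div_le_div₀ hx0.le hNx (by positivity) h3
      _ = 8 * (x / Real.log x ^ 3) := by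
          field_simp
          norm_num
  have h4 : 1 ≤ x / Real.log x ^ 3 := by
    rw [le_div_iff₀ (by positivity)]
    simpa using hX1 x hx1
  have h5 : |Chebyshev.psi (N : ℝ) - x| ≤ |Chebyshev.psi (N : ℝ) - N| + 1 := by
    have h6 : Chebyshev.psi (N : ℝ) - x = (Chebyshev.psi (N : ℝ) - N) + (N - x) := by ring
    rw [h6]
    refine (abs_add_le _ _).trans ?_
    have : |(N : ℝ) - x| ≤ 1 := by
      rw [abs_le]
      constructor <;> linarith
    linarith
  have h6 : B * ((N : ℝ) / Real.log N ^ 3) ≤ B * (8 * (x / Real.log x ^ 3)) :=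
    mul_le_mul_of_nonneg_left h2 hB0.le
  linarith

/-- `dl u = O (u ^ (-3))` -/
lemma dl_pnt : ∃ C : ℝ, 0 < C ∧ ∀ u : ℝ, 0 < u → |dl u| ≤ C / (1 + u) ^ 3 := by
  obtain ⟨C, hC, X, hX2, hX⟩ := psi_pnt
  have hB : 0 < Real.log 4 + 5 := by
    have : 0 < Real.log 4 := Real.log_pos (by norm_num)
    linarith
  have hX0 : 0 < X := by linarith
  refine ⟨8 * C + (Real.log 4 + 5) * (1 + (1 + Real.log X)) ^ 3, by
    have : 0 < Real.log X := Real.log_pos (by linarith)
    positivity, fun u hu => ?_⟩
  have hlX : 0 < Real.log X := Real.log_pos (by linarith)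
  rw [le_div_iff₀ (by positivity)]
  by_cases h : 1 + Real.log X ≤ u
  · have hu1 : 1 ≤ u := by linarith
    have h1 : X ≤ Real.exp u := by
      rw [← Real.log_le_iff_le_exp hX0]
      linarith
    have h2 := hX _ h1
    rw [Real.log_exp] at h2
    have h3 : dl u = (Chebyshev.psi (Real.exp u) - Real.exp u) * Real.exp (-u) := by
      unfold dl
      have h3 : Real.exp u * Real.exp (-u) = 1 := by rw [← Real.exp_add]; simp
      linear_combination h3
    rw [h3, abs_mul, abs_of_pos (Real.exp_pos _)]
    have h4 : Real.exp u * Real.exp (-u) = 1 := by rw [← Real.exp_add]; simp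
    have h5 : |Chebyshev.psi (Real.exp u) - Real.exp u| * Real.exp (-u) ≤ C / u ^ 3 := by
      calc |Chebyshev.psi (Real.exp u) - Real.exp u| * Real.exp (-u)
          ≤ (C * (Real.exp u / u ^ 3)) * Real.exp (-u) := by gcongr
        _ = C / u ^ 3 * (Real.exp u * Real.exp (-u)) := by ring
        _ = C / u ^ 3 := by rw [h4, mul_one]
    have h6 : (1 + u) ^ 3 ≤ 8 * u ^ 3 := by
      have : (1 + u) ^ 3 ≤ (2 * u) ^ 3 := pow_le_pow_left₀ (by positivity) (by linarith) 3
      calc (1 + u) ^ 3 ≤ (2 * u) ^ 3 := this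
        _ = 8 * u ^ 3 := by ring
    have h7 : C / u ^ 3 * (1 + u) ^ 3 ≤ 8 * C := by
      calc C / u ^ 3 * (1 + u) ^ 3 ≤ C / u ^ 3 * (8 * u ^ 3) := by gcongr
        _ = 8 * C := by field_simp
    have h8 : |Chebyshev.psi (Real.exp u) - Real.exp u| * Real.exp (-u) * (1 + u) ^ 3 ≤
        C / u ^ 3 * (1 + u) ^ 3 := by gcongr
    have h9 : 0 ≤ (Real.log 4 + 5) * (1 + (1 + Real.log X)) ^ 3 := by positivity
    linarith
  · have h' : u < 1 + Real.log X := not_le.1 h
    have h1 : |dl u| * (1 + u) ^ 3 ≤ (Real.log 4 + 5) * (1 + (1 + Real.log X)) ^ 3 := by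
      apply mul_le_mul (dl_bound u) (pow_le_pow_left₀ (by positivity) (by linarith) 3)
        (by positivity) hB.le
    have h9 : 0 ≤ 8 * C := by positivity
    linarith

lemma integrableOn_inv_cube : IntegrableOn (fun u : ℝ => 1 / (1 + u) ^ 3) (Ioi 0) := by
  refine Integrable.mono' integrable_inv_one_add_sq.integrableOn
    (Measurable.aestronglyMeasurable (by fun_prop)) ?_
  refine (ae_restrict_iff' measurableSet_Ioi).mpr (Eventually.of_forall fun u hu => ?_)
  have hu' : (0:ℝ) < u := hu
  rw [Real.norm_of_nonneg (by positivity), one_div]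
  refine inv_anti₀ (by positivity) ?_
  nlinarith [pow_pos hu' 3]

lemma dl_integrable : IntegrableOn dl (Ioi 0) := by
  obtain ⟨C, hC, h⟩ := dl_pnt
  refine Integrable.mono' (integrableOn_inv_cube.const_mul C) dl_measurable.aestronglyMeasurable ?_
  refine (ae_restrict_iff' measurableSet_Ioi).mpr (Eventually.of_forall fun u hu => ?_)
  rw [Real.norm_eq_abs]
  have := h u hu
  rwa [div_eq_mul_one_div] at this

lemma dl_intervalIntegrable (a b : ℝ) : IntervalIntegrable dl volume a b := by
  refine (intervalIntegrable_const (c := Real.log 4 + 5)).mono_fun'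
    dl_measurable.aestronglyMeasurable (Eventually.of_forall fun u => ?_)
  exact dl_bound u

/-- the integral of `dl` -/
noncomputable def D0 : ℝ := ∫ v in Ioi (0:ℝ), dl v

/-- the integrated error term -/
noncomputable def i1 (u : ℝ) : ℝ := D0 - ∫ v in (0:ℝ)..u, dl v

lemma i1_continuous : Continuous i1 := by
  unfold i1
  exact continuous_const.sub (intervalIntegral.continuous_primitive dl_intervalIntegrable 0)

lemma i1_eq {u : ℝ} (hu : 0 ≤ u) : i1 u = ∫ v in Ioi u, dl v := by
  unfold i1 D0
  have h1 : IntegrableOn dl (Ioi u) := dl_integrable.mono_set (Ioi_subset_Ioi hu)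
  have h2 : IntegrableOn dl (Ioc 0 u) := dl_integrable.mono_set Ioc_subset_Ioi_self
  rw [intervalIntegral.integral_of_le hu, ← Ioc_union_Ioi_eq_Ioi hu,
    setIntegral_union (Ioc_disjoint_Ioi le_rfl) measurableSet_Ioi h2 h1]
  ring

lemma i1_bound : ∃ B : ℝ, 0 < B ∧ ∀ u : ℝ, 0 ≤ u → |i1 u| ≤ B := by
  refine ⟨(∫ v in Ioi (0:ℝ), |dl v|) + 1, ?_, fun u hu => ?_⟩
  · have : 0 ≤ ∫ v in Ioi (0:ℝ), |dl v| := integral_nonneg fun v => abs_nonneg _
    linarith
  · rw [i1_eq hu]
    have h1 : |∫ v in Ioi u, dl v| ≤ ∫ v in Ioi u, |dl v| := abs_integral_le_integral_abs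
    have h2 : ∫ v in Ioi u, |dl v| ≤ ∫ v in Ioi (0:ℝ), |dl v| :=
      setIntegral_mono_set dl_integrable.abs (Eventually.of_forall fun v => abs_nonneg _)
        (Ioi_subset_Ioi hu).eventuallyLE
    linarith

lemma i1_LInt {w : ℝ} (hw : 0 < w) : LInt i1 w := by
  obtain ⟨B, hB, hb⟩ := i1_bound
  unfold LInt
  have h1 : IntegrableOn (fun u : ℝ => B * Real.exp (-(w * u))) (Ioi 0) := by
    have := integrableOn_exp_mul_Ioi (a := -w) (by linarith) 0
    refine (this.const_mul B).congr (Eventually.of_forall fun u => ?_)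
    simp only [neg_mul]
  refine Integrable.mono' h1 ((i1_continuous.measurable.mul (by fun_prop)).aestronglyMeasurable) ?_
  refine (ae_restrict_iff' measurableSet_Ioi).mpr (Eventually.of_forall fun u hu => ?_)
  rw [norm_mul, Real.norm_eq_abs, Real.norm_of_nonneg (Real.exp_pos _).le]
  exact mul_le_mul_of_nonneg_right (hb u (le_of_lt hu)) (Real.exp_pos _).le

lemma lap_i1 {w : ℝ} (hw : 0 < w) : lap i1 w = (D0 - lap dl w) / w := by
  set μ : Measure ℝ := volume.restrict (Ioi (0:ℝ)) with hμ
  set F : ℝ → ℝ → ℝ := fun u v => if u < v then dl v * Real.exp (-(w * u)) else 0 with hF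
  have hexp : Integrable (fun u : ℝ => Real.exp (-(w * u))) μ := by
    have := integrableOn_exp_mul_Ioi (a := -w) (by linarith) 0
    refine this.congr (Eventually.of_forall fun u => ?_)
    simp only [neg_mul]
  have hint : Integrable (Function.uncurry F) (μ.prod μ) := by
    have h1 : Integrable (fun z : ℝ × ℝ => Real.exp (-(w * z.1)) * |dl z.2|) (μ.prod μ) :=
      Integrable.mul_prod hexp dl_integrable.abs
    refine Integrable.mono' h1 ?_ (Eventually.of_forall fun z => ?_)
    · refine Measurable.aestronglyMeasurable ?_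
      refine Measurable.ite (measurableSet_lt measurable_fst measurable_snd) ?_ measurable_const
      exact (dl_measurable.comp measurable_snd).mul (by fun_prop)
    · simp only [Function.uncurry, hF]
      split_ifs
      · rw [norm_mul, Real.norm_eq_abs, Real.norm_of_nonneg (Real.exp_pos _).le, mul_comm]
      · rw [norm_zero]; positivity
  have hswap := integral_integral_swap hint
  have e1 : (∫ u, ∫ v, F u v ∂μ ∂μ) = lap i1 w := by
    unfold lap
    refine setIntegral_congr_fun measurableSet_Ioi fun u hu => ?_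
    have hu' : (0:ℝ) < u := hu
    have : (fun v => F u v) = (Ioi u).indicator (fun v => dl v * Real.exp (-(w * u))) := by
      funext v
      simp only [hF, indicator, mem_Ioi]
    rw [this, hμ, setIntegral_indicator measurableSet_Ioi, Ioi_inter_Ioi, sup_eq_right.2 hu'.le,
      integral_mul_const, i1_eq hu'.le]
  have e2 : (∫ v, ∫ u, F u v ∂μ ∂μ) = (D0 - lap dl w) / w := by
    have h3 : ∀ v ∈ Ioi (0:ℝ), ∫ u, F u v ∂μ = (dl v - dl v * Real.exp (-(w * v))) / w := by
      intro v hv
      have hv' : (0:ℝ) < v := hv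
      have : (fun u => F u v) = (Iio v).indicator (fun u => dl v * Real.exp (-(w * u))) := by
        funext u
        simp only [hF, indicator, mem_Iio]
      rw [this, hμ, setIntegral_indicator measurableSet_Iio, Ioi_inter_Iio, integral_const_mul,
        ← integral_Ioc_eq_integral_Ioo, ← intervalIntegral.integral_of_le hv'.le]
      have h4 : ∫ u in (0:ℝ)..v, Real.exp (-(w * u)) = (1 - Real.exp (-(w * v))) / w := by
        have h5 : ∀ x ∈ uIcc 0 v, HasDerivAt (fun u : ℝ => -Real.exp (-(w * u)) / w)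
            (Real.exp (-(w * x))) x := by
          intro x _
          have h6 : HasDerivAt (fun u : ℝ => -(w * u)) (-w) x := by
            have h7 := (hasDerivAt_id x).const_mul (-w)
            simp only [mul_one] at h7
            refine h7.congr_of_eventuallyEq (Eventually.of_forall fun u => ?_)
            simp
          have h7 := (h6.exp.neg).div_const w
          refine h7.congr_deriv ?_
          field_simp
        rw [intervalIntegral.integral_eq_sub_of_hasDerivAt h5
          (Continuous.intervalIntegrable (by fun_prop) _ _)]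
        simp
        ring
      rw [h4]
      ring
    rw [setIntegral_congr_fun measurableSet_Ioi h3, integral_div]
    congr 1
    unfold D0 lap
    rw [← integral_sub dl_integrable (dl_LInt hw)]
  rw [← e1, hswap, e2]

end Pool.Agent.TH988.RB
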