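import Pool.Agent.TH988.RB.Om

/-! One-sided bounds for the integrated error term and zeros of the zeta function, part 2. -/

set_option autoImplicit false

namespace Pool.Agent.TH988.RB

open MeasureTheory ProbabilityTheory Filter Topology Set
open Pool.Agent.W263.BSD

lemma zeta1_real_ne {w : ℝ} (hw : -1 < w) : riemannZeta₁ (1 + (w : ℂ)) ≠ 0 := by
  rcases lt_trichotomy w 0 with h | h | h
  · have h1 := (Pool.Agent.H307R2.zeta_neg (x := 1 + w) (by linarith) (by linarith)).1
    have hne : ((1 + w : ℝ) : ℂ) ≠ 1 := by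
      intro h2
      have : (1 + w : ℝ) = 1 := by exact_mod_cast h2
      linarith
    have h2 : riemannZeta ((1 + w : ℝ) : ℂ) ≠ 0 := by
      intro h3
      rw [h3] at h1
      simp at h1
    rw [riemannZeta_eq_inv_sub_mul hne] at h2
    have h3 := right_ne_zero_of_mul h2
    simpa using h3
  · rw [h]
    simp [riemannZeta₁_one]
  · exact zeta1_ne (by simpa using h)

lemma Q_analyticAt {s : ℂ} (h : riemannZeta₁ (1 + s) ≠ 0) : AnalyticAt ℂ Q s := by
  have h1 : AnalyticAt ℂ (fun s : ℂ => riemannZeta₁ (1 + s)) s :=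
    (differentiable_riemannZeta₁.comp (differentiable_const (1:ℂ) |>.add differentiable_id)).analyticAt s
  have h2 : AnalyticAt ℂ (fun s : ℂ => deriv riemannZeta₁ (1 + s)) s := by
    have h3 : AnalyticAt ℂ (deriv riemannZeta₁) (1 + s) :=
      (differentiable_riemannZeta₁.analyticAt _).deriv
    exact h3.comp_of_eq (analyticAt_const.add analyticAt_id) rfl
  exact h2.div h1 h

/-- the continuation of the Laplace transform of `dl` -/
noncomputable def Dc (s : ℂ) : ℂ := -(Q s + 1) / (1 + s)

/-- its values on the real line -/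
noncomputable def Dr (w : ℝ) : ℝ := (Dc w).re

lemma Dr_analyticAt {w : ℝ} (hw : -1 < w) : AnalyticAt ℝ Dr w := by
  have h1 : AnalyticAt ℂ Dc (w : ℂ) := by
    unfold Dc
    refine (((Q_analyticAt (zeta1_real_ne hw)).add analyticAt_const).neg).div
      (analyticAt_const.add analyticAt_id) ?_
    intro h
    have h2 := congrArg Complex.re h
    simp at h2
    linarith
  exact h1.re_ofReal

lemma Dc_real {w : ℝ} (hw : 0 < w) : Dc w = ((lap dl w : ℝ) : ℂ) := by
  rw [← lapC_ofReal, lapC_dl (by simpa using hw)]
  rfl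

lemma Dr_eq {w : ℝ} (hw : 0 < w) : Dr w = lap dl w := by
  unfold Dr
  rw [Dc_real hw, Complex.ofReal_re]

lemma Dr_zero : Dr 0 = D0 := by
  have h1 : Tendsto (fun w : ℝ => lap dl w) (𝓝[>] 0) (𝓝 D0) := by
    unfold lap D0
    have e : (∫ v in Ioi (0:ℝ), dl v) = ∫ v in Ioi (0:ℝ), dl v * Real.exp (-((0:ℝ) * v)) := by
      simp
    rw [e]
    refine tendsto_integral_filter_of_dominated_convergence (fun v => |dl v|) ?_ ?_
      dl_integrable.abs ?_
    · exact Eventually.of_forall fun w => (dl_measurable.mul (by fun_prop)).aestronglyMeasurable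
    · filter_upwards [self_mem_nhdsWithin] with w hw
      have hw' : (0:ℝ) < w := hw
      refine (ae_restrict_iff' measurableSet_Ioi).mpr (Eventually.of_forall fun v hv => ?_)
      have hv' : (0:ℝ) < v := hv
      rw [norm_mul, Real.norm_eq_abs, Real.norm_of_nonneg (Real.exp_pos _).le]
      refine mul_le_of_le_one_right (abs_nonneg _) (Real.exp_le_one_iff.2 ?_)
      have : 0 < w * v := mul_pos hw' hv'
      linarith
    · refine Eventually.of_forall fun v => ?_
      have : Continuous fun w : ℝ => dl v * Real.exp (-(w * v)) := by fun_prop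
      exact (this.tendsto 0).mono_left nhdsWithin_le_nhds
  have h2 : Tendsto Dr (𝓝[>] 0) (𝓝 (Dr 0)) :=
    ((Dr_analyticAt (w := 0) (by norm_num)).continuousAt.tendsto).mono_left nhdsWithin_le_nhds
  refine tendsto_nhds_unique h2 (h1.congr' ?_)
  filter_upwards [self_mem_nhdsWithin] with w hw
  exact (Dr_eq hw).symm

/-- the continuation of the Laplace transform of `i1` -/
noncomputable def gr (w : ℝ) : ℝ := -dslope Dr 0 w

lemma gr_analyticAt {w : ℝ} (hw : -1 < w) : AnalyticAt ℝ gr w := by
  unfold gr
  apply AnalyticAt.neg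
  by_cases h : w = 0
  · rw [h]
    obtain ⟨p, hp⟩ := Dr_analyticAt (w := 0) (by norm_num)
    exact ⟨_, hp.has_fpower_series_dslope_fslope⟩
  · have h1 : AnalyticAt ℝ (fun w => (Dr w - Dr 0) / (w - 0)) w :=
      ((Dr_analyticAt hw).sub analyticAt_const).div (analyticAt_id.sub analyticAt_const)
        (by simpa using h)
    refine h1.congr ?_
    filter_upwards [isOpen_ne.mem_nhds h] with v hv
    have hv' : v ≠ 0 := hv
    rw [dslope_of_ne _ hv', slope_def_field]

lemma lap_i1' {w : ℝ} (hw : 0 < w) : lap i1 w = gr w := by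
  unfold gr
  rw [lap_i1 hw, dslope_of_ne _ hw.ne', slope_def_field, Dr_eq hw, Dr_zero]
  ring

lemma exp_LInt {κ w : ℝ} (h : 0 < w + κ) : LInt (fun u => Real.exp (-(κ * u))) w := by
  unfold LInt
  have := integrableOn_exp_mul_Ioi (a := -(w + κ)) (by linarith) 0
  refine this.congr (Eventually.of_forall fun u => ?_)
  simp only [← Real.exp_add]
  congr 1
  ring

lemma exp_lap {κ w : ℝ} (h : 0 < w + κ) : lap (fun u => Real.exp (-(κ * u))) w = 1 / (w + κ) := by
  unfold lap
  have h1 := integral_exp_mul_Ioi (a := -(w + κ)) (by linarith) 0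
  have e : (fun u : ℝ => Real.exp (-(κ * u)) * Real.exp (-(w * u))) =
      fun x : ℝ => Real.exp (-(w + κ) * x) := by
    funext u
    rw [← Real.exp_add]
    congr 1
    ring
  rw [e, h1, mul_zero, Real.exp_zero, neg_div_neg_eq]

/-- a one-sided bound for the integrated error term gives a zero-free half-plane -/
theorem free_of_i1 {κ : ℝ} (hκ0 : 0 < κ) (hκ1 : κ < 1) {C U : ℝ}
    (h : ∀ u, U ≤ u → -(C * Real.exp (-(κ * u))) ≤ i1 u) :
    ∀ s : ℂ, -κ < s.re → riemannZeta₁ (1 + s) ≠ 0 := by
  obtain ⟨B, hB, hb⟩ := i1_bound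
  set C' : ℝ := |C| + B * Real.exp (κ * |U|) with hC'
  set f : ℝ → ℝ := fun u => i1 u + C' * Real.exp (-(κ * u)) with hf
  have hfm : Measurable f := i1_continuous.measurable.add (by fun_prop)
  have hf0 : ∀ u, 0 < u → 0 ≤ f u := by
    intro u hu
    have he := Real.exp_pos (-(κ * u))
    by_cases hU : U ≤ u
    · have h1 := h u hU
      have h2 : C * Real.exp (-(κ * u)) ≤ |C| * Real.exp (-(κ * u)) :=
        mul_le_mul_of_nonneg_right (le_abs_self _) he.le
      have h3 : 0 ≤ B * Real.exp (κ * |U|) * Real.exp (-(κ * u)) := by positivity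
      simp only [hf, hC']
      nlinarith
    · have hU' : u < |U| := (not_le.1 hU).trans_le (le_abs_self _)
      have h1 := hb u hu.le
      have h2 : 1 ≤ Real.exp (κ * |U|) * Real.exp (-(κ * u)) := by
        rw [← Real.exp_add]
        apply Real.one_le_exp
        nlinarith
      have h3 : B ≤ B * (Real.exp (κ * |U|) * Real.exp (-(κ * u))) :=
        le_mul_of_one_le_right hB.le h2
      have h4 : 0 ≤ |C| * Real.exp (-(κ * u)) := by positivity
      have h5 := neg_abs_le (i1 u)
      simp only [hf, hC']
      nlinarith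
  have hL0 : ∀ w > 0, LInt f w := fun w hw =>
    (i1_LInt hw).add ((exp_LInt (by linarith)).const_mul C')
  have hlap : ∀ w > 0, lap f w = gr w + C' / (w + κ) := by
    intro w hw
    rw [hf, lap_add (i1_LInt hw) ((exp_LInt (by linarith)).const_mul C'), lap_const_mul,
      exp_lap (by linarith), lap_i1' hw]
    ring
  obtain ⟨hL, hlap'⟩ := landau_lap hfm hf0 (a := -κ) (w1 := 0) hL0 (g := fun w => gr w + C' / (w + κ))
    (fun w hw => (gr_analyticAt (by linarith)).add
      (analyticAt_const.div (analyticAt_id.add analyticAt_const) (by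
        have : 0 < w + κ := by linarith
        exact this.ne')))
    (fun w hw _ => hlap w hw)
  -- the complex identity
  set V : Set ℂ := {s : ℂ | -κ < s.re} with hV
  have hVo : IsOpen V := isOpen_lt continuous_const Complex.continuous_re
  have hVc : IsPreconnected V := (convex_halfSpace_re_gt (-κ)).isPreconnected
  have hW : DifferentiableOn ℂ (lapC f) V := fun s hs =>
    (lapC_differentiableAt_pos hfm hf0 hL hs).differentiableWithinAt
  set G : ℂ → ℂ := fun s => -1 - (1 + s) * (D0 - s * (lapC f s - C' / (s + κ))) with hG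
  have hGd : DifferentiableOn ℂ G V := by
    have h1 : DifferentiableOn ℂ (fun s : ℂ => (C' : ℂ) / (s + κ)) V := by
      intro s hs
      have hne : s + κ ≠ 0 := by
        intro h2
        have h3 := congrArg Complex.re h2
        simp at h3
        have hs' : -κ < s.re := hs
        linarith
      exact ((differentiableAt_const (C' : ℂ)).div
        (differentiableAt_id.add (differentiableAt_const (κ : ℂ))) hne).differentiableWithinAt
    exact (differentiableOn_const _).sub (((differentiableOn_const _).add differentiableOn_id).mul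
      ((differentiableOn_const _).sub (differentiableOn_id.mul (hW.sub h1))))
  have hGa : AnalyticOnNhd ℂ G V := hGd.analyticOnNhd hVo
  set hh : ℂ → ℂ := fun s => riemannZeta₁ (1 + s) with hhh
  have hha : ∀ s, AnalyticAt ℂ hh s := fun s =>
    (differentiable_riemannZeta₁.comp (differentiable_const (1:ℂ) |>.add differentiable_id)).analyticAt s
  have hder : ∀ s, deriv hh s = deriv riemannZeta₁ (1 + s) := by
    intro s
    have h1 : HasDerivAt hh (deriv riemannZeta₁ (1 + s)) s := by
      have h2 := (differentiable_riemannZeta₁ (1 + s)).hasDerivAt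
      have h3 : HasDerivAt (fun s : ℂ => 1 + s) 1 s := (hasDerivAt_id s).const_add 1
      have h4 := h2.comp s h3
      rw [mul_one] at h4
      exact h4
    exact h1.deriv
  have hid : EqOn (deriv hh) (fun s => G s * hh s) V := by
    refine AnalyticOnNhd.eqOn_of_preconnected_of_frequently_eq (z₀ := 1)
      (fun s _ => (hha s).deriv) (fun s hs => (hGa s hs).mul (hha s)) hVc
      (by show -κ < (1:ℂ).re; simp; linarith) ?_
    have hseq : Tendsto (fun n : ℕ => ((1 + 1 / ((n:ℝ) + 1) : ℝ) : ℂ)) atTop (𝓝[≠] 1) := by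
      rw [tendsto_nhdsWithin_iff]
      constructor
      · have h1 : Tendsto (fun n : ℕ => (1 + 1 / ((n:ℝ) + 1) : ℝ)) atTop (𝓝 (1 + 0)) :=
          tendsto_const_nhds.add tendsto_one_div_add_atTop_nhds_zero_nat
        have h2 := (Complex.continuous_ofReal.tendsto _).comp h1
        rw [add_zero, Complex.ofReal_one] at h2
        exact h2
      · refine Eventually.of_forall fun n => ?_
        intro h2
        have h2' : ((1 + 1 / ((n:ℝ) + 1) : ℝ) : ℂ) = 1 := h2
        have h3 : (1 + 1 / ((n:ℝ) + 1) : ℝ) = 1 := by exact_mod_cast h2'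
        have h4 : 0 < 1 / ((n:ℝ) + 1) := by positivity
        linarith
    refine hseq.frequently (Eventually.frequently (Eventually.of_forall fun n => ?_))
    set w : ℝ := 1 + 1 / ((n:ℝ) + 1) with hw
    have hw0 : 0 < w := by positivity
    have hwc : (w : ℂ) ≠ 0 := by exact_mod_cast hw0.ne'
    have hwc1 : (1 + (w : ℂ)) ≠ 0 := by
      have : (0:ℝ) < 1 + w := by linarith
      exact_mod_cast this.ne'
    have h1 : lapC f w = (gr w + C' / (w + κ) : ℝ) := by
      rw [lapC_ofReal, hlap w hw0]
    have h2 : ((gr w : ℝ) : ℂ) = (D0 - Dc w) / w := by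
      rw [← lap_i1' hw0, lap_i1 hw0, Dc_real hw0]
      push_cast
      rfl
    have h3 : G w = Q w := by
      simp only [hG]
      rw [h1]
      push_cast
      rw [h2, add_sub_cancel_right, mul_div_cancel₀ _ hwc]
      unfold Dc
      field_simp
      ring
    rw [hder, h3]
    unfold Q
    simp only [hhh]
    rw [div_mul_cancel₀ _ (zeta1_ne (by simpa using hw0))]
  -- no zeros
  intro s hs h0
  have hs' : s ∈ V := hs
  have h1 := (hha s).analyticOrderAt_deriv_add_one
  have e1 : (fun z => hh z - hh s) = hh := by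
    funext z
    simp only [hhh]
    rw [h0, sub_zero]
  rw [e1] at h1
  have h2 : analyticOrderAt (deriv hh) s = analyticOrderAt G s + analyticOrderAt hh s := by
    have h3 : deriv hh =ᶠ[𝓝 s] fun z => G z * hh z := hid.eventuallyEq_of_mem (hVo.mem_nhds hs')
    rw [analyticOrderAt_congr h3]
    exact analyticOrderAt_mul (hGa s hs') (hha s)
  have h3 : analyticOrderAt hh s = ⊤ := by
    by_contra hne
    rw [h2] at h1
    have h4 : analyticOrderAt hh s + 1 ≤ analyticOrderAt hh s := by
      calc analyticOrderAt hh s + 1 ≤ analyticOrderAt G s + analyticOrderAt hh s + 1 := by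
            gcongr
            exact le_add_self
        _ = analyticOrderAt hh s := h1
    exact absurd h4 (not_le.2 (ENat.lt_add_one_iff hne |>.2 le_rfl))
  rw [analyticOrderAt_eq_top] at h3
  have h4 : AnalyticOnNhd ℂ hh univ := fun z _ => hha z
  have h5 := h4.eqOn_of_preconnected_of_eventuallyEq (analyticOnNhd_const (v := 0))
    isPreconnected_univ (mem_univ s) h3
  have h6 := h5 (mem_univ 0)
  simp [hhh, riemannZeta₁_one] at h6

end Pool.Agent.TH988.RB
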