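import Pool.Agent.TH988.RB.Om2

/-! One-sided bounds for the integrated error term and zeros of the zeta function, part 3. -/

set_option autoImplicit false

namespace Pool.Agent.TH988.RB

open MeasureTheory ProbabilityTheory Filter Topology Set
open Pool.Agent.W263.BSD

/-- the integrated error term is not bounded below by `c e^{-κ u}`, `κ < 1` -/
theorem not_i1 {κ c U : ℝ} (hκ0 : 0 < κ) (hκ1 : κ < 1) (hc : 0 < c)
    (h : ∀ u, U ≤ u → c * Real.exp (-(κ * u)) ≤ i1 u) : False := by
  obtain ⟨B, hB, hb⟩ := i1_bound
  set C' : ℝ := (B + c) * Real.exp |U| with hC'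
  have hC'0 : 0 ≤ C' := by positivity
  set f : ℝ → ℝ := fun u => (i1 u + (-c) * Real.exp (-(κ * u))) + C' * Real.exp (-(1 * u)) with hf
  have hfm : Measurable f := (i1_continuous.measurable.add (by fun_prop)).add (by fun_prop)
  have hf0 : ∀ u, 0 < u → 0 ≤ f u := by
    intro u hu
    have he := Real.exp_pos (-(1 * u))
    by_cases hU : U ≤ u
    · have h1 := h u hU
      have h3 : 0 ≤ C' * Real.exp (-(1 * u)) := by positivity
      simp only [hf]
      linarith
    · have hU' : u < |U| := (not_le.1 hU).trans_le (le_abs_self _)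
      have h1 := hb u hu.le
      have h2 : 1 ≤ Real.exp |U| * Real.exp (-(1 * u)) := by
        rw [← Real.exp_add]
        apply Real.one_le_exp
        linarith
      have h3 : B + c ≤ (B + c) * (Real.exp |U| * Real.exp (-(1 * u))) :=
        le_mul_of_one_le_right (by positivity) h2
      have h4 : Real.exp (-(κ * u)) ≤ 1 := by
        rw [Real.exp_le_one_iff]
        have : 0 < κ * u := mul_pos hκ0 hu
        linarith
      have h5 := neg_abs_le (i1 u)
      have h6 : c * Real.exp (-(κ * u)) ≤ c := mul_le_of_le_one_right hc.le h4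
      simp only [hf, hC']
      nlinarith
  have hL0 : ∀ w > 0, LInt f w := fun w hw =>
    ((i1_LInt hw).add ((exp_LInt (by linarith)).const_mul (-c))).add
      ((exp_LInt (by linarith)).const_mul C')
  have hlap : ∀ w > 0, lap f w = (gr w + (-c) / (w + κ)) + C' / (w + 1) := by
    intro w hw
    rw [hf, lap_add ((i1_LInt hw).add ((exp_LInt (by linarith)).const_mul (-c)))
      ((exp_LInt (by linarith)).const_mul C'),
      lap_add (i1_LInt hw) ((exp_LInt (by linarith)).const_mul (-c)), lap_const_mul, lap_const_mul,
      exp_lap (by linarith), exp_lap (by linarith), lap_i1' hw]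
    ring
  obtain ⟨hL, hlap'⟩ := landau_lap hfm hf0 (a := -κ) (w1 := 0) hL0
    (g := fun w => (gr w + (-c) / (w + κ)) + C' / (w + 1))
    (fun w hw => ((gr_analyticAt (by linarith)).add
      (analyticAt_const.div (analyticAt_id.add analyticAt_const) (by
        have : 0 < w + κ := by linarith
        exact this.ne'))).add (analyticAt_const.div (analyticAt_id.add analyticAt_const) (by
        have : 0 < w + 1 := by linarith
        exact this.ne')))
    (fun w hw _ => hlap w hw)
  have hcont : ContinuousAt gr (-κ) := (gr_analyticAt (by linarith)).continuousAt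
  obtain ⟨δ, hδ, hδ'⟩ := Metric.continuousAt_iff.1 hcont 1 one_pos
  set M : ℝ := |gr (-κ)| + 1 + C' / (1 - κ) with hM
  have h1κ : 0 < 1 - κ := by linarith
  have hM0 : 0 < M := by positivity
  set t : ℝ := min (δ / 2) (c / (2 * M)) with ht
  have ht0 : 0 < t := lt_min (by positivity) (by positivity)
  have ht1 : t < δ := (min_le_left _ _).trans_lt (by linarith)
  have ht2 : t ≤ c / (2 * M) := min_le_right _ _
  have h1 := hlap' (-κ + t) (by linarith)
  have h2 := lap_nonneg hf0 (-κ + t)
  rw [h1] at h2
  have h3 := hδ' (x := -κ + t) (by rw [Real.dist_eq]; simp [abs_of_pos ht0]; exact ht1)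
  rw [Real.dist_eq] at h3
  have h4 := (abs_lt.1 h3).2
  have h5 := le_abs_self (gr (-κ))
  have h6 : C' / (-κ + t + 1) ≤ C' / (1 - κ) := by
    apply div_le_div_of_nonneg_left hC'0 h1κ
    linarith
  have h7 : 2 * M ≤ c / t := by
    rw [le_div_iff₀ ht0]
    rw [le_div_iff₀ (by positivity)] at ht2
    linarith
  have h8 : -c / (-κ + t + κ) = -(c / t) := by
    rw [show -κ + t + κ = t by ring, neg_div]
  rw [h8] at h2
  linarith

end Pool.Agent.TH988.RB
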