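import Pool.Agent.TH988.RB.Jt

/-! Oscillation of the weighted integral of the error term. -/

set_option autoImplicit false

namespace Pool.Agent.TH988.RB

open MeasureTheory ProbabilityTheory Filter Topology Set
open Pool.Agent.W263.BSD

/-- a zero with real part `> θ` forces large values of `jt` -/
theorem omega_jt {θ : ℝ} (hθ0 : 0 < θ) (hz : ∃ s : ℂ, riemannZeta s = 0 ∧ θ < s.re) (c : ℝ) :
    ∃ᶠ u : ℝ in atTop, c * Real.exp (-((1 - θ) * u)) < jt u := by
  by_contra hcon
  rw [not_frequently] at hcon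
  obtain ⟨s, hs, hsθ⟩ := hz
  have hs1 : s.re < 1 := by
    by_contra h
    exact riemannZeta_ne_zero_of_one_le_re (not_lt.1 h) hs
  obtain ⟨U, hU⟩ := eventually_atTop.1 hcon
  have h1 : ∀ u, U ≤ u → jt u ≤ |c| * Real.exp (-((1 - θ) * u)) := by
    intro u hu
    refine (not_lt.1 (hU u hu)).trans ?_
    exact mul_le_mul_of_nonneg_right (le_abs_self c) (Real.exp_pos _).le
  set κ' : ℝ := ((1 - s.re) + (1 - θ)) / 2 with hκ'
  obtain ⟨C, U', h2⟩ := i1_of_jt (κ := 1 - θ) (κ' := κ') (by linarith) (by linarith) (abs_nonneg c) h1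
  have h3 := free_of_i1 (κ := κ') (by linarith) (by linarith) h2 (s - 1) (by
    simp only [Complex.sub_re, Complex.one_re]; linarith)
  apply h3
  have hne : s ≠ 1 := by
    intro h
    rw [h] at hs1
    simp at hs1
  rw [add_sub_cancel]
  rw [riemannZeta_eq_inv_sub_mul hne] at hs
  rcases mul_eq_zero.1 hs with h | h
  · exact absurd (inv_eq_zero.1 h) (sub_ne_zero.2 hne)
  · exact h

/-- unconditionally, `jt` is not smaller than `-c e^{-κ u}` -/
theorem omega_jt_half {κ c : ℝ} (hκ0 : 0 < κ) (hκ1 : κ < 1) (hc : 0 < c) :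
    ∃ᶠ u : ℝ in atTop, -(c * Real.exp (-(κ * u))) < jt u := by
  by_contra hcon
  rw [not_frequently] at hcon
  obtain ⟨U, hU⟩ := eventually_atTop.1 hcon
  obtain ⟨U', h2⟩ := i1_of_jt_neg (κ := κ) hc (fun u hu => not_lt.1 (hU u hu))
  exact not_i1 hκ0 hκ1 (by positivity) h2

end Pool.Agent.TH988.RB
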