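import Pool.Agent.TH988.RB.Ar

/-! Losses at the primes for the Euler function. -/

set_option autoImplicit false

namespace Pool.Agent.TH988.RB

open Filter Topology Finset

/-- `-log (1 - 1/p)` -/
noncomputable def gp (p : ℕ) : ℝ := -Real.log (1 - (p : ℝ)⁻¹)

/-- `1 / (m log m)` -/
noncomputable def ep (m : ℕ) : ℝ := 1 / (m * Real.log m)

/-- the loss at the prime `p` if the exponent is `e` -/
noncomputable def ls (m p e : ℕ) : ℝ := (if p ≤ m then gp p - ep m * Real.log p else 0) -
  (if e = 0 then 0 else gp p) + e * (ep m * Real.log p)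

lemma gp_lo {p : ℕ} (hp : p.Prime) : 1 / (p : ℝ) ≤ gp p := by
  obtain ⟨h1, h2⟩ := inv_prime hp
  unfold gp
  have h3 := Real.log_le_sub_one_of_pos (show 0 < 1 - (p : ℝ)⁻¹ by linarith)
  rw [one_div]
  linarith

lemma gp_hi {p : ℕ} (hp : p.Prime) : gp p ≤ 1 / ((p : ℝ) - 1) := by
  have hp2 : (2:ℝ) ≤ p := by exact_mod_cast hp.two_le
  have h0 : 0 < (p:ℝ) - 1 := by linarith
  unfold gp
  rw [← Real.log_inv]
  have e : (1 - (p : ℝ)⁻¹)⁻¹ = 1 + 1 / ((p:ℝ) - 1) := by
    have h3 : (1 - (p : ℝ)⁻¹) = (p - 1) / p := by field_simp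
    rw [h3, inv_div]
    field_simp
    ring
  rw [e]
  have h3 := Real.log_le_sub_one_of_pos (show 0 < 1 + 1 / ((p:ℝ) - 1) by positivity)
  linarith

lemma gp_nonneg {p : ℕ} (hp : p.Prime) : 0 ≤ gp p := by
  refine le_trans ?_ (gp_lo hp)
  positivity

lemma ep_pos {m : ℕ} (hm : 2 ≤ m) : 0 < ep m := by
  have h2 : (2:ℝ) ≤ m := by exact_mod_cast hm
  have : 0 < Real.log m := Real.log_pos (by linarith)
  unfold ep
  positivity

lemma ep_log {m : ℕ} (hm : 2 ≤ m) : ep m * Real.log m = 1 / m := by
  have h2 : (2:ℝ) ≤ m := by exact_mod_cast hm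
  have : 0 < Real.log m := Real.log_pos (by linarith)
  unfold ep
  field_simp

/-- geometric sum -/
lemma geo_sum {T : ℝ} (hT : 0 < T) (n : ℕ) : ∑ j ∈ range n, Real.exp (-((j:ℝ) / T)) ≤ 1 + T := by
  set r : ℝ := Real.exp (-(1 / T)) with hr
  have hr0 : 0 < r := Real.exp_pos _
  have hr1 : r < 1 := by
    rw [hr, Real.exp_lt_one_iff]
    have : 0 < 1 / T := by positivity
    linarith
  have e : ∀ j : ℕ, Real.exp (-((j:ℝ) / T)) = r ^ j := by
    intro j
    rw [hr, ← Real.exp_nat_mul]
    congr 1
    ring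
  simp only [e]
  calc ∑ j ∈ range n, r ^ j ≤ ∑' j : ℕ, r ^ j :=
        (summable_geometric_of_lt_one hr0.le hr1).sum_le_tsum _ (fun i _ => by positivity)
    _ = (1 - r)⁻¹ := tsum_geometric_of_lt_one hr0.le hr1
    _ ≤ 1 + T := by
        have h1 := Real.add_one_le_exp (1 / T)
        have h2 : r * Real.exp (1 / T) = 1 := by rw [hr, ← Real.exp_add]; simp
        rw [inv_le_comm₀ (by linarith) (by positivity)]
        have h3 : r * (1 / T + 1) ≤ 1 := by
          calc r * (1 / T + 1) ≤ r * Real.exp (1 / T) := by gcongr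
            _ = 1 := h2
        have h4 : r * (1 + T) ≤ T := by
          have : r * (1 + T) = T * (r * (1 / T + 1)) := by field_simp
          rw [this]
          nlinarith
        rw [inv_eq_one_div, div_le_iff₀ (by positivity)]
        nlinarith

/-- the local bound -/
noncomputable def hb (m : ℕ) (T E δ : ℝ) (p : ℕ) : ℝ :=
  if p ≤ m then Real.exp (-(((m:ℝ) - p) / T)) + E * δ
  else if p ≤ 2 * m then 2 * Real.exp (-(((p:ℝ) - 1 - m) / (2 * T)))
  else 2 * ((p:ℝ) ^ 2)⁻¹

/-- the local factor -/
lemma local_factor {m : ℕ} (hm : 2 ≤ m) {T : ℝ} (hT : 0 < T) (E : ℕ)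
    (hD : 4 * Real.log m ≤ m / T)
    (hE : (E:ℝ) * Real.exp (-(Real.log 2 * (m / (T * Real.log m)))) ≤ 1) {p : ℕ} (hp : p.Prime) :
    ∑ e ∈ range (E + 2), Real.exp (-((m:ℝ) ^ 2 / T * ls m p e)) ≤
      Real.exp (hb m T E (Real.exp (-(Real.log 2 * (m / (T * Real.log m))))) p) := by
  have hm2 : (2:ℝ) ≤ m := by exact_mod_cast hm
  have hm0 : (0:ℝ) < m := by linarith
  have hlm : 0 < Real.log m := Real.log_pos (by linarith)
  have hp2 : (2:ℝ) ≤ p := by exact_mod_cast hp.two_le
  have hp0 : (0:ℝ) < p := by linarith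
  have hl2 : 0 < Real.log 2 := Real.log_pos (by norm_num)
  have hlp : Real.log 2 ≤ Real.log p := Real.log_le_log (by norm_num) hp2
  have hlp0 : 0 < Real.log p := hl2.trans_le hlp
  have hep := ep_pos hm
  set l : ℝ := (m:ℝ) ^ 2 / T with hl
  have hl0 : 0 < l := by positivity
  set D : ℝ := m / (T * Real.log m) with hDd
  have hlep : l * ep m = D := by
    rw [hl, hDd]; unfold ep; field_simp
  have hD4 : 4 ≤ D := by
    rw [hDd, ← div_div, le_div_iff₀ hlm]
    exact hD
  set δ : ℝ := Real.exp (-(Real.log 2 * D)) with hδ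
  have hδ0 : 0 < δ := Real.exp_pos _
  rw [sum_range_succ', sum_range_succ']
  by_cases h1 : p ≤ m
  · have h1' : (p:ℝ) ≤ m := by exact_mod_cast h1
    have t0 : Real.exp (-(l * ls m p 0)) ≤ Real.exp (-(((m:ℝ) - p) / T)) := by
      apply Real.exp_le_exp.2
      unfold ls
      rw [if_pos h1, if_pos rfl]
      have h2 := gp_lo hp
      have h3 : ep m * Real.log p ≤ 1 / m := by
        rw [← ep_log hm]
        have := Real.log_le_log hp0 h1'
        gcongr
      have h4 : ((m:ℝ) - p) / m ^ 2 ≤ gp p - ep m * Real.log p := by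
        have h5 : ((m:ℝ) - p) / m ^ 2 ≤ 1 / p - 1 / m := by
          rw [div_sub_div _ _ hp0.ne' hm0.ne', div_le_div_iff₀ (by positivity) (by positivity)]
          have h6 : 0 ≤ (m:ℝ) - p := by linarith
          nlinarith [mul_nonneg (mul_nonneg h6 hm0.le) h6]
        linarith
      have h5 : ((m:ℝ) - p) / T ≤ l * (gp p - ep m * Real.log p) := by
        calc ((m:ℝ) - p) / T = l * (((m:ℝ) - p) / m ^ 2) := by rw [hl]; field_simp
          _ ≤ _ := by gcongr
      push_cast
      linarith
    have t1 : Real.exp (-(l * ls m p (0 + 1))) = 1 := by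
      have : ls m p (0 + 1) = 0 := by
        unfold ls
        rw [if_pos h1, if_neg (by norm_num)]
        push_cast
        ring
      rw [this, mul_zero, neg_zero, Real.exp_zero]
    have t2 : ∑ e ∈ range E, Real.exp (-(l * ls m p (e + 1 + 1))) ≤ E * δ := by
      calc ∑ e ∈ range E, Real.exp (-(l * ls m p (e + 1 + 1))) ≤ ∑ e ∈ range E, δ := by
            refine sum_le_sum fun e _ => ?_
            apply Real.exp_le_exp.2
            unfold ls
            rw [if_pos h1, if_neg (by omega)]
            push_cast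
            have h5 : l * (gp p - ep m * Real.log p - gp p + (((e:ℝ) + 1 + 1) * (ep m * Real.log p))) =
                (e + 1) * (D * Real.log p) := by rw [← hlep]; ring
            rw [h5]
            have h6 : (0:ℝ) ≤ e := Nat.cast_nonneg e
            have h7 : Real.log 2 * D ≤ D * Real.log p := by
              rw [mul_comm]; gcongr
            have h8 : 0 < D * Real.log p := by positivity
            nlinarith
        _ = E * δ := by simp
    have h9 := Real.add_one_le_exp (Real.exp (-(((m:ℝ) - p) / T)) + E * δ)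
    unfold hb
    rw [if_pos h1]
    linarith
  · have h1' : (m:ℝ) + 1 ≤ p := by exact_mod_cast not_le.1 h1
    set ω : ℝ := Real.exp (-(l * (ep m * Real.log p - gp p))) with hω
    have hω0 : 0 < ω := Real.exp_pos _
    have t0 : Real.exp (-(l * ls m p 0)) = 1 := by
      have : ls m p 0 = 0 := by
        unfold ls
        rw [if_neg h1, if_pos rfl]
        push_cast
        ring
      rw [this, mul_zero, neg_zero, Real.exp_zero]
    have t1 : Real.exp (-(l * ls m p (0 + 1))) = ω := by
      rw [hω]
      congr 3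
      unfold ls
      rw [if_neg h1, if_neg (by norm_num)]
      push_cast
      ring
    have t2 : ∑ e ∈ range E, Real.exp (-(l * ls m p (e + 1 + 1))) ≤ E * (ω * δ) := by
      calc ∑ e ∈ range E, Real.exp (-(l * ls m p (e + 1 + 1))) ≤ ∑ e ∈ range E, (ω * δ) := by
            refine sum_le_sum fun e _ => ?_
            rw [hω, hδ, ← Real.exp_add]
            apply Real.exp_le_exp.2
            unfold ls
            rw [if_neg h1, if_neg (by omega)]
            push_cast
            have h5 : l * (0 - gp p + (((e:ℝ) + 1 + 1) * (ep m * Real.log p))) =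
                l * (ep m * Real.log p - gp p) + (e + 1) * (D * Real.log p) := by rw [← hlep]; ring
            rw [h5]
            have h6 : (0:ℝ) ≤ e := Nat.cast_nonneg e
            have h7 : Real.log 2 * D ≤ D * Real.log p := by
              rw [mul_comm]; gcongr
            have h8 : 0 < D * Real.log p := by positivity
            nlinarith
        _ = E * (ω * δ) := by simp
    have t3 : (E:ℝ) * (ω * δ) ≤ ω := by
      calc (E:ℝ) * (ω * δ) = ω * (E * δ) := by ring
        _ ≤ ω * 1 := by gcongr
        _ = ω := mul_one _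
    have h9 := Real.add_one_le_exp (2 * ω)
    have hgp := gp_hi hp
    have hp1 : 0 < (p:ℝ) - 1 := by linarith
    unfold hb
    rw [if_neg h1]
    by_cases h2 : p ≤ 2 * m
    · rw [if_pos h2]
      have h2' : (p:ℝ) ≤ 2 * m := by exact_mod_cast h2
      have h3 : ω ≤ Real.exp (-(((p:ℝ) - 1 - m) / (2 * T))) := by
        apply Real.exp_le_exp.2
        have h4 : 1 / (m:ℝ) ≤ ep m * Real.log p := by
          rw [← ep_log hm]
          have := Real.log_le_log hm0 (show (m:ℝ) ≤ p by linarith)
          gcongr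
        have h5 : ((p:ℝ) - 1 - m) / (2 * m ^ 2) ≤ 1 / m - 1 / ((p:ℝ) - 1) := by
          rw [div_sub_div _ _ hm0.ne' hp1.ne', div_le_div_iff₀ (by positivity) (by positivity)]
          have h6 : 0 ≤ (p:ℝ) - 1 - m := by linarith
          have h7 : 0 ≤ 2 * (m:ℝ) - (p - 1) := by linarith
          nlinarith [mul_nonneg (mul_nonneg h6 hm0.le) h7]
        have h6 : ((p:ℝ) - 1 - m) / (2 * T) ≤ l * (ep m * Real.log p - gp p) := by
          calc ((p:ℝ) - 1 - m) / (2 * T) = l * (((p:ℝ) - 1 - m) / (2 * m ^ 2)) := by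
                rw [hl]; field_simp
            _ ≤ _ := by
                gcongr
                linarith
        linarith
      have h10 : Real.exp (2 * ω) ≤ Real.exp (2 * Real.exp (-(((p:ℝ) - 1 - m) / (2 * T)))) := by
        apply Real.exp_le_exp.2; linarith
      linarith
    · rw [if_neg h2]
      have h2' : 2 * (m:ℝ) + 1 ≤ p := by exact_mod_cast not_le.1 h2
      have h3 : ω ≤ ((p:ℝ) ^ 2)⁻¹ := by
        have h4 : Real.exp (-(2 * Real.log p)) = ((p:ℝ) ^ 2)⁻¹ := by
          rw [Real.exp_neg, show 2 * Real.log p = Real.log ((p:ℝ) ^ 2) by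
            rw [Real.log_pow]; push_cast; ring, Real.exp_log (by positivity)]
        rw [← h4]
        apply Real.exp_le_exp.2
        have h5 : ep m * Real.log p / 2 ≤ ep m * Real.log p - gp p := by
          have h6 : 1 / ((p:ℝ) - 1) ≤ 1 / (2 * m) := by
            apply one_div_le_one_div_of_le (by positivity)
            linarith
          have h7 : 1 / (2 * (m:ℝ)) ≤ ep m * Real.log p / 2 := by
            have h8 : 1 / (m:ℝ) ≤ ep m * Real.log p := by
              rw [← ep_log hm]
              have := Real.log_le_log hm0 (show (m:ℝ) ≤ p by linarith)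
              gcongr
            have e : 1 / (2 * (m:ℝ)) = 1 / m / 2 := by field_simp
            rw [e]
            linarith
          linarith
        have h6 : l * (ep m * Real.log p / 2) = D * Real.log p / 2 := by rw [← hlep]; ring
        have h7 : l * (ep m * Real.log p / 2) ≤ l * (ep m * Real.log p - gp p) := by gcongr
        nlinarith
      have h10 : Real.exp (2 * ω) ≤ Real.exp (2 * ((p:ℝ) ^ 2)⁻¹) := by
        apply Real.exp_le_exp.2; linarith
      linarith

end Pool.Agent.TH988.RB
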