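import Pool.Agent.TH988.RB.Up1

/-! Rankin's method: few integers have a small total loss. -/

set_option autoImplicit false

namespace Pool.Agent.TH988.RB

open Filter Topology Finset

lemma sum_le_range {S : Finset ℕ} {φ : ℕ → ℕ} {n : ℕ} (hφ : ∀ p ∈ S, φ p < n)
    (hinj : Set.InjOn φ S) {f : ℕ → ℝ} (hf : ∀ j, 0 ≤ f j) :
    ∑ p ∈ S, f (φ p) ≤ ∑ j ∈ range n, f j := by
  rw [← sum_image hinj]
  refine sum_le_sum_of_subset_of_nonneg ?_ fun j _ _ => hf j
  intro j hj
  obtain ⟨p, hp, rfl⟩ := mem_image.1 hj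
  exact mem_range.2 (hφ p hp)

lemma sum_hb {m : ℕ} {T δ : ℝ} (hT : 1 ≤ T) (E X : ℕ) (hδ : 0 < δ) (hE : (m:ℝ) * (E * δ) ≤ 1) :
    ∑ p ∈ prs X, hb m T E δ p ≤ 11 * T := by
  have hT0 : 0 < T := by linarith
  have hEδ : 0 ≤ (E:ℝ) * δ := by positivity
  rw [← sum_filter_add_sum_filter_not (prs X) (fun p => p ≤ m)]
  have h1 : ∑ p ∈ (prs X).filter (fun p => p ≤ m), hb m T E δ p ≤ (1 + T) + 1 := by
    have e : ∀ p ∈ (prs X).filter (fun p => p ≤ m), hb m T E δ p =
        Real.exp (-(((m - p : ℕ) : ℝ) / T)) + E * δ := by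
      intro p hp
      have hpm := (mem_filter.1 hp).2
      unfold hb
      rw [if_pos hpm, Nat.cast_sub hpm]
    rw [sum_congr rfl e, sum_add_distrib]
    refine add_le_add ?_ ?_
    · refine le_trans ?_ (geo_sum hT0 m)
      refine sum_le_range (φ := fun p => m - p) (f := fun j => Real.exp (-((j:ℝ) / T)))
        (fun p hp => ?_) (fun p hp q hq h => ?_) fun j => (Real.exp_pos _).le
      · have h2 := (mem_filter.1 hp)
        have h3 := (mem_prs.1 h2.1).1.pos
        have h4 := h2.2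
        show m - p < m
        omega
      · have h2 := (mem_filter.1 (mem_coe.1 hp)).2
        have h3 := (mem_filter.1 (mem_coe.1 hq)).2
        have h' : m - p = m - q := h
        omega
    · rw [sum_const, nsmul_eq_mul]
      refine le_trans ?_ hE
      gcongr
      have : (prs X).filter (fun p => p ≤ m) ⊆ Icc 1 m := by
        intro p hp
        have h2 := mem_filter.1 hp
        have h3 := (mem_prs.1 h2.1).1.pos
        exact mem_Icc.2 ⟨h3, h2.2⟩
      have h4 := card_le_card this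
      rwa [Nat.card_Icc, Nat.add_sub_cancel] at h4
  have h2 : ∑ p ∈ (prs X).filter (fun p => ¬ p ≤ m), hb m T E δ p ≤ 2 * (1 + 2 * T) + 2 := by
    rw [← sum_filter_add_sum_filter_not ((prs X).filter (fun p => ¬ p ≤ m)) (fun p => p ≤ 2 * m)]
    refine add_le_add ?_ ?_
    · have e : ∀ p ∈ ((prs X).filter (fun p => ¬ p ≤ m)).filter (fun p => p ≤ 2 * m),
          hb m T E δ p = 2 * Real.exp (-(((p - 1 - m : ℕ) : ℝ) / (2 * T))) := by
        intro p hp
        have h2 := mem_filter.1 hp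
        have h3 := (mem_filter.1 h2.1).2
        unfold hb
        rw [if_neg h3, if_pos h2.2, Nat.cast_sub (by omega), Nat.cast_sub (by omega)]
        push_cast
        rfl
      rw [sum_congr rfl e, ← mul_sum]
      gcongr
      refine le_trans ?_ (geo_sum (by positivity : 0 < 2 * T) m)
      refine sum_le_range (φ := fun p => p - 1 - m) (f := fun j => Real.exp (-((j:ℝ) / (2 * T))))
        (fun p hp => ?_) (fun p hp q hq h => ?_) fun j => (Real.exp_pos _).le
      · have h2 := mem_filter.1 hp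
        have h3 := (mem_filter.1 h2.1).2
        show p - 1 - m < m
        omega
      · have h2 := (mem_filter.1 (mem_filter.1 (mem_coe.1 hp)).1).2
        have h3 := (mem_filter.1 (mem_filter.1 (mem_coe.1 hq)).1).2
        have h' : p - 1 - m = q - 1 - m := h
        omega
    · have e : ∀ p ∈ ((prs X).filter (fun p => ¬ p ≤ m)).filter (fun p => ¬ p ≤ 2 * m),
          hb m T E δ p = 2 * ((p:ℝ) ^ 2)⁻¹ := by
        intro p hp
        have h2 := mem_filter.1 hp
        have h3 := (mem_filter.1 h2.1).2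
        unfold hb
        rw [if_neg h3, if_neg h2.2]
      rw [sum_congr rfl e, ← mul_sum]
      have h3 : ∑ p ∈ ((prs X).filter (fun p => ¬ p ≤ m)).filter (fun p => ¬ p ≤ 2 * m), ((p:ℝ) ^ 2)⁻¹ ≤
          ∑ i ∈ Ioc 1 (X + 1), ((i:ℝ) ^ 2)⁻¹ := by
        refine sum_le_sum_of_subset_of_nonneg ?_ fun j _ _ => by positivity
        intro p hp
        have h2 := mem_prs.1 (mem_filter.1 (mem_filter.1 hp).1).1
        rw [mem_Ioc]
        exact ⟨h2.1.one_lt, by omega⟩
      have h4 := sum_Ioc_inv_sq_le_sub (α := ℝ) (k := 1) (n := X + 1) one_ne_zero (by omega)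
      have h5 : (0:ℝ) ≤ ((X + 1 : ℕ) : ℝ)⁻¹ := by positivity
      rw [Nat.cast_one, inv_one] at h4
      linarith
  linarith

/-- **Rankin's method** -/
theorem rankin {m : ℕ} (hm : 2 ≤ m) {T : ℝ} (hT : 1 ≤ T) (hD : 4 * Real.log m ≤ m / T)
    (hE : (m:ℝ) * ((2 * m + 2) * Real.exp (-(Real.log 2 * (m / (T * Real.log m))))) ≤ 1) {B0 : ℝ}
    {S : Finset ℕ} (hS : ∀ n ∈ S, 1 ≤ n ∧ Real.log n < m + 1 ∧
      ∑ p ∈ prs ⌊Real.exp (m + 1)⌋₊, ls m p (n.factorization p) ≤ B0) :
    (S.card : ℝ) ≤ Real.exp ((m:ℝ) ^ 2 / T * B0 + 11 * T) := by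
  have hm2 : (2:ℝ) ≤ m := by exact_mod_cast hm
  have hT0 : 0 < T := by linarith
  set X : ℕ := ⌊Real.exp (m + 1)⌋₊ with hX
  set δ : ℝ := Real.exp (-(Real.log 2 * (m / (T * Real.log m)))) with hδ
  have hδ0 : 0 < δ := Real.exp_pos _
  set E : ℕ := 2 * m + 2 with hEd
  have hE' : (m:ℝ) * (E * δ) ≤ 1 := by
    rw [hEd]; push_cast; exact hE
  have hE1 : (E:ℝ) * δ ≤ 1 := by
    refine le_trans ?_ hE'
    exact le_mul_of_one_le_left (by positivity) (by linarith)
  set l : ℝ := (m:ℝ) ^ 2 / T with hl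
  have hl0 : 0 ≤ l := by positivity
  set w : ℕ → ℕ → ℝ := fun p e => Real.exp (-(l * ls m p e)) with hw
  -- the elements of `S`
  have hSX : ∀ n ∈ S, n ≤ X := by
    intro n hn
    obtain ⟨h1, h2, _⟩ := hS n hn
    have h1' : (0:ℝ) < n := by exact_mod_cast h1
    apply Nat.le_floor
    rw [← Real.log_le_iff_le_exp h1']
    exact h2.le
  have hfac : ∀ n ∈ S, ∀ p : ℕ, p.Prime → n.factorization p < E + 2 := by
    intro n hn p hp
    obtain ⟨h1, h2, _⟩ := hS n hn
    have h1' : (0:ℝ) < n := by exact_mod_cast h1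
    have h3 : (n:ℝ) < 2 ^ E := by
      have h4 : (n:ℝ) < Real.exp (m + 1) := by
        rwa [← Real.log_lt_iff_lt_exp h1']
      have h5 : Real.exp ((m:ℝ) + 1) ≤ 2 ^ E := by
        have h6 : Real.exp ((m:ℝ) + 1) = Real.exp 1 ^ (m + 1) := by
          rw [← Real.exp_nat_mul]; push_cast; ring_nf
        rw [h6, hEd, show 2 * m + 2 = 2 * (m + 1) by ring, pow_mul]
        have h7 := Real.exp_one_lt_d9
        gcongr
        norm_num
        linarith
      linarith
    have h4 : (2:ℝ) ^ (n.factorization p) < 2 ^ E := by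
      refine lt_of_le_of_lt ?_ h3
      have h5 : p ^ (n.factorization p) ≤ n := Nat.ordProj_le p (by omega)
      calc (2:ℝ) ^ (n.factorization p) ≤ (p:ℝ) ^ (n.factorization p) := by
            gcongr
            exact_mod_cast hp.two_le
        _ ≤ n := by exact_mod_cast h5
    have h5 := (pow_lt_pow_iff_right₀ (by norm_num : (1:ℝ) < 2)).1 h4
    omega
  set Φ : ℕ → (p : ℕ) → p ∈ prs X → ℕ := fun n p _ => n.factorization p with hΦ
  have hinj : Set.InjOn Φ S := by
    intro n hn n' hn' h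
    have hn1 := (hS n hn).1
    have hn1' := (hS n' hn').1
    apply Nat.eq_of_factorization_eq (by omega) (by omega)
    intro p
    by_cases hp : p ∈ prs X
    · exact congrFun (congrFun h p) hp
    · have key : ∀ k ∈ S, k.factorization p = 0 := by
        intro k hk
        by_cases hpp : p.Prime
        · apply Nat.factorization_eq_zero_of_lt
          have h2 := hSX k hk
          have h3 : ¬ p ≤ X := fun h => hp (mem_prs.2 ⟨hpp, h⟩)
          omega
        · exact Nat.factorization_eq_zero_of_not_prime k hpp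
      rw [key n hn, key n' hn']
  have hsum : ∑ n ∈ S, ∏ p ∈ prs X, w p (n.factorization p) ≤
      ∏ p ∈ prs X, ∑ e ∈ range (E + 2), w p e := by
    rw [Finset.prod_sum]
    have e1 : ∀ n ∈ S, ∏ p ∈ prs X, w p (n.factorization p) =
        (fun f : (p : ℕ) → p ∈ prs X → ℕ => ∏ x ∈ (prs X).attach, w x.1 (f x.1 x.2)) (Φ n) := by
      intro n _
      simp only [hΦ]
      rw [← Finset.prod_attach]
    rw [sum_congr rfl e1, ← sum_image (f := fun f : (p : ℕ) → p ∈ prs X → ℕ =>
      ∏ x ∈ (prs X).attach, w x.1 (f x.1 x.2)) hinj]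
    refine sum_le_sum_of_subset_of_nonneg ?_ fun f _ _ =>
      prod_nonneg fun x _ => (Real.exp_pos _).le
    intro f hf
    obtain ⟨n, hn, rfl⟩ := mem_image.1 hf
    rw [Finset.mem_pi]
    intro p hp
    exact mem_range.2 (hfac n hn p (mem_prs.1 hp).1)
  have hprod : ∏ p ∈ prs X, ∑ e ∈ range (E + 2), w p e ≤ Real.exp (11 * T) := by
    calc ∏ p ∈ prs X, ∑ e ∈ range (E + 2), w p e ≤ ∏ p ∈ prs X, Real.exp (hb m T E δ p) := by
          refine prod_le_prod (fun p _ => sum_nonneg fun e _ => (Real.exp_pos _).le) fun p hp => ?_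
          exact local_factor hm hT0 E hD hE1 (mem_prs.1 hp).1
      _ = Real.exp (∑ p ∈ prs X, hb m T E δ p) := (Real.exp_sum _ _).symm
      _ ≤ _ := Real.exp_le_exp.2 (sum_hb hT E X hδ0 hE')
  calc (S.card : ℝ) = ∑ n ∈ S, (1:ℝ) := by simp
    _ ≤ ∑ n ∈ S, Real.exp (l * B0) * ∏ p ∈ prs X, w p (n.factorization p) := by
        refine sum_le_sum fun n hn => ?_
        simp only [hw]
        rw [← Real.exp_sum, ← Real.exp_add]
        apply Real.one_le_exp
        rw [sum_neg_distrib, ← mul_sum]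
        have h3 := (hS n hn).2.2
        have h4 : l * ∑ p ∈ prs X, ls m p (n.factorization p) ≤ l * B0 := by gcongr
        linarith
    _ = Real.exp (l * B0) * ∑ n ∈ S, ∏ p ∈ prs X, w p (n.factorization p) := by rw [mul_sum]
    _ ≤ Real.exp (l * B0) * Real.exp (11 * T) := by
        gcongr
        exact hsum.trans hprod
    _ = _ := by rw [← Real.exp_add]

end Pool.Agent.TH988.RB
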