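import Pool.Agent.TH988.RB.Up2
import Pool.Agent.TH988.RB.Ar3

/-! Few exceptions to Nicolas' inequality if there is a zero-free half-plane. -/

set_option autoImplicit false

namespace Pool.Agent.TH988.RB

open Filter Topology Finset

lemma theta_prs (m : ℕ) : Chebyshev.theta (m : ℝ) = ∑ p ∈ prs m, Real.log p := by
  rw [Chebyshev.theta, Nat.floor_natCast]
  rfl

lemma log_div_totient {n : ℕ} (hn : 1 ≤ n) :
    Real.log ((n:ℝ) / Nat.totient n) = ∑ p ∈ n.primeFactors, gp p := by
  have h1 := Nat.totient_eq_mul_prod_factors n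
  have h2 : (Nat.totient n : ℝ) = n * ∏ p ∈ n.primeFactors, (1 - (p:ℝ)⁻¹) := by
    have h3 := congrArg (fun q : ℚ => (q : ℝ)) h1
    push_cast at h3
    exact h3
  have hn0 : (n:ℝ) ≠ 0 := by
    have : (0:ℝ) < n := by exact_mod_cast hn
    exact this.ne'
  have hne : ∀ p ∈ n.primeFactors, (1 - (p:ℝ)⁻¹) ≠ 0 := by
    intro p hp
    obtain ⟨h3, h4⟩ := inv_prime (Nat.prime_of_mem_primeFactors hp)
    have : 0 < 1 - (p:ℝ)⁻¹ := by linarith
    exact this.ne'
  have h3 : (n:ℝ) / Nat.totient n = (∏ p ∈ n.primeFactors, (1 - (p:ℝ)⁻¹))⁻¹ := by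
    rw [h2]
    field_simp
  rw [h3, Real.log_inv, Real.log_prod hne]
  unfold gp
  rw [sum_neg_distrib]

/-- the total loss -/
lemma ls_total {m n X : ℕ} (hmX : m ≤ X) (hn : 1 ≤ n) (hnX : n ≤ X) :
    ∑ p ∈ prs X, ls m p (n.factorization p) = PP m - ep m * Chebyshev.theta (m : ℝ) -
      Real.log ((n:ℝ) / Nat.totient n) + ep m * Real.log n := by
  have hsub : n.primeFactors ⊆ prs X := by
    intro p hp
    rw [mem_prs]
    exact ⟨Nat.prime_of_mem_primeFactors hp, (Nat.le_of_mem_primeFactors hp).trans hnX⟩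
  unfold ls
  rw [sum_add_distrib, sum_sub_distrib]
  have e1 : ∑ p ∈ prs X, (if p ≤ m then gp p - ep m * Real.log p else 0) =
      PP m - ep m * Chebyshev.theta (m : ℝ) := by
    rw [← sum_filter, theta_prs, mul_sum]
    have : (prs X).filter (fun p => p ≤ m) = prs m := by
      ext p
      rw [mem_filter, mem_prs, mem_prs]
      constructor
      · rintro ⟨⟨h1, _⟩, h2⟩; exact ⟨h1, h2⟩
      · rintro ⟨h1, h2⟩; exact ⟨⟨h1, h2.trans hmX⟩, h2⟩
    rw [this, sum_sub_distrib]
    rfl
  have e2 : ∑ p ∈ prs X, (if n.factorization p = 0 then 0 else gp p) =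
      Real.log ((n:ℝ) / Nat.totient n) := by
    rw [log_div_totient hn]
    symm
    rw [← sum_subset hsub (fun p _ hp => ?_)]
    · refine sum_congr rfl fun p hp => ?_
      have h1 : n.factorization p ≠ 0 := by
        rw [← Nat.support_factorization, Finsupp.mem_support_iff] at hp
        exact hp
      rw [if_neg h1]
    · have h1 : n.factorization p = 0 := by
        rw [← Nat.support_factorization, Finsupp.notMem_support_iff] at hp
        exact hp
      rw [if_pos h1]
  have e3 : ∑ p ∈ prs X, (n.factorization p : ℝ) * (ep m * Real.log p) = ep m * Real.log n := by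
    rw [Real.log_nat_eq_sum_factorization, Finsupp.sum, Nat.support_factorization, mul_sum]
    symm
    rw [← sum_subset hsub (fun p _ hp => ?_)]
    · exact sum_congr rfl fun p _ => by ring
    · have h1 : n.factorization p = 0 := by
        rw [← Nat.support_factorization, Finsupp.notMem_support_iff] at hp
        exact hp
      rw [h1]
      simp
  rw [e1, e2, e3]

/-- exceptions to Nicolas' inequality `n / φ(n) < e^γ log log n` -/
def IsExc (n : ℕ) : Prop :=
  3 ≤ n ∧ Real.exp Real.eulerMascheroniConstant * Real.log (Real.log n) * (Nat.totient n : ℝ) ≤ n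

/-- the number of exceptions up to `x` -/
noncomputable def cnt (x : ℝ) : ℕ := {n : ℕ | IsExc n ∧ (n : ℝ) ≤ x}.ncard

/-- the maximal total loss, up to `1 / (m log m)` -/
noncomputable def BT (m : ℕ) : ℝ := PP m - Real.eulerMascheroniConstant - Real.log (Real.log m) -
  (Chebyshev.theta (m : ℝ) - m) * ep m

lemma exc_loss {m n : ℕ} (hm : 2 ≤ m) (hn : IsExc n) (h1 : (m:ℝ) ≤ Real.log n)
    (h2 : Real.log n < m + 1) :
    ∑ p ∈ prs ⌊Real.exp (m + 1)⌋₊, ls m p (n.factorization p) ≤ BT m + ep m := by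
  obtain ⟨hn3, hex⟩ := hn
  have hm2 : (2:ℝ) ≤ m := by exact_mod_cast hm
  have hn0 : (0:ℝ) < n := by
    have : (3:ℝ) ≤ n := by exact_mod_cast hn3
    linarith
  have hφ : (0:ℝ) < Nat.totient n := by exact_mod_cast Nat.totient_pos.2 (by omega)
  have hlm : 0 < Real.log m := Real.log_pos (by linarith)
  have hmX : m ≤ ⌊Real.exp ((m:ℝ) + 1)⌋₊ := by
    apply Nat.le_floor
    have := Real.add_one_le_exp ((m:ℝ) + 1)
    linarith
  have hnX : n ≤ ⌊Real.exp ((m:ℝ) + 1)⌋₊ := by
    apply Nat.le_floor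
    rw [← Real.log_le_iff_le_exp hn0]
    exact h2.le
  rw [ls_total hmX (by omega) hnX]
  have h3 : Real.log m ≤ Real.log (Real.log n) := Real.log_le_log (by linarith) h1
  have h4 : Real.log (Real.log m) ≤ Real.log (Real.log (Real.log n)) := Real.log_le_log hlm h3
  have h5 : Real.eulerMascheroniConstant + Real.log (Real.log (Real.log n)) ≤
      Real.log ((n:ℝ) / Nat.totient n) := by
    have h6 : 0 < Real.log (Real.log n) := hlm.trans_le h3
    rw [← Real.log_exp Real.eulerMascheroniConstant, ← Real.log_mul (Real.exp_pos _).ne' h6.ne']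
    apply Real.log_le_log (by positivity)
    rw [le_div_iff₀ hφ]
    exact hex
  have hep := ep_pos hm
  have h6 : ep m * Real.log n ≤ ep m * (m + 1) := by gcongr
  unfold BT
  linarith

end Pool.Agent.TH988.RB
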