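import Pool.Agent.TH988.RB.Up3

/-! Few exceptions to Nicolas' inequality if there is a zero-free half-plane, part 2. -/

set_option autoImplicit false

namespace Pool.Agent.TH988.RB

open Filter Topology Finset

/-- the upper bound for the total loss -/
lemma BT_le {t C : ℝ} (ht : 1 / 2 ≤ t) (ht1 : t < 1) (hC : 0 < C)
    (h : ∀ y : ℝ, 1 ≤ y → |Chebyshev.psi y - y| ≤ C * y ^ t) :
    ∃ C0 : ℝ, 0 < C0 ∧ ∀ m : ℕ, 4 ≤ m → BT m + ep m ≤ C0 * (m:ℝ) ^ (t - 1) := by
  obtain ⟨C1, hC1, hTT⟩ := TT_le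
  obtain ⟨C2, hC2, hjt⟩ := jt_free ht1 hC h
  obtain ⟨C3, hC3⟩ := Chebyshev.psi_sub_theta_le_mul_sqrt
  refine ⟨2 * C1 + C2 + |C3| + 1, by positivity, fun m hm => ?_⟩
  have hm4 : (4:ℝ) ≤ m := by exact_mod_cast hm
  have hm0 : (0:ℝ) < m := by linarith
  have hlm1 : 1 ≤ Real.log m := by
    rw [Real.le_log_iff_exp_le hm0]
    have := Real.exp_one_lt_d9
    linarith
  have hlm : 0 < Real.log m := by linarith
  have hsm : 0 < Real.sqrt m := Real.sqrt_pos.2 hm0
  have hss : Real.sqrt m * Real.sqrt m = m := Real.mul_self_sqrt hm0.le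
  -- `1 / √m ≤ m ^ (t - 1)`
  have hs : 1 / Real.sqrt m ≤ (m:ℝ) ^ (t - 1) := by
    have h1 : 1 / Real.sqrt m = (m:ℝ) ^ (-(1 / 2) : ℝ) := by
      rw [Real.rpow_neg hm0.le, ← Real.sqrt_eq_rpow, one_div]
    rw [h1]
    apply Real.rpow_le_rpow_of_exponent_le (by linarith)
    linarith
  have hp : 0 < (m:ℝ) ^ (t - 1) := by positivity
  have e1 : jt (Real.log m) = AA m - Real.log (Real.log m) - Real.eulerMascheroniConstant -
      (Chebyshev.psi m - m) * ep m := by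
    rw [jt_eq hlm, Real.exp_log hm0, Nat.floor_natCast]
    have : dl (Real.log m) / Real.log m = (Chebyshev.psi m - m) * ep m := by
      unfold dl ep
      rw [Real.exp_neg, Real.exp_log hm0]
      field_simp
    rw [this]
  have e2 : BT m = (PP m - AA m) + jt (Real.log m) +
      (Chebyshev.psi m - Chebyshev.theta m) * ep m := by
    rw [e1]; unfold BT; ring
  have b1 : PP m - AA m ≤ 2 * C1 * (m:ℝ) ^ (t - 1) := by
    have h1 := (PP_sub_AA m).2
    have h2 := hTT m (by omega)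
    have h3 : C1 / (Real.sqrt m * Real.log m) ≤ C1 * (1 / Real.sqrt m) := by
      rw [← mul_one_div]
      gcongr
      exact le_mul_of_one_le_right hsm.le hlm1
    have h4 : C1 * (1 / Real.sqrt m) ≤ C1 * (m:ℝ) ^ (t - 1) := by gcongr
    linarith
  have b2 : jt (Real.log m) ≤ C2 * (m:ℝ) ^ (t - 1) := by
    have h1 := (le_abs_self _).trans (hjt (Real.log m) hlm1)
    have h2 : Real.exp (-((1 - t) * Real.log m)) = (m:ℝ) ^ (t - 1) := by
      rw [Real.rpow_def_of_pos hm0]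
      congr 1
      ring
    rwa [h2] at h1
  have hep : ep m ≤ 1 / m := by
    unfold ep
    apply one_div_le_one_div_of_le hm0
    exact le_mul_of_one_le_right hm0.le hlm1
  have hep0 : 0 < ep m := ep_pos (by omega)
  have b3 : (Chebyshev.psi m - Chebyshev.theta m) * ep m ≤ |C3| * (m:ℝ) ^ (t - 1) := by
    have h1 := hC3 m
    calc (Chebyshev.psi m - Chebyshev.theta m) * ep m ≤ (C3 * Real.sqrt m) * ep m := by gcongr
      _ ≤ (|C3| * Real.sqrt m) * (1 / m) := by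
          have := le_abs_self C3
          gcongr
      _ = |C3| * (1 / Real.sqrt m) := by
          rw [mul_assoc]
          congr 1
          field_simp
          rw [sq, hss]
      _ ≤ |C3| * (m:ℝ) ^ (t - 1) := by gcongr
  have b4 : ep m ≤ 1 * (m:ℝ) ^ (t - 1) := by
    rw [one_mul]
    refine hep.trans (le_trans ?_ hs)
    apply one_div_le_one_div_of_le hsm
    nlinarith
  rw [e2]
  linarith

lemma rpow_facts {β : ℝ} (hβ : β < 1) : ∀ᶠ m : ℕ in atTop,
    4 * Real.log m ≤ m / (m:ℝ) ^ β ∧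
    (m:ℝ) * ((2 * m + 2) * Real.exp (-(Real.log 2 * (m / ((m:ℝ) ^ β * Real.log m))))) ≤ 1 := by
  have h1 : ∀ᶠ x : ℝ in atTop, 16 * Real.log x ^ 2 ≤ x ^ (1 - β) := by
    have := (isLittleO_log_rpow_rpow_atTop (2 : ℝ) (s := 1 - β) (by linarith)).bound
      (c := 1 / 16) (by norm_num)
    filter_upwards [this, eventually_ge_atTop (1 : ℝ)] with x hx hx1
    have hl : 0 ≤ Real.log x := Real.log_nonneg hx1
    rw [Real.norm_of_nonneg (by positivity), Real.norm_of_nonneg (by positivity)] at hx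
    have h2 : Real.log x ^ (2:ℝ) = Real.log x ^ 2 := by exact_mod_cast Real.rpow_natCast (Real.log x) 2
    rw [h2] at hx
    linarith
  filter_upwards [tendsto_natCast_atTop_atTop.eventually h1, eventually_ge_atTop 4] with m hm hm4
  have hm4' : (4:ℝ) ≤ m := by exact_mod_cast hm4
  have hm0 : (0:ℝ) < m := by linarith
  have hlm1 : 1 ≤ Real.log m := by
    rw [Real.le_log_iff_exp_le hm0]
    have := Real.exp_one_lt_d9
    linarith
  have hlm : 0 < Real.log m := by linarith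
  have e1 : (m:ℝ) / (m:ℝ) ^ β = (m:ℝ) ^ (1 - β) := by
    rw [Real.rpow_sub hm0, Real.rpow_one]
  have e2 : (m:ℝ) / ((m:ℝ) ^ β * Real.log m) = (m:ℝ) ^ (1 - β) / Real.log m := by
    rw [← div_div, e1]
  rw [e1, e2]
  constructor
  · nlinarith
  · have hD : 16 * Real.log m ≤ (m:ℝ) ^ (1 - β) / Real.log m := by
      rw [le_div_iff₀ hlm]
      nlinarith
    have hl2 : 1 / 4 ≤ Real.log 2 := by
      have := Real.log_two_gt_d9
      linarith
    have h3 : 4 * Real.log m ≤ Real.log 2 * ((m:ℝ) ^ (1 - β) / Real.log m) := by nlinarith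
    have h4 : Real.exp (-(Real.log 2 * ((m:ℝ) ^ (1 - β) / Real.log m))) ≤ ((m:ℝ) ^ 4)⁻¹ := by
      have h5 : ((m:ℝ) ^ 4)⁻¹ = Real.exp (-(4 * Real.log m)) := by
        rw [Real.exp_neg, show 4 * Real.log m = Real.log ((m:ℝ) ^ 4) by
          rw [Real.log_pow]; push_cast; ring, Real.exp_log (by positivity)]
      rw [h5]
      apply Real.exp_le_exp.2
      linarith
    calc (m:ℝ) * ((2 * m + 2) * Real.exp (-(Real.log 2 * ((m:ℝ) ^ (1 - β) / Real.log m))))
        ≤ (m:ℝ) * ((2 * m + 2) * ((m:ℝ) ^ 4)⁻¹) := by gcongr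
      _ ≤ 1 := by
          rw [← mul_assoc, ← div_eq_mul_inv, div_le_one (by positivity)]
          nlinarith [pow_pos hm0 2, pow_pos hm0 3]

/-- the exceptions between `e^m` and `e^(m+1)` -/
noncomputable def Sm (m : ℕ) : Finset ℕ := by
  classical
  exact (range (⌊Real.exp (m + 1)⌋₊ + 1)).filter
    (fun n => IsExc n ∧ (m:ℝ) ≤ Real.log n ∧ Real.log n < m + 1)

lemma mem_Sm {m n : ℕ} : n ∈ Sm m ↔ IsExc n ∧ (m:ℝ) ≤ Real.log n ∧ Real.log n < m + 1 := by
  classical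
  unfold Sm
  rw [mem_filter, mem_range]
  constructor
  · exact fun h => h.2
  · intro h
    refine ⟨?_, h⟩
    have hn0 : (0:ℝ) < n := by
      have : (3:ℝ) ≤ n := by exact_mod_cast h.1.1
      linarith
    apply Nat.lt_succ_of_le
    apply Nat.le_floor
    rw [← Real.log_le_iff_le_exp hn0]
    exact h.2.2.le

/-- few exceptions between `e^m` and `e^(m+1)` -/
theorem Sm_card {t C : ℝ} (ht : 1 / 2 ≤ t) (ht1 : t < 1) (hC : 0 < C)
    (h : ∀ y : ℝ, 1 ≤ y → |Chebyshev.psi y - y| ≤ C * y ^ t) :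
    ∃ C1 : ℝ, 0 < C1 ∧ ∀ᶠ m : ℕ in atTop, ((Sm m).card : ℝ) ≤ Real.exp (C1 * (m:ℝ) ^ ((1 + t) / 2)) := by
  obtain ⟨C0, hC0, hBT⟩ := BT_le ht ht1 hC h
  refine ⟨C0 + 11, by positivity, ?_⟩
  filter_upwards [rpow_facts (β := (1 + t) / 2) (by linarith), eventually_ge_atTop 4]
    with m hm hm4
  have hm4' : (4:ℝ) ≤ m := by exact_mod_cast hm4
  have hm0 : (0:ℝ) < m := by linarith
  have hT : (1:ℝ) ≤ (m:ℝ) ^ ((1 + t) / 2) := Real.one_le_rpow (by linarith) (by linarith)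
  have h1 := rankin (m := m) (by omega) hT hm.1 hm.2 (B0 := C0 * (m:ℝ) ^ (t - 1)) (S := Sm m) (by
    intro n hn
    rw [mem_Sm] at hn
    exact ⟨by have := hn.1.1; omega, hn.2.2, (exc_loss (by omega) hn.1 hn.2.1 hn.2.2).trans
      (hBT m hm4)⟩)
  refine h1.trans (Real.exp_le_exp.2 (le_of_eq ?_))
  have e : (m:ℝ) ^ 2 / (m:ℝ) ^ ((1 + t) / 2) * (C0 * (m:ℝ) ^ (t - 1)) = C0 * (m:ℝ) ^ ((1 + t) / 2) := by
    have h2 : (m:ℝ) ^ 2 = (m:ℝ) ^ (2:ℝ) := by exact_mod_cast (Real.rpow_natCast (m:ℝ) 2).symm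
    rw [h2, ← Real.rpow_sub hm0, mul_left_comm, ← Real.rpow_add hm0]
    congr 2
    ring
  rw [e]
  ring

end Pool.Agent.TH988.RB
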