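import Pool.Agent.TH988.RB.Up4

/-! Few exceptions to Nicolas' inequality if there is a zero-free half-plane, part 3. -/

set_option autoImplicit false

namespace Pool.Agent.TH988.RB

open Filter Topology Finset

lemma cnt_le (x : ℝ) : cnt x ≤ ∑ m ∈ range (⌊Real.log x⌋₊ + 1), (Sm m).card := by
  classical
  have hsub : {n : ℕ | IsExc n ∧ (n : ℝ) ≤ x} ⊆
      (((range (⌊Real.log x⌋₊ + 1)).biUnion Sm : Finset ℕ) : Set ℕ) := by
    rintro n ⟨hn, hnx⟩
    have h3 : (3:ℝ) ≤ n := by exact_mod_cast hn.1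
    have hn0 : (0:ℝ) < n := by linarith
    have hl0 : 0 ≤ Real.log n := Real.log_nonneg (by linarith)
    have hl : Real.log n ≤ Real.log x := Real.log_le_log hn0 hnx
    rw [mem_coe, mem_biUnion]
    refine ⟨⌊Real.log n⌋₊, ?_, ?_⟩
    · rw [mem_range]
      exact Nat.lt_succ_of_le (Nat.floor_mono hl)
    · rw [mem_Sm]
      exact ⟨hn, Nat.floor_le hl0, Nat.lt_floor_add_one _⟩
  unfold cnt
  calc {n : ℕ | IsExc n ∧ (n : ℝ) ≤ x}.ncard
      ≤ (((range (⌊Real.log x⌋₊ + 1)).biUnion Sm : Finset ℕ) : Set ℕ).ncard :=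
        Set.ncard_le_ncard hsub (Finset.finite_toSet _)
    _ = ((range (⌊Real.log x⌋₊ + 1)).biUnion Sm).card := Set.ncard_coe_finset _
    _ ≤ _ := card_biUnion_le

/-- **few exceptions** -/
theorem cnt_upper {t C : ℝ} (ht : 1 / 2 ≤ t) (ht1 : t < 1) (hC : 0 < C)
    (h : ∀ y : ℝ, 1 ≤ y → |Chebyshev.psi y - y| ≤ C * y ^ t) {η : ℝ} (hη : 0 < η) :
    ∀ᶠ x : ℝ in atTop, (cnt x : ℝ) ≤ Real.exp (Real.log x ^ ((1 + t) / 2 + η)) := by
  obtain ⟨C1, hC1, hS⟩ := Sm_card ht ht1 hC h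
  obtain ⟨m1, hm1⟩ := eventually_atTop.1 hS
  set β : ℝ := (1 + t) / 2 with hβ
  have hβ0 : 0 < β := by rw [hβ]; linarith
  set K0 : ℝ := ∑ m ∈ range m1, ((Sm m).card : ℝ) with hK0
  have hK00 : 0 ≤ K0 := sum_nonneg fun m _ => Nat.cast_nonneg _
  -- the elementary facts for large `L`
  have hev : ∀ᶠ L : ℝ in atTop, Real.log (2 * L) ≤ L ^ β ∧ C1 + 1 ≤ L ^ η := by
    refine Eventually.and ?_ ?_
    · have h1 := (isLittleO_log_rpow_atTop hβ0).bound (c := 1 / 2) (by norm_num)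
      have h2 := (tendsto_rpow_atTop hβ0).eventually_ge_atTop (2 * Real.log 2)
      filter_upwards [h1, h2, eventually_ge_atTop (1:ℝ)] with L hL hL2 hL1
      rw [Real.norm_of_nonneg (Real.log_nonneg hL1), Real.norm_of_nonneg (by positivity)] at hL
      rw [Real.log_mul (by norm_num) (by linarith)]
      linarith
    · exact (tendsto_rpow_atTop hη).eventually_ge_atTop _
  have hlog := Real.tendsto_log_atTop
  filter_upwards [hlog.eventually hev, hlog.eventually_ge_atTop (K0 + 1),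
    hlog.eventually_ge_atTop 1] with x hx hx2 hx3
  set L : ℝ := Real.log x with hL
  have hL0 : 0 < L := by linarith
  have h1 : (cnt x : ℝ) ≤ ∑ m ∈ range (⌊L⌋₊ + 1), ((Sm m).card : ℝ) := by
    exact_mod_cast cnt_le x
  have hterm : ∀ m ∈ range (⌊L⌋₊ + 1), ((Sm m).card : ℝ) ≤
      (if m < m1 then ((Sm m).card : ℝ) else 0) + Real.exp (C1 * L ^ β) := by
    intro m hm
    by_cases hmm : m < m1
    · rw [if_pos hmm]
      have := Real.exp_pos (C1 * L ^ β)
      linarith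
    · rw [if_neg hmm, zero_add]
      refine (hm1 m (not_lt.1 hmm)).trans (Real.exp_le_exp.2 ?_)
      have h2 : (m:ℝ) ≤ L := by
        have h3 : m ≤ ⌊L⌋₊ := Nat.lt_succ_iff.1 (mem_range.1 hm)
        exact (Nat.cast_le.2 h3).trans (Nat.floor_le hL0.le)
      gcongr
  have h2 : ∑ m ∈ range (⌊L⌋₊ + 1), ((Sm m).card : ℝ) ≤ K0 + (L + 1) * Real.exp (C1 * L ^ β) := by
    refine (sum_le_sum hterm).trans ?_
    rw [sum_add_distrib, sum_const, card_range, nsmul_eq_mul]
    refine add_le_add ?_ ?_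
    · rw [← sum_filter, hK0]
      refine sum_le_sum_of_subset_of_nonneg ?_ fun m _ _ => Nat.cast_nonneg _
      intro m hm
      exact mem_range.2 (mem_filter.1 hm).2
    · have : ((⌊L⌋₊ + 1 : ℕ) : ℝ) ≤ L + 1 := by
        push_cast
        linarith [Nat.floor_le hL0.le]
      gcongr
  have hLβ : 0 < L ^ β := by positivity
  have h3 : K0 + (L + 1) * Real.exp (C1 * L ^ β) ≤ (2 * L) * Real.exp (C1 * L ^ β) := by
    have h4 : 1 ≤ Real.exp (C1 * L ^ β) := Real.one_le_exp (by positivity)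
    nlinarith
  have h4 : 2 * L ≤ Real.exp (L ^ β) := by
    rw [← Real.log_le_iff_le_exp (by positivity)]
    exact hx.1
  calc (cnt x : ℝ) ≤ _ := h1
    _ ≤ _ := h2
    _ ≤ _ := h3
    _ ≤ Real.exp (L ^ β) * Real.exp (C1 * L ^ β) := by gcongr
    _ = Real.exp ((C1 + 1) * L ^ β) := by rw [← Real.exp_add]; congr 1; ring
    _ ≤ Real.exp (L ^ (β + η)) := by
        apply Real.exp_le_exp.2
        rw [Real.rpow_add hL0, mul_comm (L ^ β)]
        have := hx.2
        gcongr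

end Pool.Agent.TH988.RB
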