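import Mathlib

/-! Normalized moments and Taylor coefficients of Laplace transforms. -/

set_option autoImplicit false

namespace Pool.Agent.TH988.RB

open MeasureTheory Filter Topology Set

/-- the kernel `v ^ k e^{-w v} / k!` -/
noncomputable def ker (k : ℕ) (w v : ℝ) : ℝ := v ^ k / k.factorial * Real.exp (-(w * v))

/-- normalized moments -/
noncomputable def mom (f : ℝ → ℂ) (k : ℕ) (s : ℂ) : ℂ :=
  ∫ v in Ioi (0:ℝ), f v * (((v ^ k / k.factorial : ℝ) : ℂ) * Complex.exp (-(s * v)))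

/-- Laplace transform -/
noncomputable def Lc (f : ℝ → ℂ) (s : ℂ) : ℂ := ∫ v in Ioi (0:ℝ), f v * Complex.exp (-(s * v))

lemma ker_int {w : ℝ} (hw : 0 < w) (k : ℕ) :
    IntegrableOn (ker k w) (Ioi 0) ∧ ∫ v in Ioi (0:ℝ), ker k w v = (w⁻¹) ^ (k + 1) := by
  have h1 := Real.integral_rpow_mul_exp_neg_mul_Ioi (a := (k:ℝ) + 1) (r := w) (by positivity) hw
  have h2 : ∫ v in Ioi (0:ℝ), ker k w v = (w⁻¹) ^ (k + 1) := by
    have e : ∀ v ∈ Ioi (0:ℝ), ker k w v = (k.factorial : ℝ)⁻¹ * (v ^ ((k:ℝ) + 1 - 1) * Real.exp (-(w * v))) := by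
      intro v _
      unfold ker
      rw [add_sub_cancel_right, Real.rpow_natCast]
      ring
    rw [setIntegral_congr_fun measurableSet_Ioi e, integral_const_mul, h1, Real.Gamma_nat_eq_factorial]
    have h3 : (k.factorial : ℝ) ≠ 0 := by positivity
    rw [one_div]
    have h4 : w⁻¹ ^ ((k:ℝ) + 1) = w⁻¹ ^ (k + 1) := by
      rw [← Nat.cast_succ, Real.rpow_natCast]
    rw [h4]
    field_simp
  refine ⟨?_, h2⟩
  apply Integrable.of_integral_ne_zero
  rw [h2]
  positivity

lemma ker_nonneg {k : ℕ} {w v : ℝ} (hv : 0 < v) : 0 ≤ ker k w v := by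
  unfold ker; positivity

lemma norm_term {v : ℝ} (hv : 0 < v) (z : ℂ) (k : ℕ) (s : ℂ) :
    ‖z * (((v ^ k / k.factorial : ℝ) : ℂ) * Complex.exp (-(s * v)))‖ = ‖z‖ * ker k s.re v := by
  rw [norm_mul, norm_mul, Complex.norm_real, Complex.norm_exp, Real.norm_of_nonneg (by positivity)]
  unfold ker
  congr 3
  simp

lemma mom_integrable {f : ℝ → ℂ} (hf : Measurable f) {B : ℝ} (hB : ∀ v, 0 < v → ‖f v‖ ≤ B)
    (k : ℕ) {s : ℂ} (hs : 0 < s.re) :
    IntegrableOn (fun v : ℝ => f v * (((v ^ k / k.factorial : ℝ) : ℂ) * Complex.exp (-(s * v)))) (Ioi 0) := by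
  refine Integrable.mono' ((ker_int hs k).1.const_mul B) ?_ ?_
  · exact (hf.mul (by fun_prop)).aestronglyMeasurable
  · refine (ae_restrict_iff' measurableSet_Ioi).mpr (Eventually.of_forall fun v hv => ?_)
    have hv' : 0 < v := hv
    rw [norm_term hv']
    exact mul_le_mul_of_nonneg_right (hB v hv') (ker_nonneg hv')

lemma norm_mom_le {f : ℝ → ℂ} (hf : Measurable f) {B : ℝ} (hB : ∀ v, 0 < v → ‖f v‖ ≤ B)
    (k : ℕ) {s : ℂ} (hs : 0 < s.re) : ‖mom f k s‖ ≤ B * (s.re⁻¹) ^ (k + 1) := by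
  unfold mom
  calc _ ≤ ∫ v in Ioi (0:ℝ), B * ker k s.re v := by
        refine norm_integral_le_of_norm_le ((ker_int hs k).1.const_mul B) ?_
        refine (ae_restrict_iff' measurableSet_Ioi).mpr (Eventually.of_forall fun v hv => ?_)
        have hv' : 0 < v := hv
        rw [norm_term hv']
        exact mul_le_mul_of_nonneg_right (hB v hv') (ker_nonneg hv')
    _ = B * (s.re⁻¹) ^ (k + 1) := by rw [integral_const_mul, (ker_int hs k).2]

/-- the power series of the Laplace transform -/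
lemma hasSum_mom {f : ℝ → ℂ} (hf : Measurable f) {B : ℝ} (hB : ∀ v, 0 < v → ‖f v‖ ≤ B) {s0 z : ℂ}
    (hz : ‖z‖ < s0.re) :
    HasSum (fun k => mom f k s0 * (-z) ^ k) (Lc f (s0 + z)) := by
  have hs : 0 < s0.re := (norm_nonneg z).trans_lt hz
  have hB0 : 0 ≤ B := (norm_nonneg _).trans (hB 1 one_pos)
  set F : ℕ → ℝ → ℂ := fun k v =>
    (f v * (((v ^ k / k.factorial : ℝ) : ℂ) * Complex.exp (-(s0 * v)))) * (-z) ^ k with hF
  have hint : ∀ k, Integrable (F k) (volume.restrict (Ioi (0:ℝ))) := fun k =>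
    (mom_integrable hf hB k hs).mul_const _
  have hsum : Summable fun k => ∫ v in Ioi (0:ℝ), ‖F k v‖ := by
    have hg : Summable fun k : ℕ => B * s0.re⁻¹ * (‖z‖ * s0.re⁻¹) ^ k := by
      apply Summable.mul_left
      apply summable_geometric_of_lt_one (by positivity)
      rw [← div_eq_mul_inv, div_lt_one hs]
      exact hz
    refine Summable.of_nonneg_of_le (fun k => integral_nonneg fun v => norm_nonneg _) (fun k => ?_) hg
    calc ∫ v in Ioi (0:ℝ), ‖F k v‖ ≤ ∫ v in Ioi (0:ℝ), (B * ‖z‖ ^ k) * ker k s0.re v := by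
          refine setIntegral_mono_on (hint k).norm ((ker_int hs k).1.const_mul _) measurableSet_Ioi
            fun v hv => ?_
          have hv' : 0 < v := hv
          simp only [hF]
          rw [norm_mul, norm_term hv', norm_pow, norm_neg]
          have h1 := hB v hv'
          have h2 := ker_nonneg (k := k) (w := s0.re) hv'
          calc ‖f v‖ * ker k s0.re v * ‖z‖ ^ k ≤ B * ker k s0.re v * ‖z‖ ^ k := by gcongr
            _ = _ := by ring
      _ = B * s0.re⁻¹ * (‖z‖ * s0.re⁻¹) ^ k := by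
          rw [integral_const_mul, (ker_int hs k).2]
          ring
  have h := hasSum_integral_of_summable_integral_norm hint hsum
  have e1 : (fun k => mom f k s0 * (-z) ^ k) = fun k => ∫ v in Ioi (0:ℝ), F k v := by
    funext k
    simp only [hF, mom]
    rw [← integral_mul_const]
  have e2 : Lc f (s0 + z) = ∫ v in Ioi (0:ℝ), ∑' k, F k v := by
    unfold Lc
    refine setIntegral_congr_fun measurableSet_Ioi fun v hv => ?_
    simp only [hF]
    have h3 : HasSum (fun k : ℕ => (-(z * v)) ^ k / (k.factorial : ℂ)) (Complex.exp (-(z * v))) := by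
      rw [Complex.exp_eq_exp_ℂ]
      exact NormedSpace.expSeries_div_hasSum_exp (-(z * v))
    have h4 := (h3.mul_left (f v * Complex.exp (-(s0 * v)))).tsum_eq
    rw [show -((s0 + z) * v) = -(s0 * v) + -(z * v) by ring, Complex.exp_add, ← mul_assoc, ← h4]
    congr 1
    funext k
    push_cast
    rw [show -(z * (v:ℂ)) = v * (-z) by ring, mul_pow]
    ring
  rw [e1, e2]
  exact h

/-- the Taylor coefficients of a continuation of the Laplace transform -/
lemma mom_bound {f : ℝ → ℂ} (hf : Measurable f) {B : ℝ} (hB : ∀ v, 0 < v → ‖f v‖ ≤ B) {s0 : ℂ}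
    (hs : 0 < s0.re) {R : ℝ} (hR : 0 < R) {G : ℂ → ℂ} (hG : DifferentiableOn ℂ G (Metric.closedBall s0 R))
    (heq : ∀ᶠ s in 𝓝 s0, G s = Lc f s) :
    ∃ C : ℝ, 0 < C ∧ ∀ k, ‖mom f k s0‖ ≤ C * (R⁻¹) ^ k := by
  obtain ⟨R', rfl⟩ : ∃ R' : NNReal, (R' : ℝ) = R := ⟨⟨R, hR.le⟩, rfl⟩
  have hR' : 0 < R' := by exact_mod_cast hR
  have h1 := hG.hasFPowerSeriesOnBall hR'
  have hB0 : 0 ≤ B := (norm_nonneg _).trans (hB 1 one_pos)
  set c : ℕ → ℂ := fun k => mom f k s0 * (-1) ^ k with hc
  -- the power series of the Laplace transform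
  have h2 : HasFPowerSeriesAt (Lc f) (FormalMultilinearSeries.ofScalars ℂ c) s0 := by
    set r : NNReal := ⟨s0.re / 2, by positivity⟩ with hr
    have hr0 : (r : ℝ) = s0.re / 2 := rfl
    refine ⟨r, ?_, ?_, ?_⟩
    · apply FormalMultilinearSeries.le_radius_of_bound _ (B * s0.re⁻¹)
      intro n
      rw [FormalMultilinearSeries.ofScalars_norm]
      simp only [hc]
      rw [norm_mul, norm_pow, norm_neg, norm_one, one_pow, mul_one, hr0]
      have h3 := norm_mom_le hf hB n hs
      calc ‖mom f n s0‖ * (s0.re / 2) ^ n ≤ (B * (s0.re⁻¹) ^ (n + 1)) * (s0.re / 2) ^ n := by gcongr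
        _ = B * s0.re⁻¹ * (1 / 2) ^ n := by
          rw [pow_succ, show B * (s0.re⁻¹ ^ n * s0.re⁻¹) * (s0.re / 2) ^ n =
            B * s0.re⁻¹ * (s0.re⁻¹ * (s0.re / 2)) ^ n by rw [mul_pow]; ring]
          congr 2
          field_simp
        _ ≤ B * s0.re⁻¹ * 1 := by
          gcongr
          apply pow_le_one₀ <;> norm_num
        _ = B * s0.re⁻¹ := mul_one _
    · have : (0:ℝ) < r := by rw [hr0]; positivity
      exact_mod_cast this
    · intro y hy
      have hy' : ‖y‖ < s0.re := by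
        rw [Metric.eball_coe, mem_ball_zero_iff] at hy
        rw [hr0] at hy
        linarith
      have h3 := hasSum_mom hf hB hy'
      have e : (fun n => (FormalMultilinearSeries.ofScalars ℂ c n) fun _ => y) =
          fun k => mom f k s0 * (-y) ^ k := by
        funext n
        rw [FormalMultilinearSeries.ofScalars_apply_eq, smul_eq_mul]
        simp only [hc]
        rw [show -y = (-1) * y by ring, mul_pow]
        ring
      rw [e]
      exact h3
  have h3 : HasFPowerSeriesAt G (cauchyPowerSeries G s0 R') s0 := h1.hasFPowerSeriesAt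
  have h4 := h3.eq_formalMultilinearSeries_of_eventually h2 heq
  refine ⟨(2 * Real.pi)⁻¹ * (∫ θ : ℝ in (0:ℝ)..2 * Real.pi, ‖G (circleMap s0 R' θ)‖) + 1, ?_, fun k => ?_⟩
  · have h5 : 0 ≤ ∫ θ : ℝ in (0:ℝ)..2 * Real.pi, ‖G (circleMap s0 R' θ)‖ :=
      intervalIntegral.integral_nonneg (by positivity) fun θ _ => norm_nonneg _
    positivity
  · have h5 := norm_cauchyPowerSeries_le G s0 R' k
    rw [h4, FormalMultilinearSeries.ofScalars_norm, abs_of_pos hR] at h5
    simp only [hc] at h5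
    rw [norm_mul, norm_pow, norm_neg, norm_one, one_pow, mul_one] at h5
    refine h5.trans ?_
    gcongr
    linarith

end Pool.Agent.TH988.RB
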