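import Pool.Agent.TH988.RB.Wa

/-! Positivity on a window and normalized moments. -/

set_option autoImplicit false

namespace Pool.Agent.TH988.RB

open MeasureTheory Filter Topology Set

lemma mom_real (F : ℝ → ℝ) (k : ℕ) (w : ℝ) :
    mom (fun v => (F v : ℂ)) k w = ((∫ v in Ioi (0:ℝ), F v * ker k w v : ℝ) : ℂ) := by
  unfold mom
  rw [← integral_complex_ofReal]
  congr 1
  funext v
  unfold ker
  push_cast
  ring

/-- the rate -/
noncomputable def qr (η : ℝ) : ℝ := (1 + η ^ 2 * (1 - 2 * η))⁻¹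

lemma qr_pos {η : ℝ} (h0 : 0 < η) (h1 : η < 1 / 2) : 0 < qr η := by
  unfold qr
  have : 0 < 1 - 2 * η := by linarith
  positivity

lemma qr_lt {η : ℝ} (h0 : 0 < η) (h1 : η < 1 / 2) : qr η < 1 := by
  unfold qr
  have : 0 < 1 - 2 * η := by linarith
  have h2 : 0 < η ^ 2 * (1 - 2 * η) := by positivity
  apply inv_lt_one_of_one_lt₀
  linarith

lemma rate1 {η : ℝ} (h0 : 0 < η) (h1 : η < 1 / 2) :
    Real.exp (-(η * (1 + 2 * η))) * (1 - η)⁻¹ ≤ qr η := by
  unfold qr
  have h2 : 0 < 1 - 2 * η := by linarith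
  have h3 : 0 < 1 - η := by linarith
  rw [Real.exp_neg, ← mul_inv]
  apply inv_anti₀ (by positivity)
  have h4 := Real.add_one_le_exp (η * (1 + 2 * η))
  nlinarith

lemma rate2 {η : ℝ} (h0 : 0 < η) (h1 : η < 1 / 2) :
    Real.exp (η * (1 - 2 * η)) * (1 + η)⁻¹ ≤ qr η := by
  unfold qr
  have h2 : 0 < 1 - 2 * η := by linarith
  have h3 : 0 < 1 + η := by linarith
  rw [show η * (1 - 2 * η) = -(-(η * (1 - 2 * η))) by ring, Real.exp_neg, ← mul_inv]
  apply inv_anti₀ (by positivity)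
  have h4 := Real.add_one_le_exp (-(η * (1 - 2 * η)))
  have h5 : 0 < η ^ 3 := by positivity
  nlinarith

lemma ker_shift (k : ℕ) (w l a v : ℝ) :
    ker k w v * Real.exp (l * (v - a)) = Real.exp (-(l * a)) * ker k (w - l) v := by
  unfold ker
  have e : Real.exp (-(w * v)) * Real.exp (l * (v - a)) =
      Real.exp (-(l * a)) * Real.exp (-((w - l) * v)) := by
    rw [← Real.exp_add, ← Real.exp_add]
    congr 1
    ring
  calc _ = v ^ k / k.factorial * (Real.exp (-(w * v)) * Real.exp (l * (v - a))) := by ring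
    _ = _ := by rw [e]; ring

/-- **positivity on a window** -/
theorem out_window {η : ℝ} (h0 : 0 < η) (h1 : η < 1 / 2) {σ B : ℝ} (hσ : 0 < σ) {F : ℝ → ℝ}
    (hF : Measurable F) (hB : ∀ v, 0 < v → |F v| ≤ B) (k : ℕ) {s : ℂ} (hs : s.re = σ)
    (hpos : ∀ v, (1 - 2 * η) * (k / σ) ≤ v → v ≤ (1 + 2 * η) * (k / σ) → 0 ≤ F v) :
    ‖mom (fun v => (F v : ℂ)) k s‖ ≤ (mom (fun v => (F v : ℂ)) k (σ : ℂ)).re +
      4 * B / (σ * (1 - η)) * (qr η / σ) ^ k := by
  have hB0 : 0 ≤ B := (abs_nonneg _).trans (hB 1 one_pos)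
  have h1' : 0 < 1 - η := by linarith
  have h1'' : 0 < 1 + η := by linarith
  set l : ℝ := η * σ with hl
  have hl0 : 0 < l := mul_pos h0 hσ
  set a1 : ℝ := (1 + 2 * η) * (k / σ) with ha1
  set a2 : ℝ := (1 - 2 * η) * (k / σ) with ha2
  have hker := ker_int hσ k
  have hker1 := ker_int (w := σ - l) (by rw [hl]; nlinarith) k
  have hker2 := ker_int (w := σ + l) (by positivity) k
  have hFi : IntegrableOn (fun v => F v * ker k σ v) (Ioi 0) := by
    refine Integrable.mono' (hker.1.const_mul B) ?_ ?_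
    · exact (hF.mul (by unfold ker; fun_prop)).aestronglyMeasurable
    · refine (ae_restrict_iff' measurableSet_Ioi).mpr (Eventually.of_forall fun v hv => ?_)
      have hv' : 0 < v := hv
      rw [norm_mul, Real.norm_eq_abs, Real.norm_of_nonneg (ker_nonneg hv')]
      exact mul_le_mul_of_nonneg_right (hB v hv') (ker_nonneg hv')
  -- the pointwise bound
  have hpt : ∀ v, 0 < v → |F v| * ker k σ v ≤ F v * ker k σ v +
      (2 * B * Real.exp (-(l * a1)) * ker k (σ - l) v + 2 * B * Real.exp (l * a2) * ker k (σ + l) v) := by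
    intro v hv
    have hk := ker_nonneg (k := k) (w := σ) hv
    have e1 := ker_shift k σ l a1 v
    have e2 := ker_shift k σ (-l) a2 v
    rw [show σ - -l = σ + l by ring, show -(-l * a2) = l * a2 by ring] at e2
    have h3 : |F v| ≤ F v + 2 * B * (Real.exp (l * (v - a1)) + Real.exp (-l * (v - a2))) := by
      have p1 := Real.exp_pos (l * (v - a1))
      have p2 := Real.exp_pos (-l * (v - a2))
      have hb := hB v hv
      have hn := neg_abs_le (F v)
      by_cases c1 : a2 ≤ v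
      · by_cases c2 : v ≤ a1
        · rw [abs_of_nonneg (hpos v c1 c2)]
          have : 0 ≤ 2 * B * (Real.exp (l * (v - a1)) + Real.exp (-l * (v - a2))) := by positivity
          linarith
        · have h4 : 1 ≤ Real.exp (l * (v - a1)) :=
            Real.one_le_exp (mul_nonneg hl0.le (by linarith [not_le.1 c2]))
          have h5 : 1 ≤ Real.exp (l * (v - a1)) + Real.exp (-l * (v - a2)) := by linarith
          nlinarith
      · have h4 : 1 ≤ Real.exp (-l * (v - a2)) := by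
          apply Real.one_le_exp
          have := not_le.1 c1
          nlinarith
        have h5 : 1 ≤ Real.exp (l * (v - a1)) + Real.exp (-l * (v - a2)) := by linarith
        nlinarith
    calc |F v| * ker k σ v ≤ (F v + 2 * B * (Real.exp (l * (v - a1)) + Real.exp (-l * (v - a2)))) *
          ker k σ v := mul_le_mul_of_nonneg_right h3 hk
      _ = F v * ker k σ v + (2 * B * (ker k σ v * Real.exp (l * (v - a1))) +
          2 * B * (ker k σ v * Real.exp (-l * (v - a2)))) := by ring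
      _ = _ := by rw [e1, e2]; ring
  have hint2 : IntegrableOn (fun v => F v * ker k σ v +
      (2 * B * Real.exp (-(l * a1)) * ker k (σ - l) v + 2 * B * Real.exp (l * a2) * ker k (σ + l) v))
      (Ioi 0) :=
    hFi.add ((hker1.1.const_mul _).add (hker2.1.const_mul _))
  have h5 : ‖mom (fun v => (F v : ℂ)) k s‖ ≤ ∫ v in Ioi (0:ℝ), (F v * ker k σ v +
      (2 * B * Real.exp (-(l * a1)) * ker k (σ - l) v + 2 * B * Real.exp (l * a2) * ker k (σ + l) v)) := by
    unfold mom
    refine norm_integral_le_of_norm_le hint2 ?_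
    refine (ae_restrict_iff' measurableSet_Ioi).mpr (Eventually.of_forall fun v hv => ?_)
    have hv' : 0 < v := hv
    rw [norm_term hv', Complex.norm_real, Real.norm_eq_abs, hs]
    exact hpt v hv'
  have h6 : ∫ v in Ioi (0:ℝ), (F v * ker k σ v +
      (2 * B * Real.exp (-(l * a1)) * ker k (σ - l) v + 2 * B * Real.exp (l * a2) * ker k (σ + l) v)) =
      (∫ v in Ioi (0:ℝ), F v * ker k σ v) + (2 * B * Real.exp (-(l * a1)) * ((σ - l)⁻¹) ^ (k + 1) +
        2 * B * Real.exp (l * a2) * ((σ + l)⁻¹) ^ (k + 1)) := by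
    have hsum : Integrable (fun v => 2 * B * Real.exp (-(l * a1)) * ker k (σ - l) v +
        2 * B * Real.exp (l * a2) * ker k (σ + l) v) (volume.restrict (Ioi 0)) :=
      (hker1.1.const_mul _).add (hker2.1.const_mul _)
    rw [integral_add hFi hsum,
      integral_add (hker1.1.const_mul _) (hker2.1.const_mul _), integral_const_mul, integral_const_mul,
      hker1.2, hker2.2]
  rw [h6] at h5
  rw [mom_real, Complex.ofReal_re]
  refine h5.trans (add_le_add le_rfl ?_)
  have e1 : Real.exp (-(l * a1)) = (Real.exp (-(η * (1 + 2 * η)))) ^ k := by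
    rw [← Real.exp_nat_mul]
    congr 1
    rw [hl, ha1]
    field_simp
  have e2 : Real.exp (l * a2) = (Real.exp (η * (1 - 2 * η))) ^ k := by
    rw [← Real.exp_nat_mul]
    congr 1
    rw [hl, ha2]
    field_simp
  have e3 : (σ - l)⁻¹ = σ⁻¹ * (1 - η)⁻¹ := by
    rw [← mul_inv]; congr 1; rw [hl]; ring
  have e4 : (σ + l)⁻¹ = σ⁻¹ * (1 + η)⁻¹ := by
    rw [← mul_inv]; congr 1; rw [hl]; ring
  have t1 : Real.exp (-(l * a1)) * ((σ - l)⁻¹) ^ (k + 1) ≤ 1 / (σ * (1 - η)) * (qr η / σ) ^ k := by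
    rw [e1, e3]
    calc (Real.exp (-(η * (1 + 2 * η)))) ^ k * (σ⁻¹ * (1 - η)⁻¹) ^ (k + 1)
        = (Real.exp (-(η * (1 + 2 * η))) * (1 - η)⁻¹) ^ k * (σ⁻¹) ^ k * (σ⁻¹ * (1 - η)⁻¹) := by
          rw [mul_pow, pow_succ, mul_pow]; ring
      _ ≤ (qr η) ^ k * (σ⁻¹) ^ k * (σ⁻¹ * (1 - η)⁻¹) := by
          gcongr
          exact rate1 h0 h1
      _ = _ := by
          rw [div_eq_mul_inv (qr η) σ, mul_pow, one_div, mul_inv]
          ring
  have t2 : Real.exp (l * a2) * ((σ + l)⁻¹) ^ (k + 1) ≤ 1 / (σ * (1 - η)) * (qr η / σ) ^ k := by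
    rw [e2, e4]
    calc (Real.exp (η * (1 - 2 * η))) ^ k * (σ⁻¹ * (1 + η)⁻¹) ^ (k + 1)
        = (Real.exp (η * (1 - 2 * η)) * (1 + η)⁻¹) ^ k * (σ⁻¹) ^ k * (σ⁻¹ * (1 + η)⁻¹) := by
          rw [mul_pow, pow_succ, mul_pow]; ring
      _ ≤ (qr η) ^ k * (σ⁻¹) ^ k * (σ⁻¹ * (1 - η)⁻¹) := by
          have := qr_pos h0 h1
          gcongr
          · exact rate2 h0 h1
          · linarith
      _ = _ := by
          rw [div_eq_mul_inv (qr η) σ, mul_pow, one_div, mul_inv]
          ring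
  calc 2 * B * Real.exp (-(l * a1)) * ((σ - l)⁻¹) ^ (k + 1) +
        2 * B * Real.exp (l * a2) * ((σ + l)⁻¹) ^ (k + 1)
      = 2 * B * (Real.exp (-(l * a1)) * ((σ - l)⁻¹) ^ (k + 1)) +
        2 * B * (Real.exp (l * a2) * ((σ + l)⁻¹) ^ (k + 1)) := by ring
    _ ≤ 2 * B * (1 / (σ * (1 - η)) * (qr η / σ) ^ k) + 2 * B * (1 / (σ * (1 - η)) * (qr η / σ) ^ k) := by
        gcongr
    _ = _ := by ring

end Pool.Agent.TH988.RB
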