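import Pool.Agent.TH988.RB.Wb
import Pool.Agent.TH988.RB.Jt

/-! Moments of `v jt v` and of `dl`. -/

set_option autoImplicit false

namespace Pool.Agent.TH988.RB

open MeasureTheory Filter Topology Set

lemma jt_measurable : Measurable jt := by
  have h1 : StronglyMeasurable (fun v : ℝ => ∫ z, (fun x : ℝ × ℝ => if x.1 < x.2 then qq x.2 else 0) (v, z)) := by
    apply StronglyMeasurable.integral_prod_right (f := fun v z : ℝ => if v < z then qq z else 0)
    refine Measurable.stronglyMeasurable ?_
    exact Measurable.ite (measurableSet_lt measurable_fst measurable_snd)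
      (qq_measurable.comp measurable_snd) measurable_const
  have h2 : jt = fun v => -∫ z, (fun x : ℝ × ℝ => if x.1 < x.2 then qq x.2 else 0) (v, z) := by
    funext v
    unfold jt
    rw [← integral_indicator measurableSet_Ioi]
    congr 1
  rw [h2]
  exact h1.measurable.neg

/-- `v jt v` -/
noncomputable def gj (v : ℝ) : ℝ := v * jt v

lemma gj_measurable : Measurable gj := measurable_id.mul jt_measurable

lemma integral_inv_sq {u : ℝ} (hu : 0 < u) : ∫ v in Ioi u, 1 / v ^ 2 = 1 / u := by
  have h := integral_Ioi_rpow_of_lt (a := -2) (by norm_num) hu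
  have e : ∀ v ∈ Ioi u, 1 / v ^ 2 = v ^ (-2 : ℝ) := by
    intro v hv
    have hv' : (0:ℝ) < v := lt_trans hu hv
    rw [Real.rpow_neg hv'.le, one_div]
    congr 1
    exact_mod_cast (Real.rpow_natCast v 2).symm
  rw [setIntegral_congr_fun measurableSet_Ioi e, h]
  norm_num
  rw [Real.rpow_neg hu.le, Real.rpow_one]

lemma gj_bound : ∃ C : ℝ, 0 < C ∧ ∀ v : ℝ, 0 < v → |gj v| ≤ C := by
  obtain ⟨C, hC, h⟩ := qq_bound
  refine ⟨C, hC, fun v hv => ?_⟩
  have h1 : |jt v| ≤ C * (1 / v) := by
    unfold jt
    rw [abs_neg]
    calc |∫ z in Ioi v, qq z| ≤ ∫ z in Ioi v, |qq z| := abs_integral_le_integral_abs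
      _ ≤ ∫ z in Ioi v, C * (1 / z ^ 2) := by
          refine setIntegral_mono_on (qq_integrable hv).abs ((integrableOn_inv_sq hv).const_mul C)
            measurableSet_Ioi fun z hz => ?_
          have hz' : (0:ℝ) < z := lt_trans hv hz
          refine (h z hz').trans ?_
          have h2 : 1 / (1 + z) ^ 2 ≤ 1 := by
            rw [div_le_one (by positivity)]
            nlinarith
          gcongr
          exact mul_le_of_le_one_right (by positivity) h2
      _ = C * (1 / v) := by rw [integral_const_mul, integral_inv_sq hv]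
  unfold gj
  rw [abs_mul, abs_of_pos hv]
  calc v * |jt v| ≤ v * (C * (1 / v)) := by gcongr
    _ = C := by field_simp

/-- the relation between the moments -/
lemma mom_rel {s : ℂ} (hs : 0 < s.re) (n : ℕ) :
    s * (n + 2) * mom (fun v => (gj v : ℂ)) (n + 2) s - (n + 3) * mom (fun v => (gj v : ℂ)) (n + 1) s =
      mom (fun v => (dl v : ℂ)) (n + 1) s + (n + 2) * mom (fun v => (dl v : ℂ)) (n + 2) s := by
  obtain ⟨C, hC, h⟩ := qq_bound
  obtain ⟨B, hB, hb⟩ := gj_bound
  have hdB : 0 < Real.log 4 + 5 := by
    have : 0 < Real.log 4 := Real.log_pos (by norm_num)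
    linarith
  set μ : Measure ℝ := volume.restrict (Ioi (0:ℝ)) with hμ
  set P : ℝ → ℂ := fun v => (s * (((v ^ (n + 1) / (n + 1).factorial : ℝ) : ℂ)) -
    ((n + 3) / (n + 1)) * (((v ^ n / n.factorial : ℝ) : ℂ))) * Complex.exp (-(s * v)) with hP
  set F : ℝ → ℝ → ℂ := fun v z => if v < z then ((v ^ 2 : ℝ) : ℂ) * P v * (qq z : ℂ) else 0 with hF
  have hPm : Measurable P := by
    simp only [hP]
    fun_prop
  have hint : Integrable (Function.uncurry F) (μ.prod μ) := by
    have h1 : Integrable (fun x : ℝ × ℝ => (‖s‖ * ker (n + 1) s.re x.1 +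
        (((n:ℝ) + 3) / (n + 1)) * ker n s.re x.1) * (C * (1 / (1 + x.2) ^ 2))) (μ.prod μ) := by
      have ha : Integrable (fun v => ‖s‖ * ker (n + 1) s.re v +
        (((n:ℝ) + 3) / (n + 1)) * ker n s.re v) μ :=
        ((ker_int hs (n + 1)).1.const_mul _).add ((ker_int hs n).1.const_mul _)
      have hb' : Integrable (fun z : ℝ => C * (1 / (1 + z) ^ 2)) μ := by
        refine Integrable.const_mul ?_ C
        have h2 := integrableOn_inv_sq' (u := 1) one_pos
        have h3 : IntegrableOn (fun v : ℝ => 1 / (1 + v) ^ 2) (Ioc 0 1) := by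
          have hc : ContinuousOn (fun v : ℝ => 1 / (1 + v) ^ 2) (Icc 0 1) := by
            refine ContinuousOn.div continuousOn_const (by fun_prop) fun v hv => ?_
            have : 0 ≤ v := hv.1
            positivity
          exact hc.integrableOn_Icc.mono_set Ioc_subset_Icc_self
        have h4 := h3.union h2
        rw [Ioc_union_Ioi_eq_Ioi zero_le_one] at h4
        exact h4
      exact Integrable.mul_prod ha hb'
    refine Integrable.mono' h1 ?_ ?_
    · refine Measurable.aestronglyMeasurable ?_
      have hm1 : Measurable fun x : ℝ × ℝ => ((x.1 ^ 2 : ℝ) : ℂ) := by fun_prop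
      have hm2 : Measurable fun x : ℝ × ℝ => P x.1 := hPm.comp measurable_fst
      have hm3 : Measurable fun x : ℝ × ℝ => (qq x.2 : ℂ) :=
        Complex.measurable_ofReal.comp (qq_measurable.comp measurable_snd)
      exact Measurable.ite (measurableSet_lt measurable_fst measurable_snd) ((hm1.mul hm2).mul hm3)
        measurable_const
    · rw [hμ, Measure.prod_restrict]
      refine (ae_restrict_iff' (measurableSet_Ioi.prod measurableSet_Ioi)).mpr
        (Eventually.of_forall fun x hx => ?_)
      have h10 : 0 < x.1 := hx.1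
      have h20 : 0 < x.2 := hx.2
      have hk1 := ker_nonneg (k := n + 1) (w := s.re) h10
      have hk2 := ker_nonneg (k := n) (w := s.re) h10
      simp only [Function.uncurry, hF]
      split_ifs with hlt
      · rw [norm_mul, norm_mul, Complex.norm_real, Complex.norm_real, Real.norm_of_nonneg (by positivity),
          Real.norm_eq_abs]
        have h2 := h x.2 h20
        have h3 : 1 / x.2 ^ 2 ≤ 1 / x.1 ^ 2 := by
          apply one_div_le_one_div_of_le (by positivity)
          gcongr
        have h4 : ‖P x.1‖ ≤ ‖s‖ * ker (n + 1) s.re x.1 + (((n:ℝ) + 3) / (n + 1)) * ker n s.re x.1 := by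
          simp only [hP]
          rw [sub_mul, mul_assoc, mul_assoc]
          refine (norm_sub_le _ _).trans ?_
          rw [norm_term h10, norm_term h10, norm_div]
          have e1 : ‖(n:ℂ) + 3‖ = (n:ℝ) + 3 := by
            rw [show (n:ℂ) + 3 = (((n:ℝ) + 3 : ℝ) : ℂ) by push_cast; ring, Complex.norm_real,
              Real.norm_of_nonneg (by positivity)]
          have e2 : ‖(n:ℂ) + 1‖ = (n:ℝ) + 1 := by
            rw [show (n:ℂ) + 1 = (((n:ℝ) + 1 : ℝ) : ℂ) by push_cast; ring, Complex.norm_real,
              Real.norm_of_nonneg (by positivity)]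
          rw [e1, e2]
        calc x.1 ^ 2 * ‖P x.1‖ * |qq x.2| ≤ x.1 ^ 2 * ‖P x.1‖ * (C * (1 / x.2 ^ 2 * (1 / (1 + x.2) ^ 2))) := by
              gcongr
          _ ≤ x.1 ^ 2 * ‖P x.1‖ * (C * (1 / x.1 ^ 2 * (1 / (1 + x.2) ^ 2))) := by gcongr
          _ = ‖P x.1‖ * (C * (1 / (1 + x.2) ^ 2)) := by field_simp
          _ ≤ _ := by gcongr
      · rw [norm_zero]; positivity
  have hswap := integral_integral_swap hint
  have hnf : ((n + 1).factorial : ℂ) = (n + 1) * n.factorial := by
    rw [Nat.factorial_succ]; push_cast; ring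
  have hnf2 : ((n + 2).factorial : ℂ) = (n + 2) * ((n + 1) * n.factorial) := by
    rw [Nat.factorial_succ, Nat.factorial_succ]; push_cast; ring
  have hn0 : (n.factorial : ℂ) ≠ 0 := by
    exact_mod_cast n.factorial_ne_zero
  have hn1 : (n:ℂ) + 1 ≠ 0 := by exact_mod_cast n.succ_ne_zero
  have hn2 : (n:ℂ) + 2 ≠ 0 := by exact_mod_cast (n + 1).succ_ne_zero
  have e1 : (∫ v, ∫ z, F v z ∂μ ∂μ) = -(s * (n + 2) * mom (fun v => (gj v : ℂ)) (n + 2) s -
      (n + 3) * mom (fun v => (gj v : ℂ)) (n + 1) s) := by
    unfold mom
    rw [← integral_const_mul, ← integral_const_mul, ← integral_sub, ← integral_neg]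
    · refine setIntegral_congr_fun measurableSet_Ioi fun v hv => ?_
      have hv' : (0:ℝ) < v := hv
      have : (fun z => F v z) = (Ioi v).indicator (fun z => ((v ^ 2 : ℝ) : ℂ) * P v * (qq z : ℂ)) := by
        funext z
        simp only [hF, indicator, mem_Ioi]
      simp only []
      rw [this, hμ, setIntegral_indicator measurableSet_Ioi, Ioi_inter_Ioi, sup_eq_right.2 hv'.le,
        integral_const_mul, integral_complex_ofReal]
      have h5 : ∫ z in Ioi v, qq z = -jt v := by unfold jt; ring
      rw [h5]
      simp only [hP, gj]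
      push_cast
      rw [hnf, hnf2]
      field_simp
      ring
    · exact (mom_integrable (Complex.measurable_ofReal.comp gj_measurable) (B := B)
        (fun v hv => by
          simp only [Function.comp]
          rw [Complex.norm_real, Real.norm_eq_abs]; exact hb v hv) (n + 2) hs).const_mul _
    · exact (mom_integrable (Complex.measurable_ofReal.comp gj_measurable) (B := B)
        (fun v hv => by
          simp only [Function.comp]
          rw [Complex.norm_real, Real.norm_eq_abs]; exact hb v hv) (n + 1) hs).const_mul _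
  have e2 : (∫ z, ∫ v, F v z ∂μ ∂μ) = -(mom (fun v => (dl v : ℂ)) (n + 1) s +
      (n + 2) * mom (fun v => (dl v : ℂ)) (n + 2) s) := by
    unfold mom
    rw [← integral_const_mul, ← integral_add, ← integral_neg]
    · refine setIntegral_congr_fun measurableSet_Ioi fun z hz => ?_
      have hz' : (0:ℝ) < z := hz
      have : (fun v => F v z) = (Iio z).indicator (fun v => ((v ^ 2 : ℝ) : ℂ) * P v * (qq z : ℂ)) := by
        funext v
        simp only [hF, indicator, mem_Iio]
      simp only []
      rw [this, hμ, setIntegral_indicator measurableSet_Iio, Ioi_inter_Iio, integral_mul_const,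
        ← integral_Ioc_eq_integral_Ioo, ← intervalIntegral.integral_of_le hz'.le]
      have h6 : ∫ v in (0:ℝ)..z, ((v ^ 2 : ℝ) : ℂ) * P v =
          -((z:ℂ) ^ (n + 3) / (n + 1).factorial * Complex.exp (-(s * z))) -
          -(((0:ℝ):ℂ) ^ (n + 3) / (n + 1).factorial * Complex.exp (-(s * (0:ℝ)))) := by
        refine intervalIntegral.integral_eq_sub_of_hasDerivAt
          (f := fun v : ℝ => -((v:ℂ) ^ (n + 3) / (n + 1).factorial * Complex.exp (-(s * v))))
          (fun v _ => ?_) ?_
        · have h7 : HasDerivAt (fun w : ℂ => -(w ^ (n + 3) / (n + 1).factorial * Complex.exp (-(s * w))))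
              (((v ^ 2 : ℝ) : ℂ) * P v) v := by
            have h8 : HasDerivAt (fun w : ℂ => w ^ (n + 3)) (((n + 3 : ℕ) : ℂ) * (v:ℂ) ^ (n + 2)) v :=
              hasDerivAt_pow (n + 3) (v:ℂ)
            have h9 : HasDerivAt (fun w : ℂ => Complex.exp (-(s * w)))
                (Complex.exp (-(s * v)) * (-(s * 1))) v :=
              ((hasDerivAt_id (v:ℂ)).const_mul s).neg.cexp
            have h10 := ((h8.div_const ((n + 1).factorial : ℂ)).mul h9).neg
            refine h10.congr_deriv ?_
            simp only [hP]
            push_cast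
            rw [hnf]
            field_simp
            ring
          exact h7.comp_ofReal
        · refine Continuous.intervalIntegrable ?_ _ _
          simp only [hP]
          fun_prop
      rw [h6]
      simp only [Complex.ofReal_zero]
      rw [zero_pow (by omega)]
      unfold qq
      have hzc : (z:ℂ) ≠ 0 := by exact_mod_cast hz'.ne'
      push_cast
      rw [hnf, hnf2]
      field_simp
      ring
    · exact mom_integrable (Complex.measurable_ofReal.comp dl_measurable) (B := Real.log 4 + 5)
        (fun v _ => by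
          simp only [Function.comp]
          rw [Complex.norm_real, Real.norm_eq_abs]; exact dl_bound v) (n + 1) hs
    · exact (mom_integrable (Complex.measurable_ofReal.comp dl_measurable) (B := Real.log 4 + 5)
        (fun v _ => by
          simp only [Function.comp]
          rw [Complex.norm_real, Real.norm_eq_abs]; exact dl_bound v) (n + 2) hs).const_mul _
  have h5 := e1.symm.trans (hswap.trans e2)
  exact neg_injective h5

end Pool.Agent.TH988.RB
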