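import Pool.Agent.TH988.RB.Wc

/-! Bounds for the moments of `v jt v`. -/

set_option autoImplicit false

namespace Pool.Agent.TH988.RB

open MeasureTheory Filter Topology Set

/-- moments of `v jt v` -/
noncomputable def Am (k : ℕ) (s : ℂ) : ℂ := mom (fun v => (gj v : ℂ)) k s

/-- moments of `dl` -/
noncomputable def dm (k : ℕ) (s : ℂ) : ℂ := mom (fun v => (dl v : ℂ)) k s

lemma Am_rel {s : ℂ} (hs : 0 < s.re) (n : ℕ) :
    s * (n + 2) * Am (n + 2) s - (n + 3) * Am (n + 1) s = dm (n + 1) s + (n + 2) * dm (n + 2) s :=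
  mom_rel hs n

lemma norm_natc (n : ℕ) (a : ℕ) : ‖(n:ℂ) + a‖ = (n:ℝ) + a := by
  rw [show (n:ℂ) + a = (((n:ℝ) + a : ℝ) : ℂ) by push_cast; ring, Complex.norm_real,
    Real.norm_of_nonneg (by positivity)]

lemma Am_le : ∃ B : ℝ, 0 < B ∧ ∀ k : ℕ, ∀ s : ℂ, 0 < s.re → ‖Am k s‖ ≤ B * (s.re⁻¹) ^ (k + 1) := by
  obtain ⟨B, hB, hb⟩ := gj_bound
  refine ⟨B, hB, fun k s hs => ?_⟩
  exact norm_mom_le (Complex.measurable_ofReal.comp gj_measurable) (fun v hv => by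
    simp only [Function.comp]
    rw [Complex.norm_real, Real.norm_eq_abs]; exact hb v hv) k hs

/-- the bound for the moments on the real line -/
theorem Am_real {σ R C : ℝ} (hσ : 0 < σ) (hR : σ < R) (hC : 0 < C)
    (h : ∀ k : ℕ, ‖dm k (σ : ℂ)‖ ≤ C * (R⁻¹) ^ k) :
    ∃ C' : ℝ, 0 < C' ∧ ∀ n : ℕ, ‖Am (n + 1) (σ : ℂ)‖ ≤ C' * (n + 2) * (R⁻¹) ^ (n + 1) := by
  have hR0 : 0 < R := hσ.trans hR
  obtain ⟨B, hB, hb⟩ := Am_le
  have hs : 0 < ((σ : ℂ)).re := by simpa using hσ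
  set C1 : ℝ := C * (1 + R⁻¹) with hC1
  have hC10 : 0 < C1 := by positivity
  set b : ℕ → ℝ := fun m => ‖Am m (σ : ℂ)‖ / (m + 1) with hbd
  -- the recursion
  have hrec : ∀ n : ℕ, b (n + 1) ≤ σ * b (n + 2) + C1 * (R⁻¹) ^ (n + 1) := by
    intro n
    have h1 := Am_rel hs n
    have h2 : ((n:ℂ) + 3) * Am (n + 1) σ = σ * (n + 2) * Am (n + 2) σ -
        (dm (n + 1) σ + (n + 2) * dm (n + 2) σ) := by linear_combination -h1
    have h3 : ((n:ℝ) + 3) * ‖Am (n + 1) (σ : ℂ)‖ ≤ σ * (n + 2) * ‖Am (n + 2) (σ : ℂ)‖ +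
        (‖dm (n + 1) (σ : ℂ)‖ + (n + 2) * ‖dm (n + 2) (σ : ℂ)‖) := by
      have e3 := norm_natc n 3
      have e2 := norm_natc n 2
      push_cast at e3 e2
      calc ((n:ℝ) + 3) * ‖Am (n + 1) (σ : ℂ)‖ = ‖((n:ℂ) + 3) * Am (n + 1) σ‖ := by
            rw [norm_mul, e3]
        _ = ‖(σ:ℂ) * (n + 2) * Am (n + 2) σ - (dm (n + 1) σ + (n + 2) * dm (n + 2) σ)‖ := by rw [h2]
        _ ≤ ‖(σ:ℂ) * (n + 2) * Am (n + 2) σ‖ + ‖dm (n + 1) (σ:ℂ) + (n + 2) * dm (n + 2) σ‖ :=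
            norm_sub_le _ _
        _ ≤ ‖(σ:ℂ) * (n + 2) * Am (n + 2) σ‖ + (‖dm (n + 1) (σ:ℂ)‖ + ‖((n:ℂ) + 2) * dm (n + 2) σ‖) := by
            gcongr
            exact norm_add_le _ _
        _ = _ := by
            rw [norm_mul, norm_mul, norm_mul, e2, Complex.norm_real, Real.norm_of_nonneg hσ.le]
    have hd1 := h (n + 1)
    have hd2 := h (n + 2)
    have hn2 : (0:ℝ) < n + 2 := by positivity
    have hn3 : (0:ℝ) < n + 3 := by positivity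
    have h4 : ‖dm (n + 1) (σ : ℂ)‖ + (n + 2) * ‖dm (n + 2) (σ : ℂ)‖ ≤
        (n + 2) * (n + 3) * (C1 * (R⁻¹) ^ (n + 1)) := by
      have h5 : (R⁻¹) ^ (n + 2) = R⁻¹ * (R⁻¹) ^ (n + 1) := by ring
      rw [h5] at hd2
      have hp : 0 < C * (R⁻¹) ^ (n + 1) := by positivity
      have hp2 : 0 < C * (R⁻¹ * (R⁻¹) ^ (n + 1)) := by positivity
      calc ‖dm (n + 1) (σ : ℂ)‖ + (n + 2) * ‖dm (n + 2) (σ : ℂ)‖
          ≤ C * (R⁻¹) ^ (n + 1) + (n + 2) * (C * (R⁻¹ * (R⁻¹) ^ (n + 1))) := by gcongr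
        _ ≤ (n + 2) * (n + 3) * (C * (R⁻¹) ^ (n + 1)) + (n + 2) * (n + 3) * (C * (R⁻¹ * (R⁻¹) ^ (n + 1))) := by
            have hn : (0:ℝ) ≤ n := Nat.cast_nonneg n
            have h6 : (1:ℝ) ≤ (n + 2) * (n + 3) := by nlinarith
            have h7 : ((n:ℝ) + 2) ≤ (n + 2) * (n + 3) := by nlinarith
            exact add_le_add (le_mul_of_one_le_left hp.le h6) (mul_le_mul_of_nonneg_right h7 hp2.le)
        _ = _ := by rw [hC1]; ring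
    simp only [hbd]
    push_cast
    have h6 : ‖Am (n + 1) (σ : ℂ)‖ ≤ (n + 2) * (σ * (‖Am (n + 2) (σ : ℂ)‖ / (n + 3)) +
        C1 * (R⁻¹) ^ (n + 1)) := by
      have h7 : (n + 3) * ‖Am (n + 1) (σ : ℂ)‖ ≤ (n + 3) * ((n + 2) *
          (σ * (‖Am (n + 2) (σ : ℂ)‖ / (n + 3)) + C1 * (R⁻¹) ^ (n + 1))) := by
        have e : ((n:ℝ) + 3) * ((n + 2) * (σ * (‖Am (n + 2) (σ : ℂ)‖ / (n + 3)) + C1 * (R⁻¹) ^ (n + 1))) =
            σ * (n + 2) * ‖Am (n + 2) (σ : ℂ)‖ + (n + 2) * (n + 3) * (C1 * (R⁻¹) ^ (n + 1)) := by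
          field_simp
        rw [e]
        linarith
      exact le_of_mul_le_mul_left h7 hn3
    rw [div_le_iff₀ (by positivity)]
    calc ‖Am (n + 1) (σ : ℂ)‖ ≤ _ := h6
      _ = _ := by ring
  -- iteration
  have hx : σ / R < 1 := (div_lt_one hR0).2 hR
  have hx0 : 0 < σ / R := by positivity
  have hit : ∀ n j : ℕ, b (n + 1) ≤ σ ^ j * b (n + 1 + j) +
      C1 * (R⁻¹) ^ (n + 1) * ∑ i ∈ Finset.range j, (σ / R) ^ i := by
    intro n j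
    induction j with
    | zero => simp
    | succ j ih =>
      have h1 := hrec (n + j)
      rw [show n + j + 1 = n + 1 + j by ring, show n + j + 2 = n + 1 + (j + 1) by ring] at h1
      rw [Finset.sum_range_succ]
      have hp : 0 < σ ^ j := by positivity
      calc b (n + 1) ≤ σ ^ j * b (n + 1 + j) + C1 * (R⁻¹) ^ (n + 1) * ∑ i ∈ Finset.range j, (σ / R) ^ i := ih
        _ ≤ σ ^ j * (σ * b (n + 1 + (j + 1)) + C1 * (R⁻¹) ^ (n + 1 + j)) +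
            C1 * (R⁻¹) ^ (n + 1) * ∑ i ∈ Finset.range j, (σ / R) ^ i := by gcongr
        _ = _ := by
            rw [div_eq_mul_inv, mul_pow σ R⁻¹ j]
            ring
  have hgeo : ∀ j : ℕ, ∑ i ∈ Finset.range j, (σ / R) ^ i ≤ (1 - σ / R)⁻¹ := by
    intro j
    rw [← tsum_geometric_of_lt_one hx0.le hx]
    exact (summable_geometric_of_lt_one hx0.le hx).sum_le_tsum _ (fun i _ => by positivity)
  have hfin : ∀ n : ℕ, b (n + 1) ≤ C1 * (R⁻¹) ^ (n + 1) * (1 - σ / R)⁻¹ := by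
    intro n
    have h1 : Tendsto (fun j : ℕ => B * (σ⁻¹) ^ (n + 2) / ((n:ℝ) + 2 + j) +
        C1 * (R⁻¹) ^ (n + 1) * (1 - σ / R)⁻¹) atTop
        (𝓝 (0 + C1 * (R⁻¹) ^ (n + 1) * (1 - σ / R)⁻¹)) := by
      refine Tendsto.add ?_ tendsto_const_nhds
      apply Tendsto.const_div_atTop
      exact tendsto_atTop_add_const_left _ _ tendsto_natCast_atTop_atTop
    rw [zero_add] at h1
    refine ge_of_tendsto h1 (Eventually.of_forall fun j => ?_)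
    refine (hit n j).trans (add_le_add ?_ ?_)
    · have h2 := hb (n + 1 + j) (σ : ℂ) hs
      rw [Complex.ofReal_re] at h2
      simp only [hbd]
      push_cast
      rw [← mul_div_assoc, div_le_div_iff₀ (by positivity) (by positivity)]
      have e : B * σ⁻¹ ^ (n + 2) = σ ^ j * (B * σ⁻¹ ^ (n + 1 + j + 1)) := by
        rw [show n + 1 + j + 1 = n + 2 + j by ring, pow_add σ⁻¹ (n + 2) j]
        have : σ ^ j * σ⁻¹ ^ j = 1 := by rw [← mul_pow, mul_inv_cancel₀ hσ.ne', one_pow]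
        linear_combination -(B * σ⁻¹ ^ (n + 2)) * this
      rw [e]
      have e2 : (n:ℝ) + 1 + j + 1 = n + 2 + j := by ring
      rw [e2]
      gcongr
    · have := hgeo j
      gcongr
  refine ⟨C1 * (1 - σ / R)⁻¹, mul_pos hC10 (inv_pos.2 (by linarith)), fun n => ?_⟩
  have h1 := hfin n
  simp only [hbd] at h1
  rw [div_le_iff₀ (by positivity)] at h1
  push_cast at h1
  calc ‖Am (n + 1) (σ : ℂ)‖ ≤ _ := h1
    _ = _ := by ring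

/-- the bound for the moments at a complex point -/
theorem Am_cplx {s w c : ℂ} (hs : 0 < s.re) (hc : c ≠ 0) (hw : s - w ≠ 0) {R2 C : ℝ}
    (hR2 : ‖s - w‖ < R2) (hC : 0 < C)
    (h : ∀ k : ℕ, ‖dm k s - c * ((s - w)⁻¹) ^ (k + 1)‖ ≤ C * (R2⁻¹) ^ k) :
    ∃ c' : ℝ, 0 < c' ∧ ∀ᶠ n : ℕ in atTop, c' * ((‖s - w‖)⁻¹) ^ n ≤ ‖Am (n + 1) s‖ + ‖Am (n + 2) s‖ := by
  set R : ℝ := ‖s - w‖ with hR
  have hR0 : 0 < R := norm_pos_iff.2 hw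
  have hR20 : 0 < R2 := hR0.trans hR2
  have hc0 : 0 < ‖c‖ := norm_pos_iff.2 hc
  set L : ℝ := ‖s‖ + 1 with hL
  have hL0 : 0 < L := by positivity
  -- upper bound for the combination
  have hup : ∀ n : ℕ, ‖dm (n + 1) s + (n + 2) * dm (n + 2) s‖ ≤
      L * (n + 3) * (‖Am (n + 1) s‖ + ‖Am (n + 2) s‖) := by
    intro n
    rw [← Am_rel hs n]
    have e3 := norm_natc n 3
    have e2 := norm_natc n 2
    push_cast at e3 e2
    calc ‖s * (n + 2) * Am (n + 2) s - (n + 3) * Am (n + 1) s‖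
        ≤ ‖s * (n + 2) * Am (n + 2) s‖ + ‖((n:ℂ) + 3) * Am (n + 1) s‖ := norm_sub_le _ _
      _ = ‖s‖ * (n + 2) * ‖Am (n + 2) s‖ + (n + 3) * ‖Am (n + 1) s‖ := by
          rw [norm_mul, norm_mul, norm_mul, e3, e2]
      _ ≤ L * (n + 3) * ‖Am (n + 2) s‖ + L * (n + 3) * ‖Am (n + 1) s‖ := by
          have h1 : ‖s‖ ≤ L := by rw [hL]; linarith
          have h2 : (1:ℝ) ≤ L := by rw [hL]; linarith [norm_nonneg s]
          gcongr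
          · linarith
          · have : (0:ℝ) ≤ n + 3 := by positivity
            nlinarith
      _ = _ := by ring
  -- lower bound
  have hlo : ∀ n : ℕ, (n + 2) * ‖c‖ * (R⁻¹) ^ (n + 3) - ‖c‖ * (R⁻¹) ^ (n + 2) -
      (n + 3) * (C * (1 + R2⁻¹) * (R2⁻¹) ^ (n + 1)) ≤ ‖dm (n + 1) s + (n + 2) * dm (n + 2) s‖ := by
    intro n
    have h1 := h (n + 1)
    have h2 := h (n + 2)
    have e2 := norm_natc n 2
    push_cast at e2
    have e : dm (n + 1) s + (n + 2) * dm (n + 2) s = (n + 2) * (c * ((s - w)⁻¹) ^ (n + 2 + 1)) -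
        (-(c * ((s - w)⁻¹) ^ (n + 1 + 1)) - ((dm (n + 1) s - c * ((s - w)⁻¹) ^ (n + 1 + 1)) +
          (n + 2) * (dm (n + 2) s - c * ((s - w)⁻¹) ^ (n + 2 + 1)))) := by ring
    rw [e]
    have h3 := norm_sub_norm_le ((n + 2) * (c * ((s - w)⁻¹) ^ (n + 2 + 1)))
      (-(c * ((s - w)⁻¹) ^ (n + 1 + 1)) - ((dm (n + 1) s - c * ((s - w)⁻¹) ^ (n + 1 + 1)) +
          (n + 2) * (dm (n + 2) s - c * ((s - w)⁻¹) ^ (n + 2 + 1))))
    have h4 : ‖((n:ℂ) + 2) * (c * ((s - w)⁻¹) ^ (n + 2 + 1))‖ = (n + 2) * ‖c‖ * (R⁻¹) ^ (n + 3) := by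
      rw [norm_mul, norm_mul, norm_pow, norm_inv, e2]
      ring
    have h5 : ‖-(c * ((s - w)⁻¹) ^ (n + 1 + 1)) - ((dm (n + 1) s - c * ((s - w)⁻¹) ^ (n + 1 + 1)) +
          (n + 2) * (dm (n + 2) s - c * ((s - w)⁻¹) ^ (n + 2 + 1)))‖ ≤ ‖c‖ * (R⁻¹) ^ (n + 2) +
          (C * (R2⁻¹) ^ (n + 1) + (n + 2) * (C * (R2⁻¹) ^ (n + 2))) := by
      refine (norm_sub_le _ _).trans (add_le_add ?_ ((norm_add_le _ _).trans (add_le_add h1 ?_)))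
      · rw [norm_neg, norm_mul, norm_pow, norm_inv]
      · rw [norm_mul, e2]
        gcongr
    have h6 : C * (R2⁻¹) ^ (n + 1) + (n + 2) * (C * (R2⁻¹) ^ (n + 2)) ≤
        (n + 3) * (C * (1 + R2⁻¹) * (R2⁻¹) ^ (n + 1)) := by
      have hp : 0 < C * (R2⁻¹) ^ (n + 1) := by positivity
      have hp2 : 0 < C * R2⁻¹ * (R2⁻¹) ^ (n + 1) := by positivity
      have e5 : (R2⁻¹) ^ (n + 2) = R2⁻¹ * (R2⁻¹) ^ (n + 1) := by ring
      rw [e5]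
      have hn : (0:ℝ) ≤ n := Nat.cast_nonneg n
      nlinarith
    rw [h4] at h3
    linarith
  -- the limit
  have hlim : Tendsto (fun n : ℕ => ((n:ℝ) + 3)⁻¹ * R ^ n * ((n + 2) * ‖c‖ * (R⁻¹) ^ (n + 3) -
      ‖c‖ * (R⁻¹) ^ (n + 2) - (n + 3) * (C * (1 + R2⁻¹) * (R2⁻¹) ^ (n + 1)))) atTop
      (𝓝 (‖c‖ * (R⁻¹) ^ 3)) := by
    have hn3 : Tendsto (fun n : ℕ => ((n:ℝ) + 3)⁻¹) atTop (𝓝 0) :=
      tendsto_inv_atTop_zero.comp (tendsto_atTop_add_const_right _ _ tendsto_natCast_atTop_atTop)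
    have hg : Tendsto (fun n : ℕ => (R * R2⁻¹) ^ n) atTop (𝓝 0) := by
      apply tendsto_pow_atTop_nhds_zero_of_lt_one (by positivity)
      rw [← div_eq_mul_inv, div_lt_one hR20]
      exact hR2
    have h1 : Tendsto (fun n : ℕ => (1 - ((n:ℝ) + 3)⁻¹) * (‖c‖ * (R⁻¹) ^ 3) -
        ((n:ℝ) + 3)⁻¹ * (‖c‖ * (R⁻¹) ^ 2) - (C * (1 + R2⁻¹) * R2⁻¹) * (R * R2⁻¹) ^ n) atTop
        (𝓝 ((1 - 0) * (‖c‖ * (R⁻¹) ^ 3) - 0 * (‖c‖ * (R⁻¹) ^ 2) - (C * (1 + R2⁻¹) * R2⁻¹) * 0)) :=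
      (((tendsto_const_nhds.sub hn3).mul_const _).sub (hn3.mul_const _)).sub (hg.const_mul _)
    rw [sub_zero, one_mul, zero_mul, sub_zero, mul_zero, sub_zero] at h1
    refine h1.congr fun n => ?_
    have e : R ^ n * (R⁻¹) ^ n = 1 := by rw [← mul_pow, mul_inv_cancel₀ hR0.ne', one_pow]
    have hn : ((n:ℝ) + 3) ≠ 0 := by positivity
    have e2 : ((n:ℝ) + 3)⁻¹ * (n + 3) = 1 := inv_mul_cancel₀ hn
    have e3 : ((n:ℝ) + 3)⁻¹ * (n + 2) = 1 - ((n:ℝ) + 3)⁻¹ := by field_simp; ring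
    rw [mul_pow R R2⁻¹ n]
    calc (1 - ((n:ℝ) + 3)⁻¹) * (‖c‖ * (R⁻¹) ^ 3) - ((n:ℝ) + 3)⁻¹ * (‖c‖ * (R⁻¹) ^ 2) -
          (C * (1 + R2⁻¹) * R2⁻¹) * (R ^ n * R2⁻¹ ^ n)
        = (((n:ℝ) + 3)⁻¹ * (n + 2)) * (R ^ n * (R⁻¹) ^ n) * (‖c‖ * (R⁻¹) ^ 3) -
          ((n:ℝ) + 3)⁻¹ * (R ^ n * (R⁻¹) ^ n) * (‖c‖ * (R⁻¹) ^ 2) -
          (((n:ℝ) + 3)⁻¹ * (n + 3)) * (C * (1 + R2⁻¹) * R2⁻¹) * (R ^ n * R2⁻¹ ^ n) := by
          rw [e, e2, e3]; ring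
      _ = _ := by ring
  have hpos : 0 < ‖c‖ * (R⁻¹) ^ 3 := by positivity
  refine ⟨‖c‖ * (R⁻¹) ^ 3 / 2 / L, by positivity, ?_⟩
  filter_upwards [hlim.eventually (lt_mem_nhds (half_lt_self hpos))] with n hn
  have h1 := (hlo n).trans (hup n)
  have hn3 : (0:ℝ) < n + 3 := by positivity
  have h2 : ((n:ℝ) + 3)⁻¹ * R ^ n * (L * (n + 3) * (‖Am (n + 1) s‖ + ‖Am (n + 2) s‖)) =
      L * R ^ n * (‖Am (n + 1) s‖ + ‖Am (n + 2) s‖) := by field_simp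
  have h3 : ‖c‖ * (R⁻¹) ^ 3 / 2 ≤ L * R ^ n * (‖Am (n + 1) s‖ + ‖Am (n + 2) s‖) := by
    rw [← h2]
    refine hn.le.trans ?_
    have : 0 ≤ ((n:ℝ) + 3)⁻¹ * R ^ n := by positivity
    exact mul_le_mul_of_nonneg_left h1 this
  have e : R ^ n * (R⁻¹) ^ n = 1 := by rw [← mul_pow, mul_inv_cancel₀ hR0.ne', one_pow]
  calc ‖c‖ * (R⁻¹) ^ 3 / 2 / L * (R⁻¹) ^ n ≤
        (L * R ^ n * (‖Am (n + 1) s‖ + ‖Am (n + 2) s‖)) / L * (R⁻¹) ^ n := by gcongr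
    _ = (R ^ n * (R⁻¹) ^ n) * (‖Am (n + 1) s‖ + ‖Am (n + 2) s‖) := by field_simp
    _ = _ := by rw [e, one_mul]

end Pool.Agent.TH988.RB
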