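import Pool.Agent.TH988.RB.Wd

/-! Zeros of the zeta function and moments of `dl`. -/

set_option autoImplicit false

namespace Pool.Agent.TH988.RB

open MeasureTheory Filter Topology Set
open Pool.Agent.W263.BSD

lemma one_bd : ∀ v : ℝ, 0 < v → ‖(1:ℂ)‖ ≤ 1 := fun v _ => by simp

/-- the complex kernel -/
lemma mom_one {a : ℂ} (ha : 0 < a.re) (k : ℕ) : mom (fun _ => 1) k a = (a⁻¹) ^ (k + 1) := by
  have ha0 : a ≠ 0 := by
    intro h; rw [h] at ha; simp at ha
  have hint : ∀ k : ℕ, IntegrableOn (fun v : ℝ => (((v ^ k / k.factorial : ℝ) : ℂ)) *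
      Complex.exp (-(a * v))) (Ioi 0) := by
    intro k
    have := mom_integrable (f := fun _ => (1:ℂ)) measurable_const one_bd k ha
    simpa using this
  induction k with
  | zero =>
    unfold mom
    have e : ∀ v ∈ Ioi (0:ℝ), (1:ℂ) * (((v ^ 0 / Nat.factorial 0 : ℝ) : ℂ) * Complex.exp (-(a * v))) =
        Complex.exp (-(a * v)) := by
      intro v _
      simp
    rw [setIntegral_congr_fun measurableSet_Ioi e, lapC_one ha]
    simp
  | succ k ih =>
    set G : ℝ → ℂ := fun v => -((v:ℂ) ^ (k + 1) / (k + 1).factorial * Complex.exp (-(a * v)) * a⁻¹) with hG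
    set G' : ℝ → ℂ := fun v => (((v ^ (k + 1) / (k + 1).factorial : ℝ) : ℂ)) * Complex.exp (-(a * v)) -
      a⁻¹ * ((((v ^ k / k.factorial : ℝ) : ℂ)) * Complex.exp (-(a * v))) with hG'
    have hnf : ((k + 1).factorial : ℂ) = (k + 1) * k.factorial := by
      rw [Nat.factorial_succ]; push_cast; ring
    have hn0 : (k.factorial : ℂ) ≠ 0 := by exact_mod_cast k.factorial_ne_zero
    have hn1 : (k:ℂ) + 1 ≠ 0 := by exact_mod_cast k.succ_ne_zero
    have hd : ∀ v : ℝ, HasDerivAt G (G' v) v := by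
      intro v
      have h7 : HasDerivAt (fun w : ℂ => -(w ^ (k + 1) / (k + 1).factorial * Complex.exp (-(a * w)) * a⁻¹))
          (G' v) v := by
        have h8 : HasDerivAt (fun w : ℂ => w ^ (k + 1)) (((k + 1 : ℕ) : ℂ) * (v:ℂ) ^ k) v :=
          hasDerivAt_pow (k + 1) (v:ℂ)
        have h9 : HasDerivAt (fun w : ℂ => Complex.exp (-(a * w)))
            (Complex.exp (-(a * v)) * (-(a * 1))) v :=
          ((hasDerivAt_id (v:ℂ)).const_mul a).neg.cexp
        have h10 := (((h8.div_const ((k + 1).factorial : ℂ)).mul h9).mul_const a⁻¹).neg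
        refine h10.congr_deriv ?_
        simp only [hG']
        push_cast
        rw [hnf]
        field_simp
        ring
      exact h7.comp_ofReal
    have hG'i : IntegrableOn G' (Ioi 0) := (hint (k + 1)).sub ((hint k).const_mul _)
    have hGi : IntegrableOn G (Ioi 0) := by
      refine ((hint (k + 1)).mul_const (-a⁻¹)).congr (Eventually.of_forall fun v => ?_)
      simp only [hG]
      push_cast
      ring
    have h1 := tendsto_zero_of_hasDerivAt_of_integrableOn_Ioi (fun v _ => hd v) hG'i hGi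
    have h2 := integral_Ioi_of_hasDerivAt_of_tendsto' (fun v _ => hd v) hG'i h1
    have h3 : G 0 = 0 := by simp [hG]
    rw [h3, sub_zero] at h2
    simp only [hG'] at h2
    rw [integral_sub (hint (k + 1)) ((hint k).const_mul _), integral_const_mul] at h2
    unfold mom at ih ⊢
    simp only [one_mul] at ih ⊢
    rw [ih, sub_eq_zero] at h2
    rw [h2]
    ring

/-- moments of exponentials -/
lemma mom_exp {w s : ℂ} (h : 0 < (s - w).re) (k : ℕ) :
    mom (fun v => Complex.exp (w * v)) k s = ((s - w)⁻¹) ^ (k + 1) := by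
  rw [← mom_one h k]
  unfold mom
  congr 1
  funext v
  rw [one_mul, show -((s - w) * v) = w * v + -(s * v) by ring, Complex.exp_add]
  ring

/-- moments of `v e^{-b v}` -/
lemma mom_vexp {b : ℝ} {s : ℂ} (h : 0 < (s + b).re) (k : ℕ) :
    mom (fun v => ((v * Real.exp (-(b * v)) : ℝ) : ℂ)) k s = (k + 1) * ((s + b)⁻¹) ^ (k + 2) := by
  have h1 := mom_one h (k + 1)
  rw [show k + 1 + 1 = k + 2 by ring] at h1
  rw [← h1]
  unfold mom
  rw [← integral_const_mul]
  congr 1
  funext v
  have hnf : ((k + 1).factorial : ℂ) = (k + 1) * k.factorial := by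
    rw [Nat.factorial_succ]; push_cast; ring
  have hn0 : (k.factorial : ℂ) ≠ 0 := by exact_mod_cast k.factorial_ne_zero
  have hn1 : (k:ℂ) + 1 ≠ 0 := by exact_mod_cast k.succ_ne_zero
  push_cast
  rw [hnf, one_mul, show -((s + b) * v) = -(b * v) + -(s * v) by ring, Complex.exp_add]
  field_simp
  ring

/-- the zeros of `ζ(1 + s)` -/
def ZZ : Set ℂ := {s | riemannZeta₁ (1 + s) = 0}

lemma hh_diff : Differentiable ℂ (fun s : ℂ => riemannZeta₁ (1 + s)) :=
  differentiable_riemannZeta₁.comp (differentiable_const (1:ℂ) |>.add differentiable_id)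

lemma ZZ_closed : IsClosed ZZ := isClosed_eq hh_diff.continuous continuous_const

lemma ZZ_zeta {z : ℂ} (hz : z ∈ ZZ) : z ≠ 0 ∧ riemannZeta (1 + z) = 0 := by
  have hz' : riemannZeta₁ (1 + z) = 0 := hz
  have h0 : z ≠ 0 := by
    rintro rfl
    simp [riemannZeta₁_one] at hz'
  refine ⟨h0, ?_⟩
  rw [riemannZeta_eq_inv_sub_mul (by simpa using h0), hz', mul_zero]

lemma ZZ_of_zeta {s : ℂ} (h : riemannZeta s = 0) (hs : s ≠ 1) : s - 1 ∈ ZZ := by
  show riemannZeta₁ (1 + (s - 1)) = 0
  rw [add_sub_cancel]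
  rw [riemannZeta_eq_inv_sub_mul hs] at h
  rcases mul_eq_zero.1 h with h | h
  · exact absurd (inv_eq_zero.1 h) (sub_ne_zero.2 hs)
  · exact h

lemma ZZ_re {z : ℂ} (hz : z ∈ ZZ) : z.re < 0 := by
  by_contra h
  have h1 := (ZZ_zeta hz).2
  refine riemannZeta_ne_zero_of_one_le_re ?_ h1
  simp only [Complex.add_re, Complex.one_re]
  linarith [not_lt.1 h]

lemma ZZ_real {z : ℂ} (hz : z ∈ ZZ) (hi : z.im = 0) : z.re ≤ -1 := by
  by_contra h
  have h1 : z = (z.re : ℂ) := by
    apply Complex.ext <;> simp [hi]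
  have h2 := zeta1_real_ne (w := z.re) (by linarith [not_le.1 h])
  rw [← h1] at h2
  exact h2 hz

lemma ZZ_triv : (-3 : ℂ) ∈ ZZ := by
  have h1 : riemannZeta (-2 * ((0:ℕ) + 1)) = 0 := riemannZeta_neg_two_mul_nat_add_one 0
  have h2 := ZZ_of_zeta h1 (by
    intro h
    have := congrArg Complex.re h
    norm_num at this)
  convert h2 using 1
  push_cast
  ring

/-- factorization of an entire function at a zero -/
lemma factor {h : ℂ → ℂ} (hd : Differentiable ℂ h) {w : ℂ} (hw : h w = 0) (hne : ∃ z, h z ≠ 0) :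
    ∃ m : ℕ, 0 < m ∧ ∃ g : ℂ → ℂ, Differentiable ℂ g ∧ g w ≠ 0 ∧ ∀ z, h z = (z - w) ^ m * g z := by
  have ha : AnalyticAt ℂ h w := hd.analyticAt w
  have htop : analyticOrderAt h w ≠ ⊤ := by
    intro htop
    rw [analyticOrderAt_eq_top] at htop
    have h4 : AnalyticOnNhd ℂ h univ := fun z _ => hd.analyticAt z
    have h5 := h4.eqOn_of_preconnected_of_eventuallyEq (analyticOnNhd_const (v := 0))
      isPreconnected_univ (mem_univ w) htop
    obtain ⟨z, hz⟩ := hne
    exact hz (h5 (mem_univ z))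
  obtain ⟨m, hm⟩ := ENat.ne_top_iff_exists.1 htop
  obtain ⟨g0, hg0, hg0w, hev⟩ := (ha.analyticOrderAt_eq_natCast).1 hm.symm
  have hm0 : 0 < m := by
    by_contra hcon
    have hm' : m = 0 := by omega
    have h1 := hev.self_of_nhds
    rw [hw, hm'] at h1
    simp at h1
    exact hg0w h1.symm
  classical
  refine ⟨m, hm0, fun z => if z = w then g0 w else h z / (z - w) ^ m, fun z => ?_, by simpa using hg0w,
    fun z => ?_⟩
  · by_cases hz : z = w
    · subst hz
      refine hg0.differentiableAt.congr_of_eventuallyEq ?_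
      filter_upwards [hev] with y hy
      by_cases hyz : y = z
      · simp [hyz]
      · simp only [hyz, if_false]
        rw [hy, smul_eq_mul, mul_div_cancel_left₀]
        exact pow_ne_zero _ (sub_ne_zero.2 hyz)
    · have h1 : DifferentiableAt ℂ (fun z => h z / (z - w) ^ m) z :=
        (hd z).div (((differentiableAt_id).sub (differentiableAt_const w)).pow m)
          (pow_ne_zero _ (sub_ne_zero.2 hz))
      refine h1.congr_of_eventuallyEq ?_
      filter_upwards [isOpen_ne.mem_nhds hz] with y hy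
      have hy' : y ≠ w := hy
      simp [hy']
  · by_cases hz : z = w
    · rw [hz, hw, sub_self, zero_pow hm0.ne', zero_mul]
    · simp only [hz, if_false]
      rw [mul_div_cancel₀]
      exact pow_ne_zero _ (sub_ne_zero.2 hz)

lemma ZZ_factor {w : ℂ} (hw : w ∈ ZZ) : ∃ m : ℕ, 0 < m ∧ ∃ g : ℂ → ℂ, Differentiable ℂ g ∧ g w ≠ 0 ∧
    ∀ z, riemannZeta₁ (1 + z) = (z - w) ^ m * g z :=
  factor hh_diff hw ⟨0, by simp [riemannZeta₁_one]⟩

/-- the zeros are isolated -/
lemma ZZ_diff_closed {w : ℂ} (hw : w ∈ ZZ) : IsClosed (ZZ \ {w}) := by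
  obtain ⟨m, hm, g, hg, hgw, hf⟩ := ZZ_factor hw
  have hU : IsOpen {z | g z ≠ 0} := isOpen_ne_fun hg.continuous continuous_const
  have e : ZZ \ {w} = ZZ ∩ {z | g z ≠ 0}ᶜ := by
    ext z
    constructor
    · rintro ⟨h1, h2⟩
      refine ⟨h1, ?_⟩
      show ¬ (g z ≠ 0)
      rw [not_not]
      have h3 : riemannZeta₁ (1 + z) = 0 := h1
      rw [hf z] at h3
      rcases mul_eq_zero.1 h3 with h4 | h4
      · exact absurd (sub_eq_zero.1 (pow_eq_zero_iff hm.ne' |>.1 h4)) h2
      · exact h4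
    · rintro ⟨h1, h2⟩
      refine ⟨h1, fun h3 => ?_⟩
      have h3' : z = w := h3
      rw [h3'] at h2
      exact h2 hgw
  rw [e]
  exact ZZ_closed.inter hU.isClosed_compl

lemma dl_bdC : ∀ v : ℝ, 0 < v → ‖(dl v : ℂ)‖ ≤ Real.log 4 + 5 := fun v _ => by
  rw [Complex.norm_real, Real.norm_eq_abs]; exact dl_bound v

/-- the moments of `dl` at a real point -/
lemma dm_real {σ R : ℝ} (hσ : 0 < σ) (hR : 0 < R) (hR1 : R < σ + 1) (hZ : ∀ z ∈ ZZ, R < dist (σ : ℂ) z) :
    ∃ C : ℝ, 0 < C ∧ ∀ k : ℕ, ‖dm k (σ : ℂ)‖ ≤ C * (R⁻¹) ^ k := by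
  have hs : 0 < ((σ : ℂ)).re := by simpa using hσ
  refine mom_bound (Complex.measurable_ofReal.comp dl_measurable) dl_bdC hs hR (G := Dc) ?_ ?_
  · intro s hs'
    rw [Metric.mem_closedBall, dist_comm] at hs'
    have h1 : riemannZeta₁ (1 + s) ≠ 0 := by
      intro h
      exact absurd hs' (not_le.2 (hZ s h))
    have h2 : (1:ℂ) + s ≠ 0 := by
      intro h
      have h3 : s = -1 := by linear_combination h
      rw [h3, Complex.dist_eq] at hs'
      have h4 := Complex.re_le_norm ((σ:ℂ) - -1)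
      simp at h4
      simp at hs'
      linarith
    have h3 : AnalyticAt ℂ Dc s := (((Q_analyticAt h1).add analyticAt_const).neg).div
      (analyticAt_const.add analyticAt_id) h2
    exact h3.differentiableAt.differentiableWithinAt
  · have : {s : ℂ | 0 < s.re} ∈ 𝓝 (σ : ℂ) :=
      (isOpen_lt continuous_const Complex.continuous_re).mem_nhds hs
    filter_upwards [this] with s hs'
    exact (lapC_dl hs').symm

end Pool.Agent.TH988.RB
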