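import Pool.Agent.TH988.RB.We

/-! The moments of `dl` at a complex point. -/

set_option autoImplicit false

namespace Pool.Agent.TH988.RB

open MeasureTheory Filter Topology Set
open Pool.Agent.W263.BSD

lemma mom_zero (f : ℝ → ℂ) (s : ℂ) : mom f 0 s = Lc f s := by
  unfold mom Lc
  congr 1
  funext v
  simp

/-- the logarithmic derivative near a zero -/
lemma Q_factor {w s : ℂ} {m : ℕ} (hm : 0 < m) {g : ℂ → ℂ} (hg : Differentiable ℂ g)
    (hf : ∀ z, riemannZeta₁ (1 + z) = (z - w) ^ m * g z) (hsw : s ≠ w) (hgs : g s ≠ 0) :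
    Q s = m / (s - w) + deriv g s / g s := by
  have hne : s - w ≠ 0 := sub_ne_zero.2 hsw
  have h1 : HasDerivAt (fun s : ℂ => riemannZeta₁ (1 + s)) (deriv riemannZeta₁ (1 + s)) s := by
    have h2 := (differentiable_riemannZeta₁ (1 + s)).hasDerivAt
    have h3 : HasDerivAt (fun s : ℂ => 1 + s) 1 s := (hasDerivAt_id s).const_add 1
    have h4 := h2.comp s h3
    rw [mul_one] at h4
    exact h4
  have h2 : HasDerivAt (fun z : ℂ => (z - w) ^ m * g z)
      ((m * (s - w) ^ (m - 1) * 1) * g s + (s - w) ^ m * deriv g s) s :=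
    (((hasDerivAt_id s).sub_const w).pow m).mul (hg s).hasDerivAt
  have h3 : (fun s : ℂ => riemannZeta₁ (1 + s)) = fun z : ℂ => (z - w) ^ m * g z := funext hf
  rw [h3] at h1
  have h4 := h1.unique h2
  unfold Q
  rw [h4, hf s]
  obtain ⟨j, rfl⟩ : ∃ j, m = j + 1 := ⟨m - 1, by omega⟩
  simp only [Nat.add_sub_cancel]
  rw [pow_succ]
  field_simp

/-- the moments of `dl` at a complex point -/
theorem dm_cplx {s0 w : ℂ} (hs : 0 < s0.re) (hw : w ∈ ZZ) (hwre : -1 < w.re) {R2 : ℝ} (hR2 : 0 < R2)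
    (h1 : R2 < s0.re + 1) (hZ : ∀ z ∈ ZZ, z ≠ w → R2 < dist s0 z) :
    ∃ c : ℂ, c ≠ 0 ∧ ∃ C : ℝ, 0 < C ∧
      ∀ k : ℕ, ‖dm k s0 - c * ((s0 - w)⁻¹) ^ (k + 1)‖ ≤ C * (R2⁻¹) ^ k := by
  obtain ⟨m, hm, g, hg, hgw, hf⟩ := ZZ_factor hw
  have hwneg := ZZ_re hw
  have h1w : (1:ℂ) + w ≠ 0 := by
    intro h
    have h2 := congrArg Complex.re h
    simp at h2
    linarith
  have hmc : (m:ℂ) ≠ 0 := by exact_mod_cast hm.ne'
  set c : ℂ := -(m / (1 + w)) with hc
  have hc0 : c ≠ 0 := neg_ne_zero.2 (div_ne_zero hmc h1w)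
  refine ⟨c, hc0, ?_⟩
  set f1 : ℝ → ℂ := fun v => (dl v : ℂ) - c * Complex.exp (w * v) with hf1
  have hm1 : Measurable fun v : ℝ => (dl v : ℂ) := Complex.measurable_ofReal.comp dl_measurable
  have hm2 : Measurable fun v : ℝ => Complex.exp (w * v) := by fun_prop
  have hb2 : ∀ v : ℝ, 0 < v → ‖Complex.exp (w * v)‖ ≤ 1 := by
    intro v hv
    rw [Complex.norm_exp, Real.exp_le_one_iff]
    simp
    nlinarith
  have hf1m : Measurable f1 := hm1.sub (hm2.const_mul c)
  have hf1b : ∀ v : ℝ, 0 < v → ‖f1 v‖ ≤ (Real.log 4 + 5) + ‖c‖ * 1 := by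
    intro v hv
    simp only [hf1]
    refine (norm_sub_le _ _).trans (add_le_add (dl_bdC v hv) ?_)
    rw [norm_mul]
    exact mul_le_mul_of_nonneg_left (hb2 v hv) (norm_nonneg _)
  have hmomf : ∀ k : ℕ, ∀ s : ℂ, 0 < s.re → mom f1 k s = dm k s - c * ((s - w)⁻¹) ^ (k + 1) := by
    intro k s hs'
    have hsw : 0 < (s - w).re := by
      simp only [Complex.sub_re]; linarith
    rw [← mom_exp hsw k]
    unfold dm mom
    rw [← integral_const_mul, ← integral_sub (mom_integrable hm1 dl_bdC k hs')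
      ((mom_integrable hm2 hb2 k hs').const_mul c)]
    congr 1
    funext v
    simp only [hf1]
    ring
  set G : ℂ → ℂ := fun s => ((m:ℂ) / (1 + w) - 1 - deriv g s / g s) / (1 + s) with hG
  have hgs : ∀ s ∈ Metric.closedBall s0 R2, g s ≠ 0 := by
    intro s hs'
    rw [Metric.mem_closedBall, dist_comm] at hs'
    by_cases hsw : s = w
    · rw [hsw]; exact hgw
    · intro h
      have h2 : s ∈ ZZ := by
        show riemannZeta₁ (1 + s) = 0
        rw [hf s, h, mul_zero]
      exact absurd hs' (not_le.2 (hZ s h2 hsw))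
  obtain ⟨C, hC, hCk⟩ := mom_bound hf1m hf1b hs hR2 (G := G) (by
    intro s hs'
    have h2 : (1:ℂ) + s ≠ 0 := by
      intro h
      have h3 : s = -1 := by linear_combination h
      rw [Metric.mem_closedBall, dist_comm, h3, Complex.dist_eq] at hs'
      have h4 := Complex.re_le_norm (s0 - -1)
      simp at h4
      simp at hs'
      linarith
    have hga : AnalyticAt ℂ (deriv g) s := (hg.analyticAt s).deriv
    have h3 : AnalyticAt ℂ G s := ((analyticAt_const.sub (hga.div (hg.analyticAt s) (hgs s hs')))).div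
      (analyticAt_const.add analyticAt_id) h2
    exact h3.differentiableAt.differentiableWithinAt) (by
    have : {s : ℂ | 0 < s.re} ∈ 𝓝 s0 :=
      (isOpen_lt continuous_const Complex.continuous_re).mem_nhds hs
    filter_upwards [this] with s hs'
    have hs'' : 0 < s.re := hs'
    have hsw : s ≠ w := by
      rintro rfl
      linarith
    have hsw' : s - w ≠ 0 := sub_ne_zero.2 hsw
    have hgs' : g s ≠ 0 := by
      intro h
      have := zeta1_ne hs''
      rw [hf s, h, mul_zero] at this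
      exact this rfl
    have h1s : (1:ℂ) + s ≠ 0 := by
      intro h
      have h2 := congrArg Complex.re h
      simp at h2
      linarith
    rw [← mom_zero, hmomf 0 s hs'']
    have e1 : dm 0 s = lapC dl s := mom_zero _ s
    rw [e1, lapC_dl hs'', Q_factor hm hg hf hsw hgs']
    simp only [hG, hc]
    rw [zero_add, pow_one]
    field_simp
    ring)
  refine ⟨C, hC, fun k => ?_⟩
  rw [← hmomf k s0 hs]
  exact hCk k

end Pool.Agent.TH988.RB
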