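import Pool.Agent.TH988.RB.Wf

/-! One-sided large values in windows: the moment argument. -/

set_option autoImplicit false

namespace Pool.Agent.TH988.RB

open MeasureTheory Filter Topology Set
open Pool.Agent.W263.BSD

lemma vexp_le {b v : ℝ} (hb : 0 < b) (_hv : 0 < v) : v * Real.exp (-(b * v)) ≤ 1 / b := by
  have h := Real.add_one_le_exp (b * v)
  have h8 : b * v * Real.exp (-(b * v)) ≤ 1 := by
    calc b * v * Real.exp (-(b * v)) ≤ Real.exp (b * v) * Real.exp (-(b * v)) := by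
          gcongr
          linarith
      _ = 1 := by rw [← Real.exp_add]; simp
  rw [le_div_iff₀ hb]
  linarith

/-- the test function -/
noncomputable def Fb (c b v : ℝ) : ℝ := -gj v + c * (v * Real.exp (-(b * v)))

lemma Fb_measurable (c b : ℝ) : Measurable (Fb c b) := by
  unfold Fb
  exact gj_measurable.neg.add (by fun_prop)

lemma Fb_bound {b : ℝ} (hb : 0 < b) (c : ℝ) : ∃ B : ℝ, 0 < B ∧ ∀ v : ℝ, 0 < v → |Fb c b v| ≤ B := by
  obtain ⟨B, hB, h⟩ := gj_bound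
  refine ⟨B + |c| * (1 / b), by positivity, fun v hv => ?_⟩
  unfold Fb
  refine (abs_add_le _ _).trans ?_
  rw [abs_neg, abs_mul, abs_of_nonneg (show 0 ≤ v * Real.exp (-(b * v)) by positivity)]
  exact add_le_add (h v hv) (mul_le_mul_of_nonneg_left (vexp_le hb hv) (abs_nonneg _))

lemma Fb_mom {c b : ℝ} (hb : 0 < b) {s : ℂ} (hs : 0 < s.re) (k : ℕ) :
    mom (fun v => (Fb c b v : ℂ)) k s = -Am k s + c * ((k + 1) * ((s + b)⁻¹) ^ (k + 2)) := by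
  obtain ⟨B, hB, h⟩ := gj_bound
  rw [← mom_vexp (b := b) (s := s) (by simp; linarith) k]
  unfold Am mom
  have hi1 := mom_integrable (f := fun v => (gj v : ℂ)) (Complex.measurable_ofReal.comp gj_measurable)
    (B := B) (fun v hv => by rw [Complex.norm_real, Real.norm_eq_abs]; exact h v hv) k hs
  have hi2 := mom_integrable (f := fun v : ℝ => ((v * Real.exp (-(b * v)) : ℝ) : ℂ)) (by fun_prop)
    (B := 1 / b) (fun v hv => by
      rw [Complex.norm_real, Real.norm_of_nonneg (by positivity)]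
      exact vexp_le hb hv) k hs
  have hi3 : Integrable (fun v : ℝ => -((gj v : ℂ) * (((v ^ k / k.factorial : ℝ) : ℂ) *
    Complex.exp (-(s * v))))) (volume.restrict (Ioi 0)) := hi1.neg
  have hi4 : Integrable (fun v : ℝ => (c : ℂ) * (((v * Real.exp (-(b * v)) : ℝ) : ℂ) *
    (((v ^ k / k.factorial : ℝ) : ℂ) * Complex.exp (-(s * v))))) (volume.restrict (Ioi 0)) :=
    hi2.const_mul _
  rw [← integral_const_mul, ← integral_neg, ← integral_add hi3 hi4]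
  congr 1
  funext v
  unfold Fb
  push_cast
  ring

/-- the bound for the moments at a complex point from positivity on a window -/
lemma Am_window {η : ℝ} (h0 : 0 < η) (h1 : η < 1 / 2) {σ b R0 C' : ℝ} (hσ : 0 < σ) (hb : 0 < b)
    (hR0 : 0 < R0) (hC' : 0 < C')
    (hup : ∀ n : ℕ, ‖Am (n + 1) (σ : ℂ)‖ ≤ C' * (n + 2) * (R0⁻¹) ^ (n + 1)) {s : ℂ} (hs : s.re = σ) :
    ∃ C : ℝ, 0 < C ∧ ∀ n : ℕ, (∀ v, (1 - 2 * η) * (((n + 1 : ℕ) : ℝ) / σ) ≤ v →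
        v ≤ (1 + 2 * η) * (((n + 1 : ℕ) : ℝ) / σ) → jt v ≤ Real.exp (-(b * v))) →
      ‖Am (n + 1) s‖ ≤ C * (n + 2) * (max (R0⁻¹) (max ((σ + b)⁻¹) (qr η / σ))) ^ (n + 1) := by
  obtain ⟨B, hB, hBb⟩ := Fb_bound hb 1
  have h1' : 0 < 1 - η := by linarith
  have hσb : 0 < σ + b := by linarith
  have hq := qr_pos h0 h1
  set ρ : ℝ := max (R0⁻¹) (max ((σ + b)⁻¹) (qr η / σ)) with hρ
  have r1 : R0⁻¹ ≤ ρ := le_max_left _ _
  have r2 : (σ + b)⁻¹ ≤ ρ := (le_max_left _ _).trans (le_max_right _ _)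
  have r3 : qr η / σ ≤ ρ := (le_max_right _ _).trans (le_max_right _ _)
  have hρ0 : 0 < ρ := (inv_pos.2 hR0).trans_le r1
  refine ⟨C' + 2 * ((σ + b)⁻¹) ^ 2 + 4 * B / (σ * (1 - η)), by positivity, fun n hn => ?_⟩
  have hs0 : 0 < s.re := by rw [hs]; exact hσ
  have hσ0 : 0 < ((σ : ℝ) : ℂ).re := by simpa using hσ
  have hpos : ∀ v, (1 - 2 * η) * (((n + 1 : ℕ) : ℝ) / σ) ≤ v →
      v ≤ (1 + 2 * η) * (((n + 1 : ℕ) : ℝ) / σ) → 0 ≤ Fb 1 b v := by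
    intro v hv1 hv2
    have hv : 0 < v := by
      refine lt_of_lt_of_le ?_ hv1
      have : 0 < 1 - 2 * η := by linarith
      positivity
    have h3 := hn v hv1 hv2
    unfold Fb gj
    nlinarith
  have h3 := out_window h0 h1 hσ (Fb_measurable 1 b) hBb (n + 1) hs hpos
  rw [Fb_mom hb hs0, Fb_mom hb hσ0] at h3
  have e1 : ∀ z : ℂ, z.re = σ → ‖((1:ℝ):ℂ) * ((((n + 1 : ℕ) : ℂ) + 1) * ((z + b)⁻¹) ^ (n + 1 + 2))‖ ≤
      (n + 2) * (((σ + b)⁻¹) ^ 2 * ρ ^ (n + 1)) := by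
    intro z hz
    have e2 : ‖((n + 1 : ℕ) : ℂ) + 1‖ = (n:ℝ) + 2 := by
      rw [show ((n + 1 : ℕ) : ℂ) + 1 = (((n:ℝ) + 2 : ℝ) : ℂ) by push_cast; ring, Complex.norm_real,
        Real.norm_of_nonneg (by positivity)]
    rw [Complex.ofReal_one, one_mul, norm_mul, e2, norm_pow, norm_inv]
    have h4 : σ + b ≤ ‖z + b‖ := by
      have := Complex.re_le_norm (z + b)
      simp at this
      rw [hz] at this
      exact this
    have h5 : (‖z + b‖)⁻¹ ≤ (σ + b)⁻¹ := inv_anti₀ hσb h4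
    have h6 : (‖z + b‖)⁻¹ ^ (n + 1 + 2) ≤ ((σ + b)⁻¹) ^ 2 * ρ ^ (n + 1) := by
      calc (‖z + b‖)⁻¹ ^ (n + 1 + 2) ≤ ((σ + b)⁻¹) ^ (n + 1 + 2) := by gcongr
        _ = ((σ + b)⁻¹) ^ 2 * ((σ + b)⁻¹) ^ (n + 1) := by ring
        _ ≤ ((σ + b)⁻¹) ^ 2 * ρ ^ (n + 1) := by gcongr
    gcongr
  set E1 : ℂ := ((1:ℝ):ℂ) * ((((n + 1 : ℕ) : ℂ) + 1) * ((s + b)⁻¹) ^ (n + 1 + 2)) with hE1
  set E2 : ℂ := ((1:ℝ):ℂ) * ((((n + 1 : ℕ) : ℂ) + 1) * (((σ:ℂ) + b)⁻¹) ^ (n + 1 + 2)) with hE2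
  have h4 := e1 s hs
  have h5 := e1 (σ : ℂ) (by simp)
  have h6 : ‖Am (n + 1) s‖ ≤ ‖-Am (n + 1) s + E1‖ + ‖E1‖ := by
    have : Am (n + 1) s = E1 - (-Am (n + 1) s + E1) := by ring
    calc ‖Am (n + 1) s‖ = ‖E1 - (-Am (n + 1) s + E1)‖ := by rw [← this]
      _ ≤ ‖E1‖ + ‖-Am (n + 1) s + E1‖ := norm_sub_le _ _
      _ = _ := add_comm _ _
  have h7 : (-Am (n + 1) (σ : ℂ) + E2).re ≤ ‖Am (n + 1) (σ : ℂ)‖ + ‖E2‖ := by
    refine (Complex.re_le_norm _).trans ((norm_add_le _ _).trans ?_)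
    rw [norm_neg]
  have h8 : ‖Am (n + 1) (σ : ℂ)‖ ≤ C' * (n + 2) * ρ ^ (n + 1) := by
    refine (hup n).trans ?_
    gcongr
  have h9 : 4 * B / (σ * (1 - η)) * (qr η / σ) ^ (n + 1) ≤
      4 * B / (σ * (1 - η)) * ((n + 2) * ρ ^ (n + 1)) := by
    have h10 : (qr η / σ) ^ (n + 1) ≤ ρ ^ (n + 1) := by gcongr
    have h11 : ρ ^ (n + 1) ≤ (n + 2) * ρ ^ (n + 1) := by
      apply le_mul_of_one_le_left (by positivity)
      have : (0:ℝ) ≤ n := Nat.cast_nonneg n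
      linarith
    gcongr
    exact h10.trans h11
  calc ‖Am (n + 1) s‖ ≤ (C' * (n + 2) * ρ ^ (n + 1) + (n + 2) * (((σ + b)⁻¹) ^ 2 * ρ ^ (n + 1)) +
        4 * B / (σ * (1 - η)) * ((n + 2) * ρ ^ (n + 1))) + (n + 2) * (((σ + b)⁻¹) ^ 2 * ρ ^ (n + 1)) := by
        linarith
    _ = _ := by ring

/-- **one-sided large values in windows**, given the moment bounds -/
theorem window_exists {η : ℝ} (h0 : 0 < η) (h1 : η < 1 / 4) {σ b R R0 C' c' : ℝ} (hσ : 0 < σ)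
    (hb : 0 < b) (hR : 0 < R) (hRR0 : R < R0) (hRb : R < σ + b) (hRq : R * qr η < σ)
    (hC' : 0 < C') (hc' : 0 < c')
    (hup : ∀ n : ℕ, ‖Am (n + 1) (σ : ℂ)‖ ≤ C' * (n + 2) * (R0⁻¹) ^ (n + 1)) {s : ℂ} (hs : s.re = σ)
    (hlow : ∀ᶠ n : ℕ in atTop, c' * (R⁻¹) ^ n ≤ ‖Am (n + 1) s‖ + ‖Am (n + 2) s‖) :
    ∀ᶠ v0 : ℝ in atTop, ∃ v, (1 - 4 * η) * v0 ≤ v ∧ v ≤ (1 + 4 * η) * v0 ∧
      Real.exp (-(b * v)) < jt v := by
  have hR0 : 0 < R0 := hR.trans hRR0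
  obtain ⟨C, hC, hwin⟩ := Am_window h0 (by linarith) hσ hb hR0 hC' hup hs
  have hσb : 0 < σ + b := by linarith
  have hq := qr_pos h0 (by linarith : η < 1 / 2)
  set ρ : ℝ := max (R0⁻¹) (max ((σ + b)⁻¹) (qr η / σ)) with hρ
  have r1 : R0⁻¹ ≤ ρ := le_max_left _ _
  have hρ0 : 0 < ρ := (inv_pos.2 hR0).trans_le r1
  have hρR : R * ρ < 1 := by
    have h2 : ρ < R⁻¹ := by
      refine max_lt ?_ (max_lt ?_ ?_)
      · exact inv_strictAnti₀ hR hRR0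
      · exact inv_strictAnti₀ hR hRb
      · rw [div_lt_iff₀ hσ, ← div_eq_inv_mul, lt_div_iff₀ hR]
        linarith
    calc R * ρ < R * R⁻¹ := by gcongr
      _ = 1 := mul_inv_cancel₀ hR.ne'
  -- the limit
  have hlim : Tendsto (fun n : ℕ => C * (ρ + ρ ^ 2) * (((n:ℝ) + 3) * (R * ρ) ^ n)) atTop (𝓝 0) := by
    have h2 := tendsto_self_mul_const_pow_of_lt_one (r := R * ρ) (by positivity) hρR
    have h3 := tendsto_pow_atTop_nhds_zero_of_lt_one (r := R * ρ) (by positivity) hρR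
    have h4 : Tendsto (fun n : ℕ => C * (ρ + ρ ^ 2) * ((n:ℝ) * (R * ρ) ^ n + 3 * (R * ρ) ^ n)) atTop
        (𝓝 (C * (ρ + ρ ^ 2) * (0 + 3 * 0))) := (h2.add (h3.const_mul 3)).const_mul _
    rw [mul_zero, add_zero, mul_zero] at h4
    refine h4.congr fun n => ?_
    ring
  obtain ⟨N, hN⟩ := eventually_atTop.1 (hlow.and (hlim.eventually (gt_mem_nhds hc')))
  have hη1 : 0 < 1 - 2 * η := by linarith
  have hη2 : 0 < 1 + 2 * η := by linarith
  filter_upwards [eventually_ge_atTop (((N:ℝ) + 1) / σ),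
    eventually_ge_atTop ((1 + 2 * η) * (2 / σ) / (2 * η)), eventually_gt_atTop (0:ℝ)] with v0 hv1 hv2 hv3
  by_contra hcon
  push Not at hcon
  set n : ℕ := ⌊σ * v0⌋₊ with hn
  have hnle : (n:ℝ) ≤ σ * v0 := Nat.floor_le (by positivity)
  have hnlt : σ * v0 < n + 1 := Nat.lt_floor_add_one _
  have hnN : N ≤ n := by
    have h2 : (N:ℝ) + 1 ≤ σ * v0 := by
      rw [div_le_iff₀ hσ] at hv1
      linarith
    have h3 : (N:ℝ) < n + 1 := by linarith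
    exact Nat.lt_succ_iff.1 (by exact_mod_cast h3)
  obtain ⟨hlo, hli⟩ := hN n hnN
  -- windows
  have hw : ∀ j : ℕ, j ≤ 1 → ∀ v, (1 - 2 * η) * (((n + j + 1 : ℕ) : ℝ) / σ) ≤ v →
      v ≤ (1 + 2 * η) * (((n + j + 1 : ℕ) : ℝ) / σ) → jt v ≤ Real.exp (-(b * v)) := by
    intro j hj v hva hvb
    have hj' : (j:ℝ) ≤ 1 := by exact_mod_cast hj
    have hj0 : (0:ℝ) ≤ j := Nat.cast_nonneg j
    have h2 : v0 ≤ ((n + j + 1 : ℕ) : ℝ) / σ := by
      rw [le_div_iff₀ hσ]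
      push_cast
      linarith
    have h3 : ((n + j + 1 : ℕ) : ℝ) / σ ≤ v0 + 2 / σ := by
      rw [div_le_iff₀ hσ, add_mul, div_mul_cancel₀ _ hσ.ne']
      push_cast
      linarith
    apply hcon v
    · calc (1 - 4 * η) * v0 ≤ (1 - 2 * η) * v0 := by nlinarith
        _ ≤ (1 - 2 * η) * (((n + j + 1 : ℕ) : ℝ) / σ) := by gcongr
        _ ≤ v := hva
    · calc v ≤ (1 + 2 * η) * (((n + j + 1 : ℕ) : ℝ) / σ) := hvb
        _ ≤ (1 + 2 * η) * (v0 + 2 / σ) := by gcongr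
        _ ≤ (1 + 4 * η) * v0 := by
            rw [div_le_iff₀ (by positivity)] at hv2
            linarith
  have ha := hwin n (by simpa using hw 0 (by omega))
  have hb' := hwin (n + 1) (by simpa using hw 1 le_rfl)
  rw [show n + 1 + 1 = n + 2 by ring] at hb'
  push_cast at hb'
  have hRn : 0 < R ^ n := by positivity
  have e : R ^ n * (R⁻¹) ^ n = 1 := by rw [← mul_pow, mul_inv_cancel₀ hR.ne', one_pow]
  have hnn : (0:ℝ) ≤ n := Nat.cast_nonneg n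
  have h5 : c' ≤ C * (ρ + ρ ^ 2) * (((n:ℝ) + 3) * (R * ρ) ^ n) := by
    calc c' = R ^ n * (c' * (R⁻¹) ^ n) := by linear_combination (-c') * e
      _ ≤ R ^ n * (‖Am (n + 1) s‖ + ‖Am (n + 2) s‖) := by gcongr
      _ ≤ R ^ n * (C * (n + 3) * ρ ^ (n + 1) + C * (n + 3) * ρ ^ (n + 2)) := by
          gcongr
          · refine ha.trans ?_
            gcongr
            linarith
          · refine hb'.trans (le_of_eq ?_)
            ring
      _ = C * (ρ + ρ ^ 2) * (((n:ℝ) + 3) * (R * ρ) ^ n) := by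
          rw [mul_pow]; ring
  linarith

/-- unconditional windows, given the moment bounds -/
theorem window_exists' {η : ℝ} (h0 : 0 < η) (h1 : η < 1 / 4) {σ κ R0 C' : ℝ} (hσ : 0 < σ)
    (hκ : 0 < κ) (hRR0 : σ + κ < R0) (hRq : (σ + κ) * qr η < σ)
    (hup : ∀ n : ℕ, ‖Am (n + 1) (σ : ℂ)‖ ≤ C' * (n + 2) * (R0⁻¹) ^ (n + 1)) :
    ∀ᶠ v0 : ℝ in atTop, ∃ v, (1 - 4 * η) * v0 ≤ v ∧ v ≤ (1 + 4 * η) * v0 ∧
      -Real.exp (-(κ * v)) < jt v := by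
  have hR : 0 < σ + κ := by linarith
  have hR0 : 0 < R0 := hR.trans hRR0
  have hq := qr_pos h0 (by linarith : η < 1 / 2)
  obtain ⟨B, hB, hBb⟩ := Fb_bound hκ (-1)
  have h1' : 0 < 1 - η := by linarith
  have r1 : (σ + κ) * R0⁻¹ < 1 := by
    rw [← div_eq_mul_inv, div_lt_one hR0]; exact hRR0
  have r2 : (σ + κ) * (qr η / σ) < 1 := by
    rw [← mul_div_assoc, div_lt_one hσ]; exact hRq
  have hlim : Tendsto (fun n : ℕ => C' * (((σ + κ) * R0⁻¹) ^ (n + 1)) +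
      4 * B / (σ * (1 - η)) * ((σ + κ) * (qr η / σ)) ^ (n + 1)) atTop (𝓝 0) := by
    have h2 := (tendsto_pow_atTop_nhds_zero_of_lt_one (by positivity) r1).comp (tendsto_add_atTop_nat 1)
    have h3 := (tendsto_pow_atTop_nhds_zero_of_lt_one (by positivity) r2).comp (tendsto_add_atTop_nat 1)
    have h4 := (h2.const_mul C').add (h3.const_mul (4 * B / (σ * (1 - η))))
    rw [mul_zero, mul_zero, add_zero] at h4
    exact h4
  have hc' : 0 < ((σ + κ)⁻¹) ^ 2 := by positivity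
  obtain ⟨N, hN⟩ := eventually_atTop.1 (hlim.eventually (gt_mem_nhds hc'))
  have hη1 : 0 < 1 - 2 * η := by linarith
  have hη2 : 0 < 1 + 2 * η := by linarith
  filter_upwards [eventually_ge_atTop (((N:ℝ) + 1) / σ),
    eventually_ge_atTop ((1 + 2 * η) * (2 / σ) / (2 * η)), eventually_gt_atTop (0:ℝ)] with v0 hv1 hv2 hv3
  by_contra hcon
  push Not at hcon
  set n : ℕ := ⌊σ * v0⌋₊ with hn
  have hnle : (n:ℝ) ≤ σ * v0 := Nat.floor_le (by positivity)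
  have hnlt : σ * v0 < n + 1 := Nat.lt_floor_add_one _
  have hnN : N ≤ n := by
    have h2 : (N:ℝ) + 1 ≤ σ * v0 := by
      rw [div_le_iff₀ hσ] at hv1
      linarith
    have h3 : (N:ℝ) < n + 1 := by linarith
    exact Nat.lt_succ_iff.1 (by exact_mod_cast h3)
  have hli := hN n hnN
  have hσ0 : 0 < ((σ : ℝ) : ℂ).re := by simpa using hσ
  have hw : ∀ v, (1 - 2 * η) * (((n + 1 : ℕ) : ℝ) / σ) ≤ v →
      v ≤ (1 + 2 * η) * (((n + 1 : ℕ) : ℝ) / σ) → 0 ≤ Fb (-1) κ v := by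
    intro v hva hvb
    have h2 : v0 ≤ ((n + 1 : ℕ) : ℝ) / σ := by
      rw [le_div_iff₀ hσ]
      push_cast
      linarith
    have h3 : ((n + 1 : ℕ) : ℝ) / σ ≤ v0 + 2 / σ := by
      rw [div_le_iff₀ hσ, add_mul, div_mul_cancel₀ _ hσ.ne']
      push_cast
      linarith
    have h4 : (1 - 4 * η) * v0 ≤ v := by
      calc (1 - 4 * η) * v0 ≤ (1 - 2 * η) * v0 := by nlinarith
        _ ≤ (1 - 2 * η) * (((n + 1 : ℕ) : ℝ) / σ) := by gcongr
        _ ≤ v := hva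
    have h5 : v ≤ (1 + 4 * η) * v0 := by
      calc v ≤ (1 + 2 * η) * (((n + 1 : ℕ) : ℝ) / σ) := hvb
        _ ≤ (1 + 2 * η) * (v0 + 2 / σ) := by gcongr
        _ ≤ (1 + 4 * η) * v0 := by
            rw [div_le_iff₀ (by positivity)] at hv2
            linarith
    have hv : 0 < v := by
      refine lt_of_lt_of_le ?_ hva
      positivity
    have h6 := hcon v h4 h5
    unfold Fb gj
    nlinarith
  have h3 := out_window h0 (by linarith) hσ (Fb_measurable (-1) κ) hBb (n + 1) (s := (σ:ℂ)) (by simp) hw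
  have h4 := (norm_nonneg _).trans h3
  rw [Fb_mom hκ hσ0] at h4
  have e2 : (((-1:ℝ):ℂ) * ((((n + 1 : ℕ) : ℂ) + 1) * (((σ:ℂ) + κ)⁻¹) ^ (n + 1 + 2))) =
      ((-((n + 2) * ((σ + κ)⁻¹) ^ (n + 3)) : ℝ) : ℂ) := by
    push_cast
    ring
  rw [e2, Complex.add_re, Complex.ofReal_re, Complex.neg_re] at h4
  have h5 : -(Am (n + 1) (σ:ℂ)).re ≤ C' * (n + 2) * (R0⁻¹) ^ (n + 1) := by
    refine le_trans ?_ (hup n)
    exact (neg_le_abs _).trans (Complex.abs_re_le_norm _)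
  have hn2 : (0:ℝ) < n + 2 := by positivity
  have e : (σ + κ) ^ (n + 1) * ((σ + κ)⁻¹) ^ (n + 1) = 1 := by
    rw [← mul_pow, mul_inv_cancel₀ hR.ne', one_pow]
  have h6 : ((σ + κ)⁻¹) ^ 2 ≤ C' * (((σ + κ) * R0⁻¹) ^ (n + 1)) +
      4 * B / (σ * (1 - η)) * ((σ + κ) * (qr η / σ)) ^ (n + 1) := by
    have h7 : (n + 2) * ((σ + κ)⁻¹) ^ (n + 3) ≤ (n + 2) * (C' * (R0⁻¹) ^ (n + 1) +
        4 * B / (σ * (1 - η)) * (qr η / σ) ^ (n + 1)) := by
      have h8 : 4 * B / (σ * (1 - η)) * (qr η / σ) ^ (n + 1) ≤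
          (n + 2) * (4 * B / (σ * (1 - η)) * (qr η / σ) ^ (n + 1)) := by
        apply le_mul_of_one_le_left (by positivity)
        have : (0:ℝ) ≤ n := Nat.cast_nonneg n
        linarith
      linarith
    have h8 := le_of_mul_le_mul_left h7 hn2
    calc ((σ + κ)⁻¹) ^ 2 = (σ + κ) ^ (n + 1) * ((σ + κ)⁻¹) ^ (n + 3) := by
          linear_combination (-(((σ + κ)⁻¹) ^ 2)) * e
      _ ≤ (σ + κ) ^ (n + 1) * (C' * (R0⁻¹) ^ (n + 1) +
        4 * B / (σ * (1 - η)) * (qr η / σ) ^ (n + 1)) := by gcongr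
      _ = _ := by rw [mul_pow, mul_pow]; ring
  linarith

end Pool.Agent.TH988.RB
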